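import Mathlib

/-!
# NH4: the algebra spanned by a nilpotent group preserving a flag
-/

set_option autoImplicit false
set_option linter.unusedSectionVars false

namespace SV

open scoped commutatorElement

section nhalg

variable {A W Γ : Type*} [Ring A] [Algebra ℝ A] [AddCommGroup W] [Module ℂ W] [Group Γ]

/-- `φ a` lowers the flag by `k` steps. -/
def NhDep (φ : A →+* (W →ₗ[ℂ] W)) (F : ℕ → Submodule ℂ W) (k : ℕ) (a : A) : Prop :=
  ∀ i, ∀ w ∈ F (i + k), φ a w ∈ F i

/-- `φ a` acts on the quotients of the flag by scalars. -/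
def NhSc (φ : A →+* (W →ₗ[ℂ] W)) (F : ℕ → Submodule ℂ W) (a : A) : Prop :=
  ∀ i, ∃ c : ℂ, ∀ w ∈ F (i + 1), φ a w - c • w ∈ F i

/-- weights in the algebra spanned by a group -/
inductive NhWt (u : Γ →* A) : ℕ → A → Prop
  | zero (a : A) : NhWt u 0 a
  | gen (i : ℕ) (g : Γ) (hg : g ∈ Subgroup.lowerCentralSeries (⊤ : Subgroup Γ) i) : NhWt u i (u g - 1)
  | add {w : ℕ} {x y : A} : NhWt u w x → NhWt u w y → NhWt u w (x + y)
  | smul {w : ℕ} {x : A} (r : ℝ) : NhWt u w x → NhWt u w (r • x)
  | mul {w v : ℕ} {x y : A} : NhWt u w x → NhWt u v y → NhWt u (w + v) (x * y)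
  | mono {w : ℕ} {x : A} : NhWt u (w + 1) x → NhWt u w x

variable {φ : A →+* (W →ₗ[ℂ] W)} {F : ℕ → Submodule ℂ W}

theorem NhDep.zero_elt (k : ℕ) : NhDep φ F k (0 : A) := by
  intro i w _
  rw [map_zero, LinearMap.zero_apply]
  exact (F i).zero_mem

theorem NhDep.add {k : ℕ} {a b : A} (ha : NhDep φ F k a) (hb : NhDep φ F k b) :
    NhDep φ F k (a + b) := by
  intro i w hw
  rw [map_add, LinearMap.add_apply]
  exact (F i).add_mem (ha i w hw) (hb i w hw)

theorem NhDep.neg {k : ℕ} {a : A} (ha : NhDep φ F k a) : NhDep φ F k (-a) := by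
  intro i w hw
  rw [map_neg, LinearMap.neg_apply]
  exact (F i).neg_mem (ha i w hw)

theorem NhDep.smul (hφr : ∀ (r : ℝ) (a : A), φ (r • a) = (r : ℂ) • φ a) {k : ℕ} {a : A}
    (ha : NhDep φ F k a) (r : ℝ) : NhDep φ F k (r • a) := by
  intro i w hw
  rw [hφr, LinearMap.smul_apply]
  exact (F i).smul_mem _ (ha i w hw)

theorem NhDep.mul {k l : ℕ} {a b : A} (ha : NhDep φ F k a) (hb : NhDep φ F l b) :
    NhDep φ F (k + l) (a * b) := by
  intro i w hw
  rw [map_mul, Module.End.mul_apply]
  apply ha i
  apply hb (i + k)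
  rw [add_assoc]
  exact hw

theorem NhDep.mono (hmono : Monotone F) {k l : ℕ} (hkl : l ≤ k) {a : A} (ha : NhDep φ F k a) :
    NhDep φ F l a := fun i w hw => ha i w (hmono (by omega) hw)

theorem NhDep.eq_zero (hφ : Function.Injective φ) {r : ℕ} (h0 : F 0 = ⊥) (hr : F r = ⊤) {a : A}
    (ha : NhDep φ F r a) : a = 0 := by
  apply hφ
  rw [map_zero]
  ext w
  have h := ha 0 w (by rw [zero_add, hr]; trivial)
  rw [h0, Submodule.mem_bot] at h
  rw [h, LinearMap.zero_apply]

theorem NhSc.all (u : Γ →* A) (hspan : Submodule.span ℝ (Set.range u) = ⊤)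
    (hφr : ∀ (r : ℝ) (a : A), φ (r • a) = (r : ℂ) • φ a)
    (hF : ∀ g : Γ, ∀ i, ∃ c : ℂ, ∀ w ∈ F (i + 1), φ (u g) w - c • w ∈ F i) (a : A) :
    NhSc φ F a := by
  have ha : a ∈ Submodule.span ℝ (Set.range u) := by
    rw [hspan]
    trivial
  induction ha using Submodule.span_induction with
  | mem x hx =>
    obtain ⟨g, rfl⟩ := hx
    exact hF g
  | zero =>
    intro i
    exact ⟨0, fun w _ => by simp⟩
  | add x y _ _ hx hy =>
    intro i
    obtain ⟨c, hc⟩ := hx i
    obtain ⟨d, hd⟩ := hy i
    refine ⟨c + d, fun w hw => ?_⟩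
    have : φ (x + y) w - (c + d) • w = (φ x w - c • w) + (φ y w - d • w) := by
      rw [map_add, LinearMap.add_apply, add_smul]
      abel
    rw [this]
    exact (F i).add_mem (hc w hw) (hd w hw)
  | smul r x _ hx =>
    intro i
    obtain ⟨c, hc⟩ := hx i
    refine ⟨(r : ℂ) * c, fun w hw => ?_⟩
    have : φ (r • x) w - ((r : ℂ) * c) • w = (r : ℂ) • (φ x w - c • w) := by
      rw [hφr, LinearMap.smul_apply, smul_sub, mul_smul]
    rw [this]
    exact (F i).smul_mem _ (hc w hw)

theorem NhSc.dep_zero (h0 : F 0 = ⊥) (hmono : Monotone F) {a : A} (ha : NhSc φ F a) :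
    NhDep φ F 0 a := by
  intro i w hw
  rw [add_zero] at hw
  cases i with
  | zero =>
    rw [h0, Submodule.mem_bot] at hw
    subst hw
    rw [map_zero]
    exact (F 0).zero_mem
  | succ i =>
    obtain ⟨c, hc⟩ := ha i
    have : φ a w = (φ a w - c • w) + c • w := by abel
    rw [this]
    exact (F (i + 1)).add_mem (hmono (Nat.le_succ i) (hc w hw)) ((F (i + 1)).smul_mem c hw)

theorem NhSc.comm (h0 : F 0 = ⊥) (hmono : Monotone F) {a b : A} (ha : NhSc φ F a)
    (hb : NhSc φ F b) : NhDep φ F 1 (a * b - b * a) := by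
  intro i w hw
  obtain ⟨c, hc⟩ := ha i
  obtain ⟨d, hd⟩ := hb i
  have h1 := hc w hw
  have h2 := hd w hw
  have h3 := ha.dep_zero h0 hmono i _ h2
  have h4 := hb.dep_zero h0 hmono i _ h1
  have : φ (a * b - b * a) w = φ a (φ b w - d • w) - φ b (φ a w - c • w) + d • (φ a w - c • w)
      - c • (φ b w - d • w) := by
    rw [map_sub, map_mul, map_mul, LinearMap.sub_apply, Module.End.mul_apply,
      Module.End.mul_apply, map_sub, map_sub, map_smul, map_smul, smul_sub, smul_sub,
      smul_comm c d]
    abel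
  rw [this]
  exact (F i).sub_mem ((F i).add_mem ((F i).sub_mem h3 h4) ((F i).smul_mem _ h1))
    ((F i).smul_mem _ h2)

theorem NhSc.dep_one_of_nilpotent (h0 : F 0 = ⊥) (hmono : Monotone F) {a : A} (ha : NhSc φ F a)
    (hn : IsNilpotent a) : NhDep φ F 1 a := by
  intro i w hw
  obtain ⟨c, hc⟩ := ha i
  by_cases hc0 : c = 0
  · have := hc w hw
    rwa [hc0, zero_smul, sub_zero] at this
  · obtain ⟨N, hN⟩ := hn
    have h1 : ∀ n : ℕ, φ (a ^ n) w - c ^ n • w ∈ F i := by
      intro n
      induction n with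
      | zero => simp
      | succ n ih =>
        have h2 := ha.dep_zero h0 hmono i _ ih
        have : φ (a ^ (n + 1)) w - c ^ (n + 1) • w
            = φ a (φ (a ^ n) w - c ^ n • w) + c ^ n • (φ a w - c • w) := by
          rw [pow_succ', map_mul, Module.End.mul_apply, map_sub, map_smul, smul_sub, smul_smul,
            ← pow_succ]
          abel
        rw [this]
        exact (F i).add_mem h2 ((F i).smul_mem _ (hc w hw))
    have h3 := h1 N
    rw [hN, map_zero, LinearMap.zero_apply, zero_sub] at h3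
    have h4 : w ∈ F i := by
      have h5 := (F i).smul_mem (-(c ^ N)⁻¹) h3
      rw [smul_neg, neg_smul, neg_neg, smul_smul, inv_mul_cancel₀ (pow_ne_zero _ hc0),
        one_smul] at h5
      exact h5
    exact ha.dep_zero h0 hmono i w h4

theorem NhDep.pow {a : A} (ha : NhDep φ F 1 a) (ha0 : NhDep φ F 0 (1 : A)) (n : ℕ) :
    NhDep φ F n (a ^ n) := by
  induction n with
  | zero =>
    rw [pow_zero]
    exact ha0
  | succ n ih =>
    rw [pow_succ]
    exact ih.mul ha

/-- commutators raise the weight -/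
theorem NhWt.comm (u : Γ →* A) (hspan : Submodule.span ℝ (Set.range u) = ⊤) {w : ℕ} {x : A}
    (hx : NhWt u w x) (a : A) : NhWt u (w + 1) (a * x - x * a) := by
  -- the basic commutator
  have hbasic : ∀ (i : ℕ) (g h : Γ), g ∈ Subgroup.lowerCentralSeries (⊤ : Subgroup Γ) i →
      NhWt u (i + 1) (u h * u g - u g * u h) := by
    intro i g h hg
    have h1 : ⁅h, g⁆ ∈ Subgroup.lowerCentralSeries (⊤ : Subgroup Γ) (i + 1) := by
      rw [← commutatorElement_inv]
      apply Subgroup.inv_mem
      exact Subgroup.commutator_mem_commutator hg (Subgroup.mem_top h)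
    have h2 : u h * u g - u g * u h = (u ⁅h, g⁆ - 1) * (u g * u h) := by
      rw [sub_mul, one_mul, ← map_mul, ← map_mul, ← map_mul, commutatorElement_def]
      congr 2
      group
    rw [h2]
    exact (NhWt.gen (i + 1) _ h1).mul (NhWt.zero _)
  have ha : a ∈ Submodule.span ℝ (Set.range u) := by
    rw [hspan]
    trivial
  induction ha using Submodule.span_induction with
  | mem b hb =>
    obtain ⟨h, rfl⟩ := hb
    induction hx with
    | zero x =>
      have hx : x ∈ Submodule.span ℝ (Set.range u) := by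
        rw [hspan]
        trivial
      induction hx using Submodule.span_induction with
      | mem y hy =>
        obtain ⟨g, rfl⟩ := hy
        exact hbasic 0 g h (by simp)
      | zero =>
        have : u h * 0 - 0 * u h = (0 : ℝ) • (u 1 - 1) := by simp
        rw [this]
        exact (NhWt.gen _ 1 (Subgroup.one_mem _)).smul 0
      | add y z _ _ hy hz =>
        have : u h * (y + z) - (y + z) * u h = (u h * y - y * u h) + (u h * z - z * u h) := by
          noncomm_ring
        rw [this]
        exact hy.add hz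
      | smul r y _ hy =>
        have : u h * (r • y) - (r • y) * u h = r • (u h * y - y * u h) := by
          rw [mul_smul_comm, smul_mul_assoc, smul_sub]
        rw [this]
        exact hy.smul r
    | gen i g hg =>
      have : u h * (u g - 1) - (u g - 1) * u h = u h * u g - u g * u h := by noncomm_ring
      rw [this]
      exact hbasic i g h hg
    | add _ _ hy hz =>
      rename_i y z _ _
      have : u h * (y + z) - (y + z) * u h = (u h * y - y * u h) + (u h * z - z * u h) := by
        noncomm_ring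
      rw [this]
      exact hy.add hz
    | smul r _ hy =>
      rename_i y _
      have : u h * (r • y) - (r • y) * u h = r • (u h * y - y * u h) := by
        rw [mul_smul_comm, smul_mul_assoc, smul_sub]
      rw [this]
      exact hy.smul r
    | mul hy0 hz0 hy hz =>
      rename_i w v y z
      have : u h * (y * z) - y * z * u h = (u h * y - y * u h) * z + y * (u h * z - z * u h) := by
        noncomm_ring
      rw [this]
      refine NhWt.add ?_ ?_
      · have h1 := hy.mul hz0
        rwa [show w + 1 + v = w + v + 1 by ring] at h1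
      · have h1 := hy0.mul hz
        rwa [← add_assoc] at h1
    | mono _ hy => exact hy.mono
  | zero =>
    have : (0 : A) * x - x * 0 = (0 : ℝ) • (u 1 - 1) := by simp
    rw [this]
    exact (NhWt.gen _ 1 (Subgroup.one_mem _)).smul 0
  | add y z _ _ hy hz =>
    have : (y + z) * x - x * (y + z) = (y * x - x * y) + (z * x - x * z) := by
      noncomm_ring
    rw [this]
    exact hy.add hz
  | smul r y _ hy =>
    have : (r • y) * x - x * (r • y) = r • (y * x - x * y) := by
      rw [mul_smul_comm, smul_mul_assoc, smul_sub]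
    rw [this]
    exact hy.smul r

theorem nh_alg_div (c w v : ℕ) :
    (w + v + c) / (c + 1) ≤ (w + c) / (c + 1) + (v + c) / (c + 1) := by
  have h1 : ∀ x : ℕ, x ≤ (x + c) / (c + 1) * (c + 1) := by
    intro x
    have h2 := Nat.lt_div_mul_add (a := x + c) (b := c + 1) (Nat.succ_pos c)
    omega
  rw [Nat.div_le_iff_le_mul_add_pred (Nat.succ_pos c)]
  have h2 := h1 w
  have h3 := h1 v
  have h4 : (c + 1) * ((w + c) / (c + 1) + (v + c) / (c + 1))
      = (w + c) / (c + 1) * (c + 1) + (v + c) / (c + 1) * (c + 1) := by ring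
  rw [h4]
  omega

/-- high weight implies high depth -/
theorem NhWt.dep (u : Γ →* A) (hφr : ∀ (r : ℝ) (a : A), φ (r • a) = (r : ℂ) • φ a)
    (h0 : F 0 = ⊥) (hmono : Monotone F) (hsc : ∀ a : A, NhSc φ F a) (c : ℕ)
    (hlcs : Subgroup.lowerCentralSeries (⊤ : Subgroup Γ) (c + 1) = ⊥) {w : ℕ} {x : A} (hx : NhWt u w x) :
    NhDep φ F ((w + c) / (c + 1)) x := by
  induction hx with
  | zero a =>
    have : (0 + c) / (c + 1) = 0 := by
      rw [zero_add]
      exact Nat.div_eq_of_lt (Nat.lt_succ_self c)
    rw [this]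
    exact (hsc a).dep_zero h0 hmono
  | gen i g hg =>
    rcases Nat.eq_zero_or_pos i with hi | hi
    · subst hi
      have : (0 + c) / (c + 1) = 0 := by
        rw [zero_add]
        exact Nat.div_eq_of_lt (Nat.lt_succ_self c)
      rw [this]
      exact (hsc _).dep_zero h0 hmono
    · by_cases hic : i ≤ c + 1
      · have h1 : (i + c) / (c + 1) ≤ 1 := by
          rw [Nat.div_le_iff_le_mul_add_pred (Nat.succ_pos c)]
          omega
        refine NhDep.mono hmono h1 ?_
        -- the elements with `u g - 1` of depth one form a subgroup containing the commutators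
        let S : Subgroup Γ :=
          { carrier := {g | NhDep φ F 1 (u g - 1)}
            mul_mem' := by
              intro a b ha hb
              have : u (a * b) - 1 = (u a - 1) * u b + (u b - 1) := by
                rw [map_mul]
                noncomm_ring
              change NhDep φ F 1 (u (a * b) - 1)
              rw [this]
              exact NhDep.add (NhDep.mul (k := 1) (l := 0) ha ((hsc _).dep_zero h0 hmono)) hb
            one_mem' := by
              change NhDep φ F 1 (u 1 - 1)
              rw [map_one, sub_self]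
              exact NhDep.zero_elt 1
            inv_mem' := by
              intro a ha
              have h2 : u a * u a⁻¹ = 1 := by rw [← map_mul, mul_inv_cancel, map_one]
              have : u a⁻¹ - 1 = -((u a - 1) * u a⁻¹) := by
                rw [sub_mul, one_mul, h2]
                abel
              change NhDep φ F 1 (u a⁻¹ - 1)
              rw [this]
              exact NhDep.neg (NhDep.mul (k := 1) (l := 0) ha ((hsc _).dep_zero h0 hmono)) }
        have hS : commutator Γ ≤ S := by
          rw [commutator_def, Subgroup.commutator_le]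
          intro a _ b _
          change NhDep φ F 1 (u ⁅a, b⁆ - 1)
          have : u ⁅a, b⁆ - 1 = (u a * u b - u b * u a) * (u a⁻¹ * u b⁻¹) := by
            rw [sub_mul, ← map_mul, ← map_mul, ← map_mul, ← map_mul, ← map_mul,
              commutatorElement_def, show b * a * (a⁻¹ * b⁻¹) = 1 by group, map_one,
              show a * b * (a⁻¹ * b⁻¹) = a * b * a⁻¹ * b⁻¹ by group]
          rw [this]
          exact NhDep.mul (k := 1) (l := 0) ((hsc _).comm h0 hmono (hsc _))
            ((hsc _).dep_zero h0 hmono)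
        have h3 : g ∈ commutator Γ := by
          have h4 := Subgroup.lowerCentralSeries_antitone (⊤ : Subgroup Γ) hi hg
          rwa [Subgroup.top_lowerCentralSeries_one] at h4
        exact hS h3
      · have h1 : g ∈ Subgroup.lowerCentralSeries (⊤ : Subgroup Γ) (c + 1) :=
          Subgroup.lowerCentralSeries_antitone (⊤ : Subgroup Γ) (by omega) hg
        rw [hlcs, Subgroup.mem_bot] at h1
        subst h1
        rw [map_one, sub_self]
        exact NhDep.zero_elt _
  | add _ _ hy hz => exact hy.add hz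
  | smul r _ hy => exact hy.smul hφr r
  | mul _ _ hy hz => exact NhDep.mono hmono (nh_alg_div c _ _) (hy.mul hz)
  | mono _ hy => exact NhDep.mono hmono (Nat.div_le_div_right (by omega)) hy

theorem nh_alg {A W Γ : Type*} [Ring A] [Algebra ℝ A] [AddCommGroup W] [Module ℂ W] [Group Γ] [Group.IsNilpotent Γ]
    (u : Γ →* A) (hspan : Submodule.span ℝ (Set.range u) = ⊤)
    (φ : A →+* (W →ₗ[ℂ] W)) (hφ : Function.Injective φ) (hφr : ∀ (r : ℝ) (a : A), φ (r • a) = (r : ℂ) • φ a)
    (r : ℕ) (F : ℕ → Submodule ℂ W) (h0 : F 0 = ⊥) (hr : F r = ⊤) (hmono : Monotone F)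
    (hF : ∀ g : Γ, ∀ i, ∃ c : ℂ, ∀ w ∈ F (i + 1), φ (u g) w - c • w ∈ F i) :
    ∃ J : Submodule ℝ A, (∀ a : A, a ∈ J ↔ IsNilpotent a) ∧ (∀ a : A, ∀ j ∈ J, a * j ∈ J ∧ j * a ∈ J) ∧
      (∀ a b : A, a * b - b * a ∈ J) ∧ (∃ m : ℕ, J ^ m = ⊥) ∧
      ∃ m : ℕ, ∀ a b : A, (fun x => a * x - x * a)^[m] b = 0 := by
  have hsc : ∀ a : A, NhSc φ F a := NhSc.all u hspan hφr hF
  have hd0 : ∀ a : A, NhDep φ F 0 a := fun a => (hsc a).dep_zero h0 hmono
  let D : ℕ → Submodule ℝ A := fun k =>
    { carrier := {a | NhDep φ F k a}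
      add_mem' := fun ha hb => NhDep.add ha hb
      zero_mem' := NhDep.zero_elt k
      smul_mem' := fun c _ ha => NhDep.smul hφr ha c }
  have hD : ∀ k a, a ∈ D k ↔ NhDep φ F k a := fun k a => Iff.rfl
  refine ⟨D 1, ?_, ?_, ?_, ⟨r, ?_⟩, ?_⟩
  · intro a
    constructor
    · intro ha
      exact ⟨r, NhDep.eq_zero hφ h0 hr (NhDep.pow ha (hd0 1) r)⟩
    · intro ha
      exact (hsc a).dep_one_of_nilpotent h0 hmono ha
  · intro a j hj
    exact ⟨NhDep.mul (k := 0) (l := 1) (hd0 a) hj, NhDep.mul (k := 1) (l := 0) hj (hd0 a)⟩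
  · intro a b
    exact (hsc a).comm h0 hmono (hsc b)
  · have h1 : ∀ k : ℕ, D 1 ^ k ≤ D k := by
      intro k
      induction k with
      | zero => exact fun a _ => hd0 a
      | succ k ih =>
        rw [pow_succ, Submodule.mul_le]
        intro a ha b hb
        exact NhDep.mul (ih ha) hb
    rw [eq_bot_iff]
    intro a ha
    rw [Submodule.mem_bot]
    exact NhDep.eq_zero hφ h0 hr (h1 r ha)
  · obtain ⟨n, hn⟩ := Subgroup.nilpotent_iff_lowerCentralSeries.1 (inferInstance : Group.IsNilpotent Γ)
    have hlcs : Subgroup.lowerCentralSeries (⊤ : Subgroup Γ) (n + 1) = ⊥ := by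
      rw [eq_bot_iff, ← hn]
      exact Subgroup.lowerCentralSeries_antitone (⊤ : Subgroup Γ) (Nat.le_succ n)
    refine ⟨r * (n + 1), fun a b => ?_⟩
    have h1 : ∀ k : ℕ, NhWt u k ((fun x => a * x - x * a)^[k] b) := by
      intro k
      induction k with
      | zero => exact NhWt.zero b
      | succ k ih =>
        rw [Function.iterate_succ_apply']
        exact ih.comm u hspan a
    have h2 := (h1 (r * (n + 1))).dep u hφr h0 hmono hsc n hlcs
    have h3 : r ≤ (r * (n + 1) + n) / (n + 1) := by
      rw [Nat.le_div_iff_mul_le (Nat.succ_pos n)]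
      exact Nat.le_add_right _ _
    exact NhDep.eq_zero hφ h0 hr (NhDep.mono hmono h3 h2)

end nhalg

end SV
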