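import Pool.Agent.Helper43.NH.Defs

/-! CI8a: averaging along a flow. -/

namespace SV

open Finset Cvx

section avg

variable {M : Type*} [TopologicalSpace M]

/-- simplices labelled by a finite family of heights -/
noncomputable def avgL (a : ℝ) (R : ℕ) (k : ℕ) : SC M k →ₗ[ℝ] SC (M × ℝ) k :=
  ext (fun σ => ((R : ℝ) ^ (k + 1))⁻¹ • ∑ t : Fin (k + 1) → Fin R,
    Finsupp.single (σ.prodMk (comb (fun j => a * ((t j : ℕ) : ℝ)))) (1 : ℝ))

theorem avgL_single (a : ℝ) (R : ℕ) (k : ℕ) (σ : Sx M k) :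
    avgL a R k (Finsupp.single σ (1 : ℝ)) = ((R : ℝ) ^ (k + 1))⁻¹ • ∑ t : Fin (k + 1) → Fin R,
      Finsupp.single (σ.prodMk (comb (fun j => a * ((t j : ℕ) : ℝ)))) (1 : ℝ) := by
  rw [avgL, ext_single, one_smul]

theorem avg_sum {R k : ℕ} {W : Type*} [AddCommMonoid W] (i : Fin (k + 2)) (f : (Fin (k + 1) → Fin R) → W) :
    ∑ t : Fin (k + 2) → Fin R, f (fun j => t (i.succAbove j)) = R • ∑ t, f t := by
  rw [← (Fin.insertNthEquiv (fun _ => Fin R) i).sum_comp, Fintype.sum_prod_type]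
  simp [Fin.insertNthEquiv]

theorem bd_avgL (a : ℝ) (R : ℕ) (hR : 0 < R) (k : ℕ) (c : SC M (k + 1)) :
    bd k (avgL a R (k + 1) c) = avgL a R k (bd k c) := by
  have hR' : (R : ℝ) ≠ 0 := by positivity
  have : (bd k).comp (avgL (M := M) a R (k + 1)) = (avgL a R k).comp (bd k) := by
    refine Finsupp.lhom_ext' (fun σ => LinearMap.ext_ring ?_)
    simp only [LinearMap.comp_apply, Finsupp.lsingle_apply]
    rw [avgL_single, map_smul, map_sum, bd_single, one_smul, map_sum]
    simp only [bd_single, one_smul, map_smul, avgL_single]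
    rw [Finset.sum_comm, Finset.smul_sum]
    refine Finset.sum_congr rfl (fun i _ => ?_)
    rw [← Finset.smul_sum, smul_comm]
    congr 1
    have h1 : ∀ t : Fin (k + 2) → Fin R,
        sface (M × ℝ) k i (σ.prodMk (comb (fun j => a * ((t j : ℕ) : ℝ)))) =
        (sface M k i σ).prodMk (comb (fun j => a * ((t (i.succAbove j) : ℕ) : ℝ))) := by
      intro t
      ext s
      · rfl
      · exact comb_face (fun j => a * ((t j : ℕ) : ℝ)) i s
    simp only [h1]
    rw [avg_sum i (fun t => Finsupp.single ((sface M k i σ).prodMk (comb (fun j => a * ((t j : ℕ) : ℝ)))) (1 : ℝ)),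
      ← Nat.cast_smul_eq_nsmul ℝ, smul_smul]
    congr 1
    rw [pow_succ]
    field_simp
  exact LinearMap.congr_fun this c

/-- the homotopy along the flow -/
def avgH (F : C(ℝ × M, M)) : C(ℝ × (M × ℝ), M) :=
  ⟨fun z => F (z.1 * z.2.2, z.2.1), by fun_prop⟩

theorem avg_one (F : C(ℝ × M, M)) (a : ℝ) (R : ℕ) (k : ℕ) (σ : Sx M k) :
    smap ((avgH F).comp (slice 1 (M × ℝ))) k (avgL a R k (Finsupp.single σ (1 : ℝ))) =
      ((R : ℝ) ^ (k + 1))⁻¹ • ∑ t : Fin (k + 1) → Fin R,
        Finsupp.single (flo F (comb (fun j => a * ((t j : ℕ) : ℝ))) σ) (1 : ℝ) := by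
  rw [avgL_single, map_smul, map_sum]
  congr 1
  refine Finset.sum_congr rfl (fun t _ => ?_)
  rw [smap_single]
  congr 1
  ext s
  show F (1 * comb (fun j => a * ((t j : ℕ) : ℝ)) s, σ s) = F (comb (fun j => a * ((t j : ℕ) : ℝ)) s, σ s)
  rw [one_mul]

theorem avg_zero (F : C(ℝ × M, M)) (hF0 : ∀ x, F (0, x) = x) (a : ℝ) (R : ℕ) (hR : 0 < R) (k : ℕ) (c : SC M k) :
    smap ((avgH F).comp (slice 0 (M × ℝ))) k (avgL a R k c) = c := by
  have hR' : (R : ℝ) ≠ 0 := by positivity
  have : (smap ((avgH F).comp (slice 0 (M × ℝ))) k).comp (avgL a R k) = LinearMap.id := by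
    refine Finsupp.lhom_ext' (fun σ => LinearMap.ext_ring ?_)
    simp only [LinearMap.comp_apply, Finsupp.lsingle_apply, LinearMap.id_apply]
    rw [avgL_single, map_smul, map_sum]
    have h1 : ∀ t : Fin (k + 1) → Fin R, smap ((avgH F).comp (slice 0 (M × ℝ))) k
        (Finsupp.single (σ.prodMk (comb (fun j => a * ((t j : ℕ) : ℝ)))) (1 : ℝ)) = Finsupp.single σ (1 : ℝ) := by
      intro t
      rw [smap_single]
      congr 1
      ext s
      show F (0 * comb (fun j => a * ((t j : ℕ) : ℝ)) s, σ s) = σ s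
      rw [zero_mul, hF0]
    simp only [h1]
    rw [Finset.sum_const, Finset.card_univ, ← Nat.cast_smul_eq_nsmul ℝ, smul_smul]
    simp [hR']
  exact LinearMap.congr_fun this c

/-- the translation of the base -/
def avgG {G : Type*} [Group G] [MulAction G M] [ContinuousConstSMul G M] (g : G) : C(M × ℝ, M × ℝ) :=
  ⟨fun z => (g • z.1, z.2), (continuous_fst.const_smul g).prodMk continuous_snd⟩

theorem avgL_tr {G : Type*} [Group G] [MulAction G M] [ContinuousConstSMul G M] (g : G) (a : ℝ) (R : ℕ) (k : ℕ)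
    (c : SC M k) : avgL a R k (tr g k c) = smap (avgG g) k (avgL a R k c) := by
  have : (avgL a R k).comp (tr g k) = (smap (avgG g) k).comp (avgL (M := M) a R k) := by
    refine Finsupp.lhom_ext' (fun σ => LinearMap.ext_ring ?_)
    simp only [LinearMap.comp_apply, Finsupp.lsingle_apply]
    rw [tr_single, avgL_single, avgL_single, map_smul, map_sum]
    congr 1
    refine Finset.sum_congr rfl (fun t _ => ?_)
    rw [smap_single]
    rfl
  exact LinearMap.congr_fun this c

end avg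

theorem ci_avg {M G : Type*} [TopologicalSpace M] [Group G] [MulAction G M] [ContinuousConstSMul G M]
    (F : C(ℝ × M, M)) (hF0 : ∀ x, F (0, x) = x) (hFg : ∀ (g : G) u x, F (u, g • x) = g • F (u, x))
    (a : ℝ) (R : ℕ) (hR : 0 < R) :
    ∃ (A : ∀ k, SC M k →ₗ[ℝ] SC M k) (T : ∀ k, SC M k →ₗ[ℝ] SC M (k + 1)),
      (∀ k c, bd k (A (k + 1) c) = A k (bd k c)) ∧
      (∀ k c, bd (k + 1) (T (k + 1) c) = A (k + 1) c - c - T k (bd k c)) ∧
      (∀ (g : G) k c, A k (tr g k c) = tr g k (A k c)) ∧ (∀ (g : G) k c, T k (tr g k c) = tr g (k + 1) (T k c)) ∧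
      ∀ k (σ : Sx M k), A k (Finsupp.single σ 1) = ((R : ℝ) ^ (k + 1))⁻¹ •
        ∑ t : Fin (k + 1) → Fin R, Finsupp.single (flo F (Cvx.comb (fun j => a * ((t j : ℕ) : ℝ))) σ) (1 : ℝ) := by
  refine ⟨fun k => (smap ((avgH F).comp (slice 1 (M × ℝ))) k).comp (avgL a R k),
    fun k => (homP (avgH F) k).comp (avgL a R k), ?_, ?_, ?_, ?_, ?_⟩
  · intro k c
    simp only [LinearMap.comp_apply]
    rw [bd_smap, bd_avgL a R hR]
  · intro k c
    simp only [LinearMap.comp_apply]
    rw [bd_homP, avg_zero F hF0 a R hR, bd_avgL a R hR]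
  · intro g k c
    simp only [LinearMap.comp_apply]
    rw [avgL_tr, smap_smap, tr, smap_smap]
    congr 1
    congr 1
    ext z
    exact hFg g (1 * z.2) z.1
  · intro g k c
    simp only [LinearMap.comp_apply]
    rw [avgL_tr, tr]
    exact homP_nat (avgH F) (avgH F) (avgG g) ⟨fun x => g • x, continuous_const_smul g⟩
      (fun u x => hFg g (u * x.2) x.1) k _
  · intro k σ
    simp only [LinearMap.comp_apply]
    exact avg_one F a R k σ

end SV
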