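import Pool.Agent.Helper43.NH.Defs

/-! Project NH, module CI1: slice function and invariant two point function of a flow one of whose time maps is
an element of a properly discontinuous cocompact group. -/

namespace SV

open Filter Topology MeasureTheory

namespace CTheta

section

variable {M G : Type*} [TopologicalSpace M] [Group G] [MulAction G M]

/-- the translates of a compactly supported function are locally finite -/
theorem lf [LocallyCompactSpace M] [ContinuousConstSMul G M] [ProperlyDiscontinuousSMul G M]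
    (ρ : M → ℝ) (hρ : HasCompactSupport ρ) :
    LocallyFinite fun g : G => {x : M | ρ (g • x) ≠ 0} := by
  intro x
  obtain ⟨U, hU, hxU⟩ := exists_compact_mem_nhds x
  refine ⟨U, hxU, ?_⟩
  refine (ProperlyDiscontinuousSMul.finite_disjoint_inter_image (Γ := G) hU hρ.isCompact).subset ?_
  rintro g ⟨y, hy1, hy2⟩
  exact ⟨g • y, ⟨y, hy2, rfl⟩, subset_tsupport _ hy1⟩

/-- weighted sum over the group -/
noncomputable def sm {X : Type*} (ρ : M → ℝ) (p : X → M) (c : G → X → ℝ) (x : X) : ℝ :=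
  ∑ᶠ g : G, ρ (g • p x) * c g x

theorem sm_cont [LocallyCompactSpace M] [ContinuousConstSMul G M] [ProperlyDiscontinuousSMul G M]
    {X : Type*} [TopologicalSpace X] (ρ : M → ℝ) (hρc : Continuous ρ) (hρ : HasCompactSupport ρ)
    (p : X → M) (hp : Continuous p) (c : G → X → ℝ) (hc : ∀ g, Continuous (c g)) : Continuous (sm ρ p c) := by
  refine continuous_finsum (fun g => (hρc.comp ((continuous_const_smul g).comp hp)).mul (hc g)) ?_
  refine ((lf (G := G) ρ hρ).preimage_continuous hp).subset ?_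
  intro g x hx
  simp only [Function.mem_support, ne_eq] at hx
  exact left_ne_zero_of_mul hx

theorem sm_pos [LocallyCompactSpace M] [ContinuousConstSMul G M] [ProperlyDiscontinuousSMul G M]
    {X : Type*} (ρ : M → ℝ) (hρ : HasCompactSupport ρ) (h0 : ∀ x, 0 ≤ ρ x)
    (hcov : ∀ x : M, ∃ g : G, 0 < ρ (g • x))
    (p : X → M) (c : G → X → ℝ) (hc : ∀ g x, 0 < c g x) (x : X) : 0 < sm ρ p c x := by
  obtain ⟨g, hg⟩ := hcov (p x)
  have h1 : Function.HasFiniteSupport fun g : G => ρ (g • p x) * c g x := by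
    refine ((lf (G := G) ρ hρ).point_finite (p x)).subset ?_
    intro g hx
    simp only [Function.mem_support, ne_eq] at hx
    exact left_ne_zero_of_mul hx
  have h2 := single_le_finsum g h1 fun j => mul_nonneg (h0 _) (hc j x).le
  exact lt_of_lt_of_le (mul_pos hg (hc g x)) h2

/-- a weight on the group with values scaled by right translations by an element of infinite order -/
theorem weight (ζ : G) (hζ : ∀ m : ℤ, m ≠ 0 → ζ ^ m ≠ 1) :
    ∃ w : G → ℝ, (∀ g, 0 < w g) ∧ ∀ g, w (g * ζ⁻¹) = Real.exp 1 * w g := by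
  classical
  have h1 : ∀ g : G, ∃ m : ℤ, ζ ^ m = ((g : G ⧸ Subgroup.zpowers ζ).out)⁻¹ * g := by
    intro g
    have : ((g : G ⧸ Subgroup.zpowers ζ).out)⁻¹ * g ∈ Subgroup.zpowers ζ := by
      rw [← QuotientGroup.eq]
      exact QuotientGroup.out_eq' _
    exact this
  choose m hm using h1
  refine ⟨fun g => Real.exp (-(m g : ℝ)), fun g => Real.exp_pos _, fun g => ?_⟩
  have h2 : ((g * ζ⁻¹ : G) : G ⧸ Subgroup.zpowers ζ) = (g : G ⧸ Subgroup.zpowers ζ) := by
    rw [QuotientGroup.eq]
    exact ⟨1, by simp⟩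
  have h3 : ζ ^ (m (g * ζ⁻¹)) = ζ ^ (m g - 1) := by
    rw [hm, h2, zpow_sub_one, hm, mul_assoc]
  have h4 : m (g * ζ⁻¹) = m g - 1 := by
    by_contra hne
    refine hζ (m (g * ζ⁻¹) - (m g - 1)) (sub_ne_zero.2 hne) ?_
    rw [zpow_sub, h3, mul_inv_cancel]
  simp only
  rw [h4, ← Real.exp_add]
  congr 1
  push_cast
  ring

end

section

variable {M : Type*} [TopologicalSpace M]

/-- average over a period of a flow -/
theorem avg {X : Type*} [TopologicalSpace X] (Φ : ℝ × X → ℝ) (hΦ : Continuous Φ) (hpos : ∀ p, 0 < Φ p) :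
    Continuous (fun x => ∫ t in (0 : ℝ)..1, Φ (t, x)) ∧ ∀ x, 0 < ∫ t in (0 : ℝ)..1, Φ (t, x) := by
  constructor
  · refine intervalIntegral.continuous_parametric_intervalIntegral_of_continuous' (f := fun x t => Φ (t, x)) ?_ 0 1
    exact hΦ.comp continuous_swap
  · intro x
    refine intervalIntegral.intervalIntegral_pos_of_pos ?_ (fun t => hpos _) one_pos
    exact (hΦ.comp (by fun_prop : Continuous fun t : ℝ => (t, x))).intervalIntegrable _ _

theorem per (f : ℝ → ℝ) (hf : Function.Periodic f 1) (s : ℝ) :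
    ∫ t in (0 : ℝ)..1, f (t + s) = ∫ t in (0 : ℝ)..1, f t := by
  rw [intervalIntegral.integral_comp_add_right, zero_add, add_comm 1 s, hf.intervalIntegral_add_eq s 0, zero_add]

end

section

variable {M G : Type*} [TopologicalSpace M] [LocallyCompactSpace M] [Group G] [MulAction G M]
    [ContinuousConstSMul G M] [ProperlyDiscontinuousSMul G M]

theorem exB (ρ : M → ℝ) (hρc : Continuous ρ) (hρ : HasCompactSupport ρ) (h0 : ∀ x, 0 ≤ ρ x)
    (hcov : ∀ x : M, ∃ g : G, 0 < ρ (g • x))
    (ζ : G) (hζ : ∀ m : ℤ, m ≠ 0 → ζ ^ m ≠ 1) (F : C(ℝ × M, M))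
    (hF1 : ∀ x, F (1, x) = ζ • x)
    (hFa : ∀ u v x, F (u + v, x) = F (u, F (v, x))) :
    ∃ B : M → ℝ, Continuous B ∧ (∀ x, 0 < B x) ∧ ∀ t x, B (F (t, x)) = Real.exp t * B x := by
  obtain ⟨w, hw, hwζ⟩ := weight ζ hζ
  have hΨc := sm_cont (G := G) ρ hρc hρ (id : M → M) continuous_id (fun g _ => w g) fun g => continuous_const
  have hΨp := sm_pos (G := G) ρ hρ h0 hcov (id : M → M) (fun g _ => w g) fun g _ => hw g
  set Ψ : M → ℝ := sm (G := G) ρ (id : M → M) (fun g _ => w g) with hΨ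
  have hΨζ : ∀ x, Ψ (ζ • x) = Real.exp 1 * Ψ x := by
    intro x
    rw [hΨ]
    simp only [sm, id]
    rw [mul_finsum, ← finsum_comp_equiv (Equiv.mulRight ζ⁻¹)]
    refine finsum_congr fun g => ?_
    simp only [Equiv.coe_mulRight]
    rw [hwζ, smul_smul, inv_mul_cancel_right]
    ring
  have hc : Continuous fun p : ℝ × M => Real.exp (-p.1) * Ψ (F p) :=
    (Real.continuous_exp.comp continuous_fst.neg).mul (hΨc.comp F.continuous)
  obtain ⟨h1, h2⟩ := avg (fun p : ℝ × M => Real.exp (-p.1) * Ψ (F p)) hc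
    fun p => mul_pos (Real.exp_pos _) (hΨp _)
  refine ⟨_, h1, h2, fun s x => ?_⟩
  have hper : Function.Periodic (fun t : ℝ => Real.exp (-t) * Ψ (F (t, x))) 1 := by
    intro t
    simp only
    rw [add_comm t 1, hFa, hF1, hΨζ, ← mul_assoc, ← Real.exp_add]
    congr 2
    ring
  rw [← per _ hper s, ← intervalIntegral.integral_const_mul]
  refine intervalIntegral.integral_congr fun t _ => ?_
  simp only
  rw [hFa, ← mul_assoc, ← Real.exp_add]
  congr 2
  ring

end

end CTheta

theorem ci_theta {M G : Type*} [TopologicalSpace M] [T2Space M] [LocallyCompactSpace M] [Group G] [MulAction G M]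
    [ContinuousConstSMul G M] [ProperlyDiscontinuousSMul G M]
    (K : Set M) (hK : IsCompact K) (hcov : ∀ x : M, ∃ g : G, ∃ y ∈ K, x = g • y)
    (ζ : G) (hζ : ∀ m : ℤ, m ≠ 0 → ζ ^ m ≠ 1) (F : C(ℝ × M, M)) (hF0 : ∀ x, F (0, x) = x)
    (hF1 : ∀ x, F (1, x) = ζ • x) (hFg : ∀ (g : G) u x, F (u, g • x) = g • F (u, x))
    (hFa : ∀ u v x, F (u + v, x) = F (u, F (v, x))) :
    (∃ θ : C(M, ℝ), ∀ t x, θ (F (t, x)) = θ x + t) ∧
      ∃ κ : C(M × M, ℝ), (∀ (g : G) x y, κ (g • x, g • y) = κ (x, y)) ∧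
        ∀ s t x y, κ (F (s, x), F (t, y)) = κ (x, y) + t - s := by
  obtain ⟨ρ, hρ1, -, hρ, hρI⟩ := exists_continuous_one_zero_of_isCompact hK isClosed_empty (Set.disjoint_empty K)
  have h0 : ∀ x, 0 ≤ ρ x := fun x => (hρI x).1
  have hcov' : ∀ x : M, ∃ g : G, 0 < ρ (g • x) := by
    intro x
    obtain ⟨g, y, hy, rfl⟩ := hcov x
    refine ⟨g⁻¹, ?_⟩
    rw [inv_smul_smul, hρ1 hy]
    exact one_pos
  obtain ⟨B, hBc, hBp, hB⟩ := CTheta.exB (G := G) ρ ρ.continuous hρ h0 hcov' ζ hζ F hF1 hFa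
  constructor
  · refine ⟨⟨fun x => Real.log (B x), hBc.log fun x => (hBp x).ne'⟩, fun t x => ?_⟩
    simp only [ContinuousMap.coe_mk]
    rw [hB, Real.log_mul (Real.exp_pos _).ne' (hBp x).ne', Real.log_exp, add_comm]
  · have hΦc := CTheta.sm_cont (G := G) ρ ρ.continuous hρ (Prod.fst : M × M → M) continuous_fst
      (fun g p => B (g • p.2)) fun g => hBc.comp ((continuous_const_smul g).comp continuous_snd)
    have hΦp := CTheta.sm_pos (G := G) ρ hρ h0 hcov' (Prod.fst : M × M → M) (fun g p => B (g • p.2))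
      fun g p => hBp _
    set Φ : M × M → ℝ := CTheta.sm (G := G) ρ (Prod.fst : M × M → M) (fun g p => B (g • p.2)) with hΦ
    have hΦg : ∀ (h : G) x y, Φ (h • x, h • y) = Φ (x, y) := by
      intro h x y
      rw [hΦ]
      simp only [CTheta.sm]
      rw [← finsum_comp_equiv (Equiv.mulRight h) (f := fun g : G => ρ (g • x) * B (g • y))]
      refine finsum_congr fun g => ?_
      simp only [Equiv.coe_mulRight, smul_smul]
    have hΦB : ∀ t x y, Φ (x, F (t, y)) = Real.exp t * Φ (x, y) := by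
      intro t x y
      rw [hΦ]
      simp only [CTheta.sm]
      rw [mul_finsum]
      refine finsum_congr fun g => ?_
      rw [← hFg, hB]
      ring
    have hc : Continuous fun p : ℝ × (M × M) => Φ (F (p.1, p.2.1), F (p.1, p.2.2)) :=
      hΦc.comp ((F.continuous.comp (by fun_prop)).prodMk (F.continuous.comp (by fun_prop)))
    obtain ⟨h1, h2⟩ := CTheta.avg _ hc fun p => hΦp _
    set k : M × M → ℝ := fun x => ∫ t in (0 : ℝ)..1, Φ (F (t, x.1), F (t, x.2)) with hk
    have hkg : ∀ (g : G) x y, k (g • x, g • y) = k (x, y) := by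
      intro g x y
      change (∫ t in (0 : ℝ)..1, Φ (F (t, g • x), F (t, g • y))) = ∫ t in (0 : ℝ)..1, Φ (F (t, x), F (t, y))
      refine intervalIntegral.integral_congr fun t _ => ?_
      rw [hFg, hFg, hΦg]
    have hkd : ∀ s x y, k (F (s, x), F (s, y)) = k (x, y) := by
      intro s x y
      have hper : Function.Periodic (fun t : ℝ => Φ (F (t, x), F (t, y))) 1 := by
        intro t
        simp only
        rw [add_comm t 1, hFa, hF1, hFa, hF1, hΦg]
      change (∫ t in (0 : ℝ)..1, Φ (F (t, F (s, x)), F (t, F (s, y)))) = ∫ t in (0 : ℝ)..1, Φ (F (t, x), F (t, y))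
      rw [← CTheta.per _ hper s]
      refine intervalIntegral.integral_congr fun t _ => ?_
      rw [hFa, hFa]
    have hkt : ∀ t x y, k (x, F (t, y)) = Real.exp t * k (x, y) := by
      intro t x y
      change (∫ u in (0 : ℝ)..1, Φ (F (u, x), F (u, F (t, y)))) =
        Real.exp t * ∫ u in (0 : ℝ)..1, Φ (F (u, x), F (u, y))
      rw [← intervalIntegral.integral_const_mul]
      refine intervalIntegral.integral_congr fun u _ => ?_
      rw [← hFa, add_comm, hFa, hΦB]
    refine ⟨⟨fun x => Real.log (k x), h1.log fun x => (h2 x).ne'⟩, fun g x y => ?_, fun s t x y => ?_⟩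
    · simp only [ContinuousMap.coe_mk]
      rw [hkg]
    · simp only [ContinuousMap.coe_mk]
      have h3 : F (t, y) = F (s, F (t - s, y)) := by
        rw [← hFa]
        congr 2
        ring
      rw [h3, hkd, hkt, Real.log_mul (Real.exp_pos _).ne' (h2 (x, y)).ne', Real.log_exp]
      ring

end SV
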