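import Pool.Agent.Helper43.NH.RecurB

/-! NH10: from an element acting through the central flows and the unipotent group to a central flow (helper83). -/

set_option autoImplicit false

namespace SV

open Filter Topology
open scoped commutatorElement

section

variable {n : ℕ} {M G A : Type*} [TopologicalSpace M] [T2Space M] [ConnectedSpace M] [Group G] [MulAction G M]
    [ContinuousConstSMul G M] [NormedRing A] [NormedAlgebra ℝ A] [CompleteSpace A] [FiniteDimensional ℝ A]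
    {T : A →ₐ[ℝ] (VV n →L[ℝ] VV n)} {eps : A →ₐ[ℝ] ℝ} {gg : G →* A} {dev : M → (Fin n → ℝ)} {K : Set M}
    {J : Submodule ℝ A} {C : Submodule ℝ A} {Θ : A → A → M → M}

/-- elements which act through `Θ` -/
def CentralIn (C J : Submodule ℝ A) (Θ : A → A → M → M) (g : G) : Prop :=
  ∃ Z ∈ C, ∃ j ∈ J, ∀ x, g • x = Θ Z j x

omit [T2Space M] [ConnectedSpace M] [ContinuousConstSMul G M] [CompleteSpace A] [FiniteDimensional ℝ A] in
theorem central_mul (D : NHD T eps gg dev K J) (P : NHT T eps gg dev J C Θ) {g h : G}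
    (hg : CentralIn C J Θ g) (hh : CentralIn C J Θ h) : CentralIn C J Θ (g * h) := by
  obtain ⟨Z, hZ, j, hj, h1⟩ := hg
  obtain ⟨Z', hZ', j', hj', h2⟩ := hh
  refine ⟨Z + Z', C.add_mem hZ hZ', j + j' + j * j', J.add_mem (J.add_mem hj hj') (D.hJ _ _ hj').1, fun x => ?_⟩
  rw [mul_smul, h2, h1, P.comp _ hZ _ hj _ hZ' _ hj']

omit [T2Space M] [ConnectedSpace M] [ContinuousConstSMul G M] [CompleteSpace A] [FiniteDimensional ℝ A] in
theorem central_inv (D : NHD T eps gg dev K J) (P : NHT T eps gg dev J C Θ) {g : G}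
    (hg : CentralIn C J Θ g) : CentralIn C J Θ g⁻¹ := by
  obtain ⟨Z, hZ, j, hj, h1⟩ := hg
  obtain ⟨j', hj', e1, e2⟩ := recur_inv D hj
  refine ⟨-Z, C.neg_mem hZ, j', hj', fun x => ?_⟩
  have h2 := recur_left_inv P hZ hj hj' e2 (g⁻¹ • x)
  rw [← h1, smul_inv_smul] at h2
  exact h2.symm

omit [T2Space M] [ConnectedSpace M] [ContinuousConstSMul G M] [CompleteSpace A] [FiniteDimensional ℝ A] in
theorem central_conj (D : NHD T eps gg dev K J) (P : NHT T eps gg dev J C Θ) {h : G} (g : G)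
    (hh : CentralIn C J Θ h) : CentralIn C J Θ (g * h * g⁻¹) := by
  obtain ⟨Z, hZ, j, hj, h1⟩ := hh
  refine ⟨Z, hZ, gg g * j * gg g⁻¹, recur_conj_mem D g hj, fun x => ?_⟩
  rw [mul_smul, mul_smul, h1, P.smul g Z hZ j hj, smul_inv_smul]

omit [T2Space M] [ContinuousConstSMul G M] [CompleteSpace A] [FiniteDimensional ℝ A] in
theorem central_inj (D : NHD T eps gg dev K J) {a b : A}
    (h : ∀ x, T a (dev x, 1) = T b (dev x, 1)) : a = b := by
  apply D.hT
  obtain ⟨x₀⟩ : Nonempty M := ConnectedSpace.toNonempty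
  have hopen : IsOpen (Set.range dev) := D.hdev.isOpenMap.isOpen_range
  obtain ⟨r, hr, hball⟩ := Metric.isOpen_iff.1 hopen (dev x₀) ⟨x₀, rfl⟩
  set L : VV n →L[ℝ] VV n := T a - T b with hL
  have h0 : ∀ p ∈ Set.range dev, L (p, 1) = 0 := by
    rintro _ ⟨x, rfl⟩
    change T a (dev x, 1) - T b (dev x, 1) = 0
    rw [h, sub_self]
  have h1 : ∀ v : Fin n → ℝ, L (v, 0) = 0 := by
    intro v
    obtain ⟨c, hc, hcv⟩ : ∃ c : ℝ, 0 < c ∧ ‖c • v‖ < r := by
      refine ⟨r / (2 * (‖v‖ + 1)), by positivity, ?_⟩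
      rw [norm_smul, Real.norm_of_nonneg (by positivity), div_mul_eq_mul_div, div_lt_iff₀ (by positivity)]
      nlinarith [norm_nonneg v]
    have h2 : dev x₀ + c • v ∈ Set.range dev := by
      apply hball
      rw [mem_ball_iff_norm, add_sub_cancel_left]
      exact hcv
    have h3 : L (dev x₀ + c • v, 1) = L (dev x₀, 1) + c • L (v, 0) := by
      rw [← map_smul, ← map_add]
      congr 1
      ext <;> simp
    rw [h0 _ h2, h0 _ ⟨x₀, rfl⟩, zero_add] at h3
    exact (smul_eq_zero.1 h3.symm).resolve_left hc.ne'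
  have h2 : L = 0 := by
    apply ContinuousLinearMap.ext
    rintro ⟨v, s⟩
    have h3 : L (v, s) = s • L (dev x₀, 1) + L (v - s • dev x₀, 0) := by
      rw [← map_smul, ← map_add]
      congr 1
      ext <;> simp
    rw [h3, h0 _ ⟨x₀, rfl⟩, h1]
    simp
  rw [hL, sub_eq_zero] at h2
  exact h2

omit [T2Space M] [ConnectedSpace M] [ContinuousConstSMul G M] [CompleteSpace A] [FiniteDimensional ℝ A] in
theorem central_tf (D : NHD T eps gg dev K J) {j : A} (hj : j ∈ J) {m : ℕ} (hm : 0 < m)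
    (h : (1 + j) ^ m = 1) : j = 0 := by
  have h1 : ∀ i : ℕ, (1 + j) ^ i - 1 ∈ J := by
    intro i
    induction i with
    | zero => simp
    | succ i ih =>
      have : (1 + j) ^ (i + 1) - 1 = ((1 + j) ^ i - 1) + (1 + j) ^ i * j := by
        rw [pow_succ, mul_add, mul_one]
        abel
      rw [this]
      exact J.add_mem ih (D.hJ _ _ hj).1
  have h2 : (∑ i ∈ Finset.range m, (1 + j) ^ i) - (m : ℝ) • (1 : A) ∈ J := by
    have : (∑ i ∈ Finset.range m, (1 + j) ^ i) - (m : ℝ) • (1 : A) =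
        ∑ i ∈ Finset.range m, ((1 + j) ^ i - 1) := by
      rw [Finset.sum_sub_distrib, Finset.sum_const, Finset.card_range, Nat.cast_smul_eq_nsmul]
    rw [this]
    exact J.sum_mem (fun i _ => h1 i)
  have hm' : (m : ℝ) ≠ 0 := by exact_mod_cast hm.ne'
  set S : A := ∑ i ∈ Finset.range m, (1 + j) ^ i with hS
  have h3 : IsUnit S := by
    have h4 : IsUnit (1 + (m : ℝ)⁻¹ • (S - (m : ℝ) • (1 : A))) :=
      ((D.hJn _).1 (J.smul_mem _ h2)).isUnit_one_add
    have h5 : S = algebraMap ℝ A m * (1 + (m : ℝ)⁻¹ • (S - (m : ℝ) • (1 : A))) := by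
      rw [← Algebra.smul_def, smul_add, smul_smul, mul_inv_cancel₀ hm', one_smul]
      abel
    rw [h5]
    exact ((IsUnit.mk0 (m : ℝ) hm').map (algebraMap ℝ A)).mul h4
  have h6 : j * S = 0 := by
    have h7 := mul_geom_sum (1 + j) m
    rw [h, sub_self, add_sub_cancel_left] at h7
    exact h7
  exact h3.mul_left_eq_zero.1 h6

omit [T2Space M] [ConnectedSpace M] [ContinuousConstSMul G M] [CompleteSpace A] [FiniteDimensional ℝ A] in
theorem central_comm (D : NHD T eps gg dev K J) (g h : G) : gg (h * g * h⁻¹ * g⁻¹) - 1 ∈ J := by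
  have h1 : gg (h * g * h⁻¹ * g⁻¹) - 1 = (gg h * gg g - gg g * gg h) * (gg h⁻¹ * gg g⁻¹) := by
    have e1 : gg g * gg h * (gg h⁻¹ * gg g⁻¹) = 1 := by
      rw [← map_mul, ← map_mul, ← map_mul]
      have : g * h * (h⁻¹ * g⁻¹) = 1 := by group
      rw [this, map_one]
    rw [sub_mul, e1, ← map_mul, ← map_mul, ← map_mul]
    congr 2
    group
  rw [h1]
  exact (D.hJ _ _ (D.hc _ _)).2

omit [T2Space M] [ConnectedSpace M] [ContinuousConstSMul G M] [CompleteSpace A] [FiniteDimensional ℝ A] in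
theorem central_lcs (D : NHD T eps gg dev K J) (P : NHT T eps gg dev J C Θ)
    (δ : G) (hδ : ∀ m : ℕ, 0 < m → gg δ ^ m ≠ 1) (hZ : CentralIn C J Θ δ) (k : ℕ) :
    (∃ ζ : G, (∀ m : ℕ, 0 < m → gg ζ ^ m ≠ 1) ∧ CentralIn C J Θ ζ ∧ ∀ g, gg ζ * gg g = gg g * gg ζ) ∨
      ∃ ζ : G, (∀ m : ℕ, 0 < m → gg ζ ^ m ≠ 1) ∧ CentralIn C J Θ ζ ∧
        gg.toHomUnits.rangeRestrict ζ ∈ (⊤ : Subgroup gg.toHomUnits.range).lowerCentralSeries k := by
  induction k with
  | zero => exact Or.inr ⟨δ, hδ, hZ, by simp⟩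
  | succ k ih =>
    rcases ih with ih | ⟨ζ, h1, h2, h3⟩
    · exact Or.inl ih
    by_cases hc : ∀ g, gg ζ * gg g = gg g * gg ζ
    · exact Or.inl ⟨ζ, h1, h2, hc⟩
    push Not at hc
    obtain ⟨g, hg⟩ := hc
    refine Or.inr ⟨ζ * g * ζ⁻¹ * g⁻¹, ?_, ?_, ?_⟩
    · intro m hm hcon
      have h4 := central_comm D g ζ
      have h5 := central_tf D h4 hm (by rw [add_sub_cancel]; exact hcon)
      apply hg
      have h6 : gg (ζ * g * ζ⁻¹ * g⁻¹) = 1 := sub_eq_zero.1 h5
      calc gg ζ * gg g = gg (ζ * g * ζ⁻¹ * g⁻¹ * (g * ζ)) := by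
            rw [← map_mul]
            congr 1
            group
        _ = gg g * gg ζ := by rw [map_mul, h6, one_mul, map_mul]
    · have : ζ * g * ζ⁻¹ * g⁻¹ = ζ * (g * ζ⁻¹ * g⁻¹) := by group
      rw [this]
      exact central_mul D P h2 (central_conj D P g (central_inv D P h2))
    · have : gg.toHomUnits.rangeRestrict (ζ * g * ζ⁻¹ * g⁻¹) =
          ⁅gg.toHomUnits.rangeRestrict ζ, gg.toHomUnits.rangeRestrict g⁆ := by
        rw [commutatorElement_def]
        simp only [map_mul, map_inv]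
      rw [this]
      exact Subgroup.commutator_mem_commutator h3 (Subgroup.mem_top _)

theorem central_log {j : A} (hjn : IsNilpotent j) (hj : ∀ b, j * b = b * j) :
    ∃ q : A, (∀ b, q * b = b * q) ∧ NormedSpace.exp (j * q) = 1 + j := by
  let B : Subalgebra ℝ A := Subalgebra.center ℝ A
  have hB : ∀ b : B, ∀ a : A, (b : A) * a = a * b := by
    intro b a
    exact ((Subalgebra.mem_center_iff.1 b.2) a).symm
  let iA : NormedCommRing B := { (inferInstance : NormedRing B) with mul_comm := fun a b => Subtype.ext (hB a b) }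
  let iB : NormedAlgebra ℝ B := (inferInstance : NormedAlgebra ℝ B)
  have iF : FiniteDimensional ℝ B := inferInstance
  have iC : CompleteSpace B := FiniteDimensional.complete ℝ B
  let s' : B := ⟨j, Subalgebra.mem_center_iff.2 (fun b => (hj b).symm)⟩
  have hs' : IsNilpotent s' := by
    obtain ⟨m, hm⟩ := hjn
    exact ⟨m, Subtype.ext hm⟩
  obtain ⟨q, hq⟩ := exists_log (A := B) (1 + s') (by
    intro t _
    rw [add_sub_cancel_left]
    exact (hs'.smul t).isUnit_one_add)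
  rw [add_sub_cancel_left] at hq
  refine ⟨q, hB q, ?_⟩
  have h1 := congrArg Subtype.val hq
  rw [nx_coe] at h1
  exact h1

/-! ### NH10 Central.lean -/

theorem nh_center (D : NHD T eps gg dev K J) {C : Submodule ℝ A} {Θ : A → A → M → M} (P : NHT T eps gg dev J C Θ)
    (hspan : Submodule.span ℝ (Set.range gg) = ⊤) [Group.IsNilpotent gg.toHomUnits.range]
    (δ : G) (N : ℕ) (hN : 0 < N) (hδ : ∀ m : ℕ, 0 < m → gg δ ^ m ≠ 1)
    (hZ : ∃ Z ∈ C, ∃ j ∈ J, ∀ x, δ ^ N • x = Θ Z j x) :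
    ∃ (ζ : G) (F : C(ℝ × M, M)) (Z : A), (∀ m : ℤ, m ≠ 0 → ζ ^ m ≠ 1) ∧ (∀ x, F (0, x) = x) ∧ (∀ x, F (1, x) = ζ • x) ∧
      (∀ (g : G) u x, F (u, g • x) = g • F (u, x)) ∧ (∀ u v x, F (u + v, x) = F (u, F (v, x))) ∧
      ∀ t x, ((dev (F (t, x)), (1 : ℝ)) : VV n) = T (NormedSpace.exp (t • Z)) (dev x, 1) := by
  have hδN : ∀ m : ℕ, 0 < m → gg (δ ^ N) ^ m ≠ 1 := by
    intro m hm
    rw [map_pow, ← pow_mul]
    exact hδ _ (Nat.mul_pos hN hm)
  obtain ⟨ζ, hζ, ⟨Z, hZC, j, hjJ, hζx⟩, hcomm⟩ : ∃ ζ : G, (∀ m : ℕ, 0 < m → gg ζ ^ m ≠ 1) ∧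
      CentralIn C J Θ ζ ∧ ∀ g, gg ζ * gg g = gg g * gg ζ := by
    obtain ⟨k, hk⟩ := (Subgroup.nilpotent_iff_lowerCentralSeries (G := gg.toHomUnits.range)).1 inferInstance
    rcases central_lcs D P (δ ^ N) hδN hZ k with h | ⟨ζ, h1, _, h3⟩
    · exact h
    · exfalso
      rw [hk, Subgroup.mem_bot] at h3
      apply h1 1 one_pos
      rw [pow_one]
      have h4 := congrArg Subtype.val h3
      have h5 := congrArg Units.val h4
      simpa using h5
  -- central
  have hcen : ∀ b, gg ζ * b = b * gg ζ := by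
    intro b
    have hb : b ∈ Submodule.span ℝ (Set.range gg) := by rw [hspan]; trivial
    induction hb using Submodule.span_induction with
    | mem x hx =>
      obtain ⟨g, rfl⟩ := hx
      exact hcomm g
    | zero => simp
    | add x y _ _ hx hy => rw [mul_add, add_mul, hx, hy]
    | smul c x _ hx => rw [mul_smul_comm, smul_mul_assoc, hx]
  have hZc : ∀ b, Z * b = b * Z := ((P.hC Z).1 hZC).1
  have hgz : gg ζ = NormedSpace.exp Z * (1 + j) := by
    apply central_inj D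
    intro x
    rw [D.hgd, hζx]
    exact P.dv Z hZC j hjJ x
  have hj1 : 1 + j = NormedSpace.exp (-Z) * gg ζ := by
    rw [hgz, ← mul_assoc, nx_neg_mul, one_mul]
  have hjc : ∀ b, j * b = b * j := by
    intro b
    have h1 : (1 + j) * b = b * (1 + j) := by
      rw [hj1, mul_assoc, hcen, ← mul_assoc, nx_comm (x := -Z) (y := b) (by rw [neg_mul, mul_neg, hZc]), mul_assoc]
    rw [add_mul, mul_add, one_mul, mul_one] at h1
    exact add_left_cancel h1
  obtain ⟨q, hqc, hq⟩ := central_log ((D.hJn j).1 hjJ) hjc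
  set Z' : A := j * q with hZ'
  have hZ'J : Z' ∈ J := by
    rw [hZ', ← hqc]
    exact (D.hJ _ _ hjJ).1
  have hZ'C : Z' ∈ C := by
    rw [P.hC]
    refine ⟨fun b => ?_, recur_eps_J D hZ'J⟩
    rw [hZ', mul_assoc, hqc, ← mul_assoc, hjc, mul_assoc]
  have hkey : ∀ x, Θ Z' 0 x = Θ 0 j x := by
    intro x
    obtain ⟨c1, z1, d1⟩ := recur_path D P hZ'C J.zero_mem x
    obtain ⟨c2, z2, d2⟩ := recur_path D P C.zero_mem hZ'J x
    have h1 := congrFun ((T2Space.isSeparatedMap dev).eq_of_comp_eq D.hdev.isLocallyInjective c1 c2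
      (funext fun t => by
        have e1 := d1 t
        have e2 := d2 t
        rw [add_zero] at e1
        rw [zero_add, ← e1] at e2
        exact (congrArg Prod.fst e2).symm) 0 (z1.trans z2.symm)) 1
    simp only [one_smul, smul_zero, NormedSpace.exp_zero, sub_self] at h1
    rw [h1, hq, add_sub_cancel_left]
  have hF : Continuous (fun p : ℝ × M => Θ (p.1 • (Z + Z')) 0 p.2) := by
    have h1 : Continuous (fun p : ℝ × M => ((⟨p.1 • (Z + Z'), C.smul_mem _ (C.add_mem hZC hZ'C)⟩ : C),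
        ((⟨0, J.zero_mem⟩ : J), p.2))) := by
      refine Continuous.prodMk ?_ (Continuous.prodMk continuous_const continuous_snd)
      exact Continuous.subtype_mk (continuous_fst.smul continuous_const) _
    exact P.cont.comp h1
  have hCt : ∀ t : ℝ, t • (Z + Z') ∈ C := fun t => C.smul_mem _ (C.add_mem hZC hZ'C)
  refine ⟨ζ, ⟨_, hF⟩, Z + Z', ?_, ?_, ?_, ?_, ?_, ?_⟩
  · intro m hm hcon
    have h1 : ζ ^ m.natAbs = 1 := by
      rcases Int.natAbs_eq m with h | h
      · rw [h, zpow_natCast] at hcon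
        exact hcon
      · rw [h, zpow_neg, zpow_natCast, inv_eq_one] at hcon
        exact hcon
    apply hζ m.natAbs (Int.natAbs_pos.2 hm)
    rw [← map_pow, h1, map_one]
  · intro x
    change Θ ((0 : ℝ) • (Z + Z')) 0 x = x
    rw [zero_smul, P.zero]
  · intro x
    change Θ ((1 : ℝ) • (Z + Z')) 0 x = ζ • x
    have h1 := P.comp Z hZC 0 J.zero_mem Z' hZ'C 0 J.zero_mem x
    have h2 := P.comp Z hZC 0 J.zero_mem 0 C.zero_mem j hjJ x
    rw [hkey] at h1
    rw [one_smul, hζx]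
    simp only [add_zero, mul_zero, zero_add, zero_mul] at h1 h2
    rw [← h1, h2]
  · intro g u x
    change Θ (u • (Z + Z')) 0 (g • x) = g • Θ (u • (Z + Z')) 0 x
    rw [P.smul g _ (hCt u) 0 J.zero_mem, mul_zero, zero_mul]
  · intro u v x
    change Θ ((u + v) • (Z + Z')) 0 x = Θ (u • (Z + Z')) 0 (Θ (v • (Z + Z')) 0 x)
    rw [P.comp _ (hCt u) 0 J.zero_mem _ (hCt v) 0 J.zero_mem, add_smul]
    simp
  · intro t x
    change ((dev (Θ (t • (Z + Z')) 0 x), (1 : ℝ)) : VV n) = _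
    rw [P.dv _ (hCt t) 0 J.zero_mem, add_zero, mul_one]

end

end SV
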