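import Pool.Agent.Helper43.NH.Defs

/-! CI6: the slice of a flow is locally euclidean. -/

namespace SV

open Filter Topology

section LocQ

variable {V : Type*} [NormedAddCommGroup V] [NormedSpace ℝ V] [CompleteSpace V]

theorem LocQ_deriv (Z : V →L[ℝ] V) (t : ℝ) :
    HasStrictDerivAt (fun u : ℝ => NormedSpace.exp (u • Z)) (NormedSpace.exp (t • Z) * Z) t :=
  hasStrictDerivAt_exp_smul_const Z t

theorem LocQ_deriv_apply (Z : V →L[ℝ] V) (w : V) (t : ℝ) :
    HasDerivAt (fun u : ℝ => NormedSpace.exp (u • Z) w) (NormedSpace.exp (t • Z) (Z w)) t := by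
  have h1 := (LocQ_deriv Z t).hasDerivAt
  have h2 := ((ContinuousLinearMap.apply ℝ V w).hasFDerivAt.comp_hasDerivAt t h1)
  exact h2

theorem LocQ_fixed (Z : V →L[ℝ] V) (w : V) (h : Z w = 0) (t : ℝ) :
    NormedSpace.exp (t • Z) w = w := by
  have h1 : ∀ s, HasDerivAt (fun u : ℝ => NormedSpace.exp (u • Z) w) 0 s := by
    intro s
    have := LocQ_deriv_apply Z w s
    rwa [h, map_zero] at this
  have h2 := is_const_of_deriv_eq_zero (fun s => (h1 s).differentiableAt)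
    (fun s => (h1 s).deriv) t 0
  rw [h2, zero_smul, NormedSpace.exp_zero]
  rfl

theorem LocQ_snd {U : Type*} [NormedAddCommGroup U] [NormedSpace ℝ U] [CompleteSpace U]
    (Z : (U × ℝ) →L[ℝ] (U × ℝ)) (w : U × ℝ) (h : ∀ t : ℝ, (NormedSpace.exp (t • Z) w).2 = 1) :
    (Z w).2 = 0 := by
  have h1 := LocQ_deriv_apply Z w 0
  rw [zero_smul, NormedSpace.exp_zero] at h1
  have h2 : HasDerivAt (fun u : ℝ => (NormedSpace.exp (u • Z) w).2) ((Z w).2) 0 :=
    ((ContinuousLinearMap.snd ℝ U ℝ).hasFDerivAt.comp_hasDerivAt (0 : ℝ) h1)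
  have h3 : (fun u : ℝ => (NormedSpace.exp (u • Z) w).2) = fun _ => 1 := funext h
  rw [h3] at h2
  exact h2.unique (hasDerivAt_const (0 : ℝ) (1 : ℝ))

/-- linear coordinates with a given first vector -/
theorem LocQ_coord {d : ℕ} (v : Fin (d + 1) → ℝ) (hv : v ≠ 0) :
    ∃ ℓ : (ℝ × (Fin d → ℝ)) ≃L[ℝ] (Fin (d + 1) → ℝ), ℓ (1, 0) = v := by
  obtain ⟨C, hC⟩ := Submodule.exists_isCompl (Submodule.span ℝ {v})
  have h1 : Module.finrank ℝ (Submodule.span ℝ {v}) = 1 := finrank_span_singleton hv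
  have h2 := Submodule.finrank_add_eq_of_isCompl hC
  rw [h1, Module.finrank_fin_fun] at h2
  have h3 : Module.finrank ℝ (Fin d → ℝ) = Module.finrank ℝ C := by
    rw [Module.finrank_fin_fun]; omega
  let e1 : (Fin d → ℝ) ≃ₗ[ℝ] C := LinearEquiv.ofFinrankEq _ _ h3
  let e0 := LinearEquiv.toSpanNonzeroSingleton ℝ (Fin (d + 1) → ℝ) v hv
  let ℓ := (e0.prodCongr e1).trans (Submodule.prodEquivOfIsCompl _ _ hC)
  refine ⟨ℓ.toContinuousLinearEquiv, ?_⟩
  show ((e0 1 : Fin (d + 1) → ℝ)) + ((e1 0 : C) : Fin (d + 1) → ℝ) = v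
  rw [map_zero]
  simp [e0]

variable {d : ℕ}

/-- the model of the flow box -/
noncomputable def LocQ_g (Z : VV (d + 1) →L[ℝ] VV (d + 1)) (p : Fin (d + 1) → ℝ)
    (ℓ : (ℝ × (Fin d → ℝ)) ≃L[ℝ] (Fin (d + 1) → ℝ)) (a : ℝ × (Fin d → ℝ)) : Fin (d + 1) → ℝ :=
  (NormedSpace.exp (a.1 • Z) (p + ℓ (0, a.2), (1 : ℝ))).1

theorem LocQ_g_deriv (Z : VV (d + 1) →L[ℝ] VV (d + 1)) (p : Fin (d + 1) → ℝ)
    (ℓ : (ℝ × (Fin d → ℝ)) ≃L[ℝ] (Fin (d + 1) → ℝ)) (hℓ : ℓ (1, 0) = (Z (p, 1)).1) :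
    HasStrictFDerivAt (LocQ_g Z p ℓ) (ℓ : (ℝ × (Fin d → ℝ)) →L[ℝ] (Fin (d + 1) → ℝ)) (0, 0) := by
  have h1 : HasStrictFDerivAt (fun a : ℝ × (Fin d → ℝ) => NormedSpace.exp (a.1 • Z))
      ((ContinuousLinearMap.toSpanSingleton ℝ (NormedSpace.exp ((0 : ℝ) • Z) * Z)).comp
        (ContinuousLinearMap.fst ℝ ℝ (Fin d → ℝ))) (0, 0) := by
    have h : HasStrictFDerivAt (fun u : ℝ => NormedSpace.exp (u • Z))
        (ContinuousLinearMap.toSpanSingleton ℝ (NormedSpace.exp ((0 : ℝ) • Z) * Z))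
        (((0 : ℝ), (0 : Fin d → ℝ)).1) := (LocQ_deriv Z 0).hasStrictFDerivAt
    exact h.comp ((0 : ℝ), (0 : Fin d → ℝ)) hasStrictFDerivAt_fst
  let in2 : (ℝ × (Fin d → ℝ)) →L[ℝ] (Fin (d + 1) → ℝ) :=
    (ℓ : (ℝ × (Fin d → ℝ)) →L[ℝ] (Fin (d + 1) → ℝ)).comp
      ((ContinuousLinearMap.inr ℝ ℝ (Fin d → ℝ)).comp (ContinuousLinearMap.snd ℝ ℝ (Fin d → ℝ)))
  have h2 : HasStrictFDerivAt (fun a : ℝ × (Fin d → ℝ) => ((p + ℓ (0, a.2), (1 : ℝ)) : VV (d + 1)))
      (in2.prod 0) (0, 0) := by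
    have h3 : HasStrictFDerivAt (fun a : ℝ × (Fin d → ℝ) => p + ℓ (0, a.2)) in2 (0, 0) :=
      in2.hasStrictFDerivAt.const_add p
    exact h3.prodMk (hasStrictFDerivAt_const _ _)
  have h4 := h1.clm_apply h2
  have h5 := (ContinuousLinearMap.fst ℝ (Fin (d + 1) → ℝ) ℝ).hasStrictFDerivAt.comp
    ((0 : ℝ), (0 : Fin d → ℝ)) h4
  refine h5.congr_fderiv ?_
  apply ContinuousLinearMap.ext
  rintro ⟨t, b⟩
  have h6 : ℓ (t, b) = t • ℓ (1, 0) + ℓ (0, b) := by
    rw [← map_smul, ← map_add]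
    congr 1
    simp
  show _ = ℓ (t, b)
  rw [h6, hℓ]
  simp [in2]
  have h7 : ℓ ((0 : ℝ), (0 : Fin d → ℝ)) = 0 := by
    rw [Prod.mk_zero_zero, map_zero]
  rw [h7, add_zero]
  exact add_comm _ _

end LocQ

theorem ci_locEuc {d : ℕ} {M : Type*} [TopologicalSpace M] [T2Space M]
    (dev : M → (Fin (d + 1) → ℝ)) (hdev : IsLocalHomeomorph dev) (F : C(ℝ × M, M)) (hF0 : ∀ x, F (0, x) = x)
    (hFa : ∀ u v x, F (u + v, x) = F (u, F (v, x)))
    (Z : VV (d + 1) →L[ℝ] VV (d + 1))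
    (hZ : ∀ t x, ((dev (F (t, x)), (1 : ℝ)) : VV (d + 1)) = NormedSpace.exp (t • Z) (dev x, 1))
    (θ : C(M, ℝ)) (hθ : ∀ t x, θ (F (t, x)) = θ x + t) : LocEuc d {x : M // θ x = 0} := by
  classical
  rintro ⟨x0, hx0⟩
  -- the velocity is not zero
  have hv2 : (Z (dev x0, 1)).2 = 0 := by
    refine LocQ_snd Z _ fun t => ?_
    rw [← hZ t x0]
  have hv : (Z (dev x0, 1)).1 ≠ 0 := by
    intro h0
    have h1 : Z (dev x0, 1) = 0 := Prod.ext h0 hv2
    have h2 : ∀ t : ℝ, dev (F (t, x0)) = dev x0 := by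
      intro t
      have h3 := hZ t x0
      rw [LocQ_fixed Z _ h1 t] at h3
      exact congrArg Prod.fst h3
    have h4 := lift_uniq hdev (B := ℝ) (fun t => F (t, x0)) (fun _ => x0)
      (F.continuous.comp (Continuous.prodMk_left x0)) continuous_const h2 0 (hF0 x0)
    have h5 := hθ 1 x0
    have h6 : F (1, x0) = x0 := congrFun h4 1
    rw [h6] at h5
    linarith
  obtain ⟨ℓ, hℓ⟩ := LocQ_coord _ hv
  have hgd := LocQ_g_deriv Z (dev x0) ℓ hℓ
  set g := LocQ_g Z (dev x0) ℓ with hg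
  obtain ⟨e, hex, hee⟩ := hdev x0
  let G := hgd.toOpenPartialHomeomorph g
  have hGg : ∀ a, G a = g a := fun a => rfl
  let ψ : (Fin d → ℝ) → M := fun b => e.symm (dev x0 + ℓ (0, b))
  let Φ : ℝ × (Fin d → ℝ) → M := fun a => F (a.1, ψ a.2)
  have hde : ∀ x, dev x = e x := fun x => by rw [hee]
  have hℓ0 : ℓ ((0 : ℝ), (0 : Fin d → ℝ)) = 0 := by rw [Prod.mk_zero_zero, map_zero]
  have hψ0 : ψ 0 = x0 := by
    show e.symm (dev x0 + ℓ (0, 0)) = x0
    rw [hℓ0, add_zero, hde, e.left_inv hex]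
  have hlin : Continuous fun b : Fin d → ℝ => dev x0 + ℓ (0, b) := by fun_prop
  -- the set where the section is defined
  let D0 : Set (Fin d → ℝ) := {b | dev x0 + ℓ (0, b) ∈ e.target}
  have hD0 : IsOpen D0 := e.open_target.preimage hlin
  have h0D0 : (0 : Fin d → ℝ) ∈ D0 := by
    show dev x0 + ℓ (0, 0) ∈ e.target
    rw [hℓ0, add_zero, hde]
    exact e.map_source hex
  have hψc : ContinuousOn ψ D0 := e.continuousOn_symm.comp hlin.continuousOn fun b hb => hb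
  have hdψ : ∀ b ∈ D0, dev (ψ b) = dev x0 + ℓ (0, b) := by
    intro b hb
    rw [hde]
    exact e.right_inv hb
  have hdΦ : ∀ a : ℝ × (Fin d → ℝ), a.2 ∈ D0 → dev (Φ a) = g a := by
    intro a ha
    have h1 := congrArg Prod.fst (hZ a.1 (ψ a.2))
    simp only at h1
    rw [hdψ _ ha] at h1
    exact h1
  have hΦc : ContinuousOn Φ {a | a.2 ∈ D0} := by
    refine F.continuous.comp_continuousOn ?_
    exact continuousOn_fst.prodMk (hψc.comp continuousOn_snd fun a ha => ha)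
  have hΦ0 : Φ (0, 0) = x0 := by
    show F (0, ψ 0) = x0
    rw [hF0, hψ0]
  -- a neighbourhood on which everything is defined
  let N : Set (ℝ × (Fin d → ℝ)) := {a | a.2 ∈ D0} ∩ Φ ⁻¹' e.source
  have hN : IsOpen N := hΦc.isOpen_inter_preimage (hD0.preimage continuous_snd) e.open_source
  have hNG : IsOpen (N ∩ G.source) := hN.inter G.open_source
  have h0N : ((0 : ℝ), (0 : Fin d → ℝ)) ∈ N ∩ G.source :=
    ⟨⟨h0D0, by show Φ (0, 0) ∈ e.source; rw [hΦ0]; exact hex⟩,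
      hgd.mem_toOpenPartialHomeomorph_source⟩
  have hΦN : ∀ a ∈ N, Φ a = e.symm (g a) := by
    intro a ha
    rw [← hdΦ a ha.1, hde]
    exact (e.left_inv ha.2).symm
  have hgN : ∀ a ∈ N, g a ∈ e.target := by
    intro a ha
    rw [← hdΦ a ha.1, hde]
    exact e.map_source ha.2
  have hinj : ∀ a ∈ N ∩ G.source, ∀ a' ∈ N ∩ G.source, Φ a = Φ a' → a = a' := by
    intro a ha a' ha' h
    have h1 : g a = g a' := by rw [← hdΦ a ha.1.1, ← hdΦ a' ha'.1.1, h]
    exact G.injOn ha.2 ha'.2 h1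
  have hopen : ∀ W ⊆ N ∩ G.source, IsOpen W → IsOpen (Φ '' W) := by
    intro W hW hWo
    have h1 : IsOpen (G '' W) := G.isOpen_image_of_subset_source hWo (fun a ha => (hW ha).2)
    have h2 : Φ '' W = e.symm '' (G '' W) := by
      rw [Set.image_image]
      exact Set.image_congr fun a ha => hΦN a (hW ha).1
    rw [h2]
    refine e.symm.isOpen_image_of_subset_source h1 ?_
    rintro _ ⟨a, ha, rfl⟩
    exact hgN a (hW ha).1
  -- a box
  obtain ⟨ε, hε, hbox⟩ := Metric.isOpen_iff.mp hNG _ h0N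
  have hbox' : ∀ t : ℝ, ∀ b : Fin d → ℝ, |t| < ε → ‖b‖ < ε → (t, b) ∈ N ∩ G.source := by
    intro t b ht hb
    apply hbox
    rw [mem_ball_iff_norm, Prod.mk_zero_zero, sub_zero, Prod.norm_def]
    exact max_lt ht hb
  -- the domain of the chart
  let D1 : Set (Fin d → ℝ) := D0 ∩ (fun b => θ (ψ b)) ⁻¹' (Metric.ball 0 (ε / 2))
  have hD1 : IsOpen D1 := (θ.continuous.comp_continuousOn hψc).isOpen_inter_preimage hD0
    Metric.isOpen_ball
  let O : Set (Fin d → ℝ) := D1 ∩ Metric.ball 0 ε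
  have hO : IsOpen O := hD1.inter Metric.isOpen_ball
  have h0O : (0 : Fin d → ℝ) ∈ O := by
    refine ⟨⟨h0D0, ?_⟩, Metric.mem_ball_self hε⟩
    show θ (ψ 0) ∈ Metric.ball (0 : ℝ) (ε / 2)
    rw [hψ0, hx0]
    exact Metric.mem_ball_self (half_pos hε)
  -- the retraction
  have hr0 : ∀ x, θ (F (-θ x, x)) = 0 := fun x => by rw [hθ]; ring
  let r : M → {x : M // θ x = 0} := fun x => ⟨F (-θ x, x), hr0 x⟩
  have hrc : Continuous r := by
    refine Continuous.subtype_mk ?_ _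
    exact F.continuous.comp ((θ.continuous.neg).prodMk continuous_id)
  have hrF : ∀ t x, r (F (t, x)) = r x := by
    intro t x
    apply Subtype.ext
    show F (-θ (F (t, x)), F (t, x)) = F (-θ x, x)
    rw [← hFa, hθ]
    congr 2
    ring
  have hrq : ∀ q : {x : M // θ x = 0}, r q.1 = q := by
    intro q
    apply Subtype.ext
    show F (-θ q.1, q.1) = q.1
    rw [q.2, neg_zero, hF0]
  have hFr : ∀ x, F (θ x, (r x).1) = x := by
    intro x
    show F (θ x, F (-θ x, x)) = x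
    rw [← hFa, add_neg_cancel, hF0]
  have hro : IsOpenMap r := by
    intro U hU
    have h1 : r '' U = ⋃ t : ℝ, {q : {x : M // θ x = 0} | F (t, q.1) ∈ U} := by
      ext q
      rw [Set.mem_iUnion]
      constructor
      · rintro ⟨x, hx, rfl⟩
        exact ⟨θ x, by show F (θ x, (r x).1) ∈ U; rw [hFr]; exact hx⟩
      · rintro ⟨t, ht⟩
        exact ⟨_, ht, by rw [hrF, hrq]⟩
    rw [h1]
    refine isOpen_iUnion fun t => hU.preimage ?_
    exact F.continuous.comp (continuous_const.prodMk continuous_subtype_val)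
  -- the chart
  let j : C(O, {x : M // θ x = 0}) := ⟨fun b => r (ψ b.1), by
    refine hrc.comp ?_
    exact continuousOn_iff_continuous_domRestrict.mp (hψc.mono fun b hb => hb.1.1)⟩
  refine ⟨O, j, hO, ?_, ⟨⟨0, h0O⟩, ?_⟩⟩
  · refine IsOpenEmbedding.of_continuous_injective_isOpenMap j.continuous ?_ ?_
    · rintro ⟨b, hb⟩ ⟨b', hb'⟩ h
      have h1 : r (ψ b) = r (ψ b') := h
      have h2 : ψ b' = F (θ (ψ b') - θ (ψ b), ψ b) := by
        have h3 := hFr (ψ b')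
        rw [← h1] at h3
        have h3' : F (θ (ψ b'), F (-θ (ψ b), ψ b)) = ψ b' := h3
        rw [← hFa, ← sub_eq_add_neg] at h3'
        exact h3'.symm
      have hb2 : |θ (ψ b)| < ε / 2 := by
        have := hb.1.2
        simpa [Metric.mem_ball, dist_zero_right] using this
      have hb2' : |θ (ψ b')| < ε / 2 := by
        have := hb'.1.2
        simpa [Metric.mem_ball, dist_zero_right] using this
      have hn : ‖b‖ < ε := by simpa using hb.2
      have hn' : ‖b'‖ < ε := by simpa using hb'.2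
      have ht : |θ (ψ b') - θ (ψ b)| < ε := by
        rw [abs_lt] at *
        constructor <;> linarith [hb2.1, hb2.2, hb2'.1, hb2'.2]
      have h4 : Φ (0, b') = Φ (θ (ψ b') - θ (ψ b), b) := by
        show F (0, ψ b') = F (θ (ψ b') - θ (ψ b), ψ b)
        rw [hF0]
        exact h2
      have h5 := hinj _ (hbox' 0 b' (by rw [abs_zero]; exact hε) hn') _ (hbox' _ b ht hn) h4
      apply Subtype.ext
      exact (congrArg Prod.snd h5).symm
    · intro V hV
      obtain ⟨V', hV', rfl⟩ := isOpen_induced_iff.mp hV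
      have h1 : j '' (Subtype.val ⁻¹' V') = r '' (Φ '' (Metric.ball (0 : ℝ) ε ×ˢ (V' ∩ O))) := by
        ext q
        constructor
        · rintro ⟨b, hb, rfl⟩
          refine ⟨ψ b.1, ⟨(0, b.1), ⟨Metric.mem_ball_self hε, hb, b.2⟩, ?_⟩, rfl⟩
          show F (0, ψ b.1) = ψ b.1
          exact hF0 _
        · rintro ⟨_, ⟨⟨t, b⟩, ⟨-, hb, hbO⟩, rfl⟩, rfl⟩
          refine ⟨⟨b, hbO⟩, hb, ?_⟩
          show r (ψ b) = r (F (t, ψ b))
          rw [hrF]
      rw [h1]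
      apply hro
      apply hopen
      · rintro ⟨t, b⟩ ⟨ht, -, hb⟩
        refine hbox' t b ?_ ?_
        · simpa using ht
        · simpa using hb.2
      · exact Metric.isOpen_ball.prod (hV'.inter hO)
  · apply Subtype.ext
    show F (-θ (ψ 0), ψ 0) = x0
    rw [hψ0, hx0, neg_zero, hF0]

end SV
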