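import Pool.Agent.Helper43.NH.Defs

/-! Project NH, module CI8b: canonical straightening along the flow. -/

namespace SV

open Filter Topology

section str

variable {M : Type*} [TopologicalSpace M]

/-- the average of the two-point function against the vertices -/
noncomputable def str_f (κ : C(M × M, ℝ)) {k : ℕ} (σ : Sx M k) : C(Dl k, ℝ) where
  toFun s := ∑ j, s j * κ (σ (vtx j), σ s)
  continuous_toFun := by
    refine continuous_finsetSum _ (fun j _ => ?_)
    refine Continuous.mul ((continuous_apply j).comp continuous_subtype_val) ?_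
    exact κ.continuous.comp (continuous_const.prodMk σ.continuous)

theorem str_f_apply (κ : C(M × M, ℝ)) {k : ℕ} (σ : Sx M k) (s : Dl k) :
    str_f κ σ s = ∑ j, s j * κ (σ (vtx j), σ s) := rfl

theorem str_dface_same (k : ℕ) (i : Fin (k + 2)) (t : Dl k) : (dface k i t) i = 0 := by
  rw [dface_eq, combD_apply]
  refine Finset.sum_eq_zero (fun j _ => ?_)
  rw [vtx_apply, if_neg (Fin.succAbove_ne i j).symm, mul_zero]

theorem str_dface_succAbove (k : ℕ) (i : Fin (k + 2)) (t : Dl k) (l : Fin (k + 1)) :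
    (dface k i t) (i.succAbove l) = t l := by
  rw [dface_eq, combD_apply, Finset.sum_eq_single l]
  · rw [vtx_apply, if_pos rfl, mul_one]
  · intro j _ hj
    rw [vtx_apply, if_neg (fun h => hj (Fin.succAbove_right_injective h).symm), mul_zero]
  · simp

theorem str_f_face (κ : C(M × M, ℝ)) {k : ℕ} (σ : Sx M (k + 1)) (i : Fin (k + 2)) (t : Dl k) :
    str_f κ (sface M k i σ) t = str_f κ σ (dface k i t) := by
  rw [str_f_apply, str_f_apply, Fin.sum_univ_succAbove _ i, str_dface_same, zero_mul, zero_add]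
  refine Finset.sum_congr rfl (fun l _ => ?_)
  rw [str_dface_succAbove]
  show t l * κ (σ (dface k i (vtx l)), σ (dface k i t)) = _
  rw [dface_vtx]

/-- the homotopy along the flow -/
noncomputable def str_H (F : C(ℝ × M, M)) (κ : C(M × M, ℝ)) (k : ℕ) (σ : Sx M k) : C(ℝ × Dl k, M) where
  toFun z := F (-z.1 * str_f κ σ z.2, σ z.2)
  continuous_toFun := by
    refine F.continuous.comp (Continuous.prodMk ?_ (σ.continuous.comp continuous_snd))
    exact (continuous_fst.neg).mul ((str_f κ σ).continuous.comp continuous_snd)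

theorem str_H_apply (F : C(ℝ × M, M)) (κ : C(M × M, ℝ)) (k : ℕ) (σ : Sx M k) (u : ℝ) (s : Dl k) :
    str_H F κ k σ (u, s) = F (-u * str_f κ σ s, σ s) := rfl

theorem str_nat (F : C(ℝ × M, M)) (κ : C(M × M, ℝ)) : HNat (str_H F κ) := by
  intro k σ i u t
  rw [str_H_apply, str_H_apply, str_f_face]
  rfl

theorem str_enOp_single {X Y : Type*} [TopologicalSpace X] [TopologicalSpace Y] (H : ∀ k, Sx X k → C(ℝ × Dl k, Y))
    (u : ℝ) (k : ℕ) (σ : Sx X k) :
    enOp u H k (Finsupp.single σ 1) = Finsupp.single ((H k σ).comp (slice u (Dl k))) (1 : ℝ) := by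
  rw [enOp, ext_single, one_smul]

theorem str_bd_enOp {X Y : Type*} [TopologicalSpace X] [TopologicalSpace Y] (H : ∀ k, Sx X k → C(ℝ × Dl k, Y))
    (hH : HNat H) (u : ℝ) (k : ℕ) (c : SC X (k + 1)) : bd k (enOp u H (k + 1) c) = enOp u H k (bd k c) := by
  have : (bd k).comp (enOp u H (k + 1)) = (enOp u H k).comp (bd k) := by
    refine Finsupp.lhom_ext' (fun σ => LinearMap.ext_ring ?_)
    simp only [LinearMap.comp_apply, Finsupp.lsingle_apply]
    rw [str_enOp_single, bd_single, bd_single, one_smul, one_smul, map_sum]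
    refine Finset.sum_congr rfl (fun i _ => ?_)
    rw [map_smul, str_enOp_single]
    congr 2
    ext t
    exact (hH k σ i u t).symm
  exact LinearMap.congr_fun this c

variable {G : Type*} [Group G] [MulAction G M] [ContinuousConstSMul G M]

theorem str_f_smul (κ : C(M × M, ℝ)) (hκg : ∀ (g : G) x y, κ (g • x, g • y) = κ (x, y)) (g : G) {k : ℕ} (σ : Sx M k)
    (s : Dl k) : str_f κ (g • σ) s = str_f κ σ s := by
  rw [str_f_apply, str_f_apply]
  refine Finset.sum_congr rfl (fun j _ => ?_)
  show s j * κ (g • σ (vtx j), g • σ s) = _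
  rw [hκg]

theorem str_H_smul (F : C(ℝ × M, M)) (hFg : ∀ (g : G) u x, F (u, g • x) = g • F (u, x)) (κ : C(M × M, ℝ))
    (hκg : ∀ (g : G) x y, κ (g • x, g • y) = κ (x, y)) (g : G) {k : ℕ} (σ : Sx M k) (z : ℝ × Dl k) :
    str_H F κ k (g • σ) z = g • str_H F κ k σ z := by
  rw [str_H_apply F κ k (g • σ) z.1 z.2, str_f_smul κ hκg]
  exact hFg g _ (σ z.2)

theorem ci_str {M G : Type*} [TopologicalSpace M] [Group G] [MulAction G M] [ContinuousConstSMul G M]
    (F : C(ℝ × M, M)) (hF0 : ∀ x, F (0, x) = x) (hFg : ∀ (g : G) u x, F (u, g • x) = g • F (u, x))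
    (hFa : ∀ u v x, F (u + v, x) = F (u, F (v, x)))
    (κ : C(M × M, ℝ)) (hκg : ∀ (g : G) x y, κ (g • x, g • y) = κ (x, y))
    (hκF : ∀ s t x y, κ (F (s, x), F (t, y)) = κ (x, y) + t - s) :
    ∃ (S : ∀ k, SC M k →ₗ[ℝ] SC M k) (T : ∀ k, SC M k →ₗ[ℝ] SC M (k + 1)),
      (∀ k c, bd k (S (k + 1) c) = S k (bd k c)) ∧
      (∀ k c, bd (k + 1) (T (k + 1) c) = S (k + 1) c - c - T k (bd k c)) ∧
      (∀ (g : G) k c, S k (tr g k c) = tr g k (S k c)) ∧ (∀ (g : G) k c, T k (tr g k c) = tr g (k + 1) (T k c)) ∧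
      ∀ k (σ : Sx M k), ∃ ς : Sx M k, ∀ f : C(Dl k, ℝ),
        S k (Finsupp.single (flo F f σ) 1) = Finsupp.single (flo F (Cvx.comb (fun j => f (vtx j))) ς) (1 : ℝ) := by
  have hnat := str_nat F κ
  refine ⟨enOp 1 (str_H F κ), prOp (str_H F κ), fun k c => str_bd_enOp _ hnat 1 k c, fun k c => ?_, fun g k c => ?_,
    fun g k c => ?_, fun k σ => ⟨flo F (-str_f κ σ) σ, fun f => ?_⟩⟩
  · have h0 : enOp 0 (str_H F κ) (k + 1) = LinearMap.id := by
      refine Finsupp.lhom_ext' (fun σ => LinearMap.ext_ring ?_)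
      simp only [LinearMap.comp_apply, Finsupp.lsingle_apply, LinearMap.id_apply]
      rw [str_enOp_single]
      congr 1
      ext t
      show F (-0 * str_f κ σ t, σ t) = σ t
      rw [neg_zero, zero_mul, hF0]
    rw [bd_prOp _ hnat, h0]
    rfl
  · have : (enOp 1 (str_H F κ) k).comp (tr g k) = (tr g k).comp (enOp 1 (str_H F κ) k) := by
      refine Finsupp.lhom_ext' (fun σ => LinearMap.ext_ring ?_)
      simp only [LinearMap.comp_apply, Finsupp.lsingle_apply]
      rw [tr_single, str_enOp_single, str_enOp_single, tr_single]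
      congr 1
      ext t
      exact str_H_smul F hFg κ hκg g σ _
    exact LinearMap.congr_fun this c
  · have : (prOp (str_H F κ) k).comp (tr g k) = (tr g (k + 1)).comp (prOp (str_H F κ) k) := by
      refine Finsupp.lhom_ext' (fun σ => LinearMap.ext_ring ?_)
      simp only [LinearMap.comp_apply, Finsupp.lsingle_apply]
      rw [tr_single, prOp, ext_single, ext_single, one_smul, one_smul, tr, smap_smap]
      congr 1
      congr 1
      ext z
      exact str_H_smul F hFg κ hκg g σ z
    exact LinearMap.congr_fun this c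
  · rw [str_enOp_single]
    congr 1
    ext t
    show F (-1 * str_f κ (flo F f σ) t, F (f t, σ t)) =
      F (∑ i, t i • f (vtx i), F (-(str_f κ σ t), σ t))
    rw [← hFa, ← hFa]
    congr 2
    have h1 : str_f κ (flo F f σ) t = str_f κ σ t + f t - ∑ i, t i • f (vtx i) := by
      rw [str_f_apply, str_f_apply]
      have h2 : ∀ j, t j * κ ((flo F f σ) (vtx j), (flo F f σ) t) =
          t j * κ (σ (vtx j), σ t) + t j * f t - t j • f (vtx j) := by
        intro j
        show t j * κ (F (f (vtx j), σ (vtx j)), F (f t, σ t)) = _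
        rw [hκF, smul_eq_mul]
        ring
      simp only [h2]
      rw [Finset.sum_sub_distrib, Finset.sum_add_distrib, ← Finset.sum_mul, stdSimplex.sum_eq_one, one_mul]
    rw [h1]
    ring

end str

end SV
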