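import Pool.Agent.Helper43.NH.Avg
import Pool.Agent.Helper43.NH.Str

/-! Project NH, module CI8: the norm of the flow part becomes small. -/

namespace SV

open Filter Topology

section small

variable {M G : Type*} [TopologicalSpace M] [Group G] [MulAction G M] [ContinuousConstSMul G M]

/-- an equivariant chain operator homotopic to the identity -/
def small_Op (G : Type*) {M : Type*} [TopologicalSpace M] [Group G] [MulAction G M] [ContinuousConstSMul G M]
    (B : ∀ k, SC M k →ₗ[ℝ] SC M k) : Prop :=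
  (∀ k c, bd k (B (k + 1) c) = B k (bd k c)) ∧
  (∀ (g : G) k c, B k (tr g k c) = tr g k (B k c)) ∧
  ∃ T : ∀ k, SC M k →ₗ[ℝ] SC M (k + 1),
    (∀ k c, bd (k + 1) (T (k + 1) c) = B (k + 1) c - c - T k (bd k c)) ∧
    (∀ (g : G) k c, T k (tr g k c) = tr g (k + 1) (T k c))

theorem small_Op.comp {B B' : ∀ k, SC M k →ₗ[ℝ] SC M k} (h : small_Op G B) (h' : small_Op G B') :
    small_Op G (fun k => (B' k).comp (B k)) := by
  obtain ⟨h1, h2, T, h3, h4⟩ := h
  obtain ⟨h1', h2', T', h3', h4'⟩ := h'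
  refine ⟨fun k c => ?_, fun g k c => ?_, fun k => (T' k).comp (B k) + T k, fun k c => ?_, fun g k c => ?_⟩
  · simp only [LinearMap.comp_apply]
    rw [h1', h1]
  · simp only [LinearMap.comp_apply]
    rw [h2, h2']
  · simp only [LinearMap.comp_apply, LinearMap.add_apply, map_add]
    rw [h3', h3, h1]
    abel
  · simp only [LinearMap.comp_apply, LinearMap.add_apply, map_add]
    rw [h2, h4', h4]

theorem small_nrm_le {A B : Type*} (f : (A →₀ ℝ) →ₗ[ℝ] (B →₀ ℝ)) (h : ∀ a, nrm (f (Finsupp.single a 1)) ≤ 1)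
    (c : A →₀ ℝ) : nrm (f c) ≤ nrm c := by
  conv_lhs => rw [fsum c]
  rw [map_sum]
  refine (nrm_sum _ _).trans ?_
  refine Finset.sum_le_sum (fun a _ => ?_)
  rw [map_smul, nrm_smul]
  nlinarith [h a, abs_nonneg (c a)]

theorem small_comb_add {k : ℕ} (u v : Fin (k + 1) → ℝ) :
    (Cvx.comb (fun j => u j + v j) : C(Dl k, ℝ)) = Cvx.comb u + Cvx.comb v := by
  ext t
  show ∑ i, t i • (u i + v i) = ∑ i, t i • u i + ∑ i, t i • v i
  simp only [smul_add, Finset.sum_add_distrib]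

theorem small_flo_flo (F : C(ℝ × M, M)) (hFa : ∀ u v x, F (u + v, x) = F (u, F (v, x))) {k : ℕ}
    (f g : C(Dl k, ℝ)) (σ : Sx M k) : flo F g (flo F f σ) = flo F (f + g) σ := by
  ext t
  show F (g t, F (f t, σ t)) = F (f t + g t, σ t)
  rw [← hFa, add_comm]

/-- the simplex with vertex times u -/
noncomputable def small_X (F : C(ℝ × M, M)) {k : ℕ} (ς : Sx M k) (u : Fin (k + 1) → ℝ) : SC M k :=
  Finsupp.single (flo F (Cvx.comb u) ς) (1 : ℝ)

theorem small_nrm_X (F : C(ℝ × M, M)) {k : ℕ} (ς : Sx M k) (u : Fin (k + 1) → ℝ) : nrm (small_X F ς u) = 1 := by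
  rw [small_X, nrm_single, abs_one]

/-- the averaging formula -/
def small_Av (F : C(ℝ × M, M)) (R : ℕ) (a : ℝ) (A : ∀ k, SC M k →ₗ[ℝ] SC M k) : Prop :=
  ∀ k (σ : Sx M k), A k (Finsupp.single σ 1) = ((R : ℝ) ^ (k + 1))⁻¹ •
        ∑ t : Fin (k + 1) → Fin R, Finsupp.single (flo F (Cvx.comb (fun j => a * ((t j : ℕ) : ℝ))) σ) (1 : ℝ)

variable {F : C(ℝ × M, M)} {R : ℕ} {a : ℝ} {A : ∀ k, SC M k →ₗ[ℝ] SC M k}

theorem small_Av.X (h : small_Av F R a A) (hFa : ∀ u v x, F (u + v, x) = F (u, F (v, x))) {k : ℕ} (ς : Sx M k)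
    (u : Fin (k + 1) → ℝ) : A k (small_X F ς u) = ((R : ℝ) ^ (k + 1))⁻¹ •
      ∑ t : Fin (k + 1) → Fin R, small_X F ς (fun j => u j + a * ((t j : ℕ) : ℝ)) := by
  rw [small_X, h]
  congr 1
  refine Finset.sum_congr rfl (fun t _ => ?_)
  rw [small_flo_flo F hFa, small_X, small_comb_add]

theorem small_avg_le {A : Type*} (hR : 0 < R) (k : ℕ) (f : (Fin (k + 1) → Fin R) → (A →₀ ℝ)) (C : ℝ)
    (h : ∀ t, nrm (f t) ≤ C) : nrm (((R : ℝ) ^ (k + 1))⁻¹ • ∑ t : Fin (k + 1) → Fin R, f t) ≤ C := by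
  have hp : (0 : ℝ) < (R : ℝ) ^ (k + 1) := by positivity
  rw [nrm_smul, abs_of_pos (inv_pos.2 hp)]
  have h1 : nrm (∑ t : Fin (k + 1) → Fin R, f t) ≤ (R : ℝ) ^ (k + 1) * C := by
    refine (nrm_sum _ _).trans ?_
    refine (Finset.sum_le_card_nsmul _ _ C (fun t _ => h t)).trans ?_
    rw [nsmul_eq_mul, Finset.card_univ, Fintype.card_fun, Fintype.card_fin, Fintype.card_fin]
    push_cast
    exact le_rfl
  calc ((R : ℝ) ^ (k + 1))⁻¹ * nrm (∑ t : Fin (k + 1) → Fin R, f t)
      ≤ ((R : ℝ) ^ (k + 1))⁻¹ * ((R : ℝ) ^ (k + 1) * C) := mul_le_mul_of_nonneg_left h1 (by positivity)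
    _ = C := by field_simp

theorem small_Av.nrm_le (h : small_Av F R a A) (hR : 0 < R) {k : ℕ} (c : SC M k) : nrm (A k c) ≤ nrm c := by
  refine small_nrm_le _ (fun σ => ?_) c
  rw [h]
  refine small_avg_le hR k _ 1 (fun t => ?_)
  rw [nrm_single, abs_one]

/-- the difference for a shift of the coordinate i by a -/
noncomputable def small_D (F : C(ℝ × M, M)) {k : ℕ} (ς : Sx M k) (i : Fin (k + 1)) (a : ℝ) (u : Fin (k + 1) → ℝ) : SC M k :=
  small_X F ς (fun j => u j + if j = i then a else 0) - small_X F ς u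

theorem small_Av.D {b : ℝ} (h : small_Av F R b A) (hFa : ∀ u v x, F (u + v, x) = F (u, F (v, x))) {k : ℕ} (ς : Sx M k)
    (i : Fin (k + 1)) (a : ℝ) (u : Fin (k + 1) → ℝ) : A k (small_D F ς i a u) = ((R : ℝ) ^ (k + 1))⁻¹ •
      ∑ t : Fin (k + 1) → Fin R, small_D F ς i a (fun j => u j + b * ((t j : ℕ) : ℝ)) := by
  rw [small_D, map_sub, h.X hFa, h.X hFa, ← smul_sub, ← Finset.sum_sub_distrib]
  congr 1
  refine Finset.sum_congr rfl (fun t _ => ?_)
  rw [small_D]
  congr 2
  funext j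
  ring

theorem small_Av.self (h : small_Av F R a A) (hR : 0 < R) (hFa : ∀ u v x, F (u + v, x) = F (u, F (v, x))) {k : ℕ}
    (ς : Sx M k) (i : Fin (k + 1)) (u : Fin (k + 1) → ℝ) : nrm (A k (small_D F ς i a u)) ≤ 2 / R := by
  rw [h.D hFa]
  have hp : (0 : ℝ) < (R : ℝ) ^ (k + 1) := by positivity
  have hR' : (0 : ℝ) < (R : ℝ) := by exact_mod_cast hR
  rw [nrm_smul, abs_of_pos (inv_pos.2 hp)]
  have h1 : ∑ t : Fin (k + 1) → Fin R, small_D F ς i a (fun j => u j + a * ((t j : ℕ) : ℝ)) =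
      ∑ s : Fin k → Fin R, ∑ n : Fin R, small_D F ς i a
        (fun j => u j + a * (((Fin.insertNthEquiv (fun _ => Fin R) i (n, s) j : Fin R) : ℕ) : ℝ)) := by
    rw [← (Fin.insertNthEquiv (fun _ => Fin R) i).sum_comp, Fintype.sum_prod_type_right]
  have h2 : nrm (∑ t : Fin (k + 1) → Fin R, small_D F ς i a (fun j => u j + a * ((t j : ℕ) : ℝ))) ≤ (R : ℝ) ^ k * 2 := by
    rw [h1]
    refine (nrm_sum _ _).trans ?_
    refine (Finset.sum_le_card_nsmul _ _ 2 (fun s _ => ?_)).trans ?_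
    · -- telescope
      let Y : ℕ → SC M k := fun n => small_X F ς (fun j => u j + a *
        (i.insertNth (α := fun _ => ℝ) (n : ℝ) (fun l => ((s l : ℕ) : ℝ)) j))
      have h3 : ∀ n : Fin R, small_D F ς i a
          (fun j => u j + a * (((Fin.insertNthEquiv (fun _ => Fin R) i (n, s) j : Fin R) : ℕ) : ℝ)) =
          Y ((n : ℕ) + 1) - Y (n : ℕ) := by
        intro n
        rw [small_D]
        congr 2
        · funext j
          refine Fin.succAboveCases i ?_ ?_ j
          · simp only [Fin.insertNthEquiv_apply, Fin.insertNth_apply_same, if_true]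
            push_cast
            ring
          · intro l
            simp [Fin.insertNthEquiv_apply, Fin.insertNth_apply_succAbove, Fin.succAbove_ne]
        · funext j
          refine Fin.succAboveCases i ?_ ?_ j
          · simp only [Fin.insertNthEquiv_apply, Fin.insertNth_apply_same]
          · intro l
            simp [Fin.insertNthEquiv_apply, Fin.insertNth_apply_succAbove]
      rw [Finset.sum_congr rfl (fun n _ => h3 n), Fin.sum_univ_eq_sum_range (fun n => Y (n + 1) - Y n) R,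
        Finset.sum_range_sub]
      have h4 : Y R - Y 0 = Y R + (-1 : ℝ) • Y 0 := by rw [neg_one_smul]; abel
      rw [h4]
      refine (nrm_add _ _).trans ?_
      rw [nrm_smul]
      simp only [Y, small_nrm_X]
      norm_num
    · rw [nsmul_eq_mul, Finset.card_univ, Fintype.card_fun, Fintype.card_fin, Fintype.card_fin]
      push_cast
      exact le_rfl
  calc ((R : ℝ) ^ (k + 1))⁻¹ * nrm (∑ t : Fin (k + 1) → Fin R, small_D F ς i a (fun j => u j + a * ((t j : ℕ) : ℝ)))
      ≤ ((R : ℝ) ^ (k + 1))⁻¹ * ((R : ℝ) ^ k * 2) := mul_le_mul_of_nonneg_left h2 (by positivity)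
    _ = 2 / R := by
      rw [pow_succ]
      field_simp

/-- composition of averaging operators along a list -/
noncomputable def small_L (Av : ℝ → ∀ k, SC M k →ₗ[ℝ] SC M k) : List ℝ → ∀ k, SC M k →ₗ[ℝ] SC M k
  | [] => fun _ => LinearMap.id
  | a :: L => fun k => (small_L Av L k).comp (Av a k)

theorem small_L_nrm (Av : ℝ → ∀ k, SC M k →ₗ[ℝ] SC M k) (hAv : ∀ a, small_Av F R a (Av a)) (hR : 0 < R) (L : List ℝ)
    {k : ℕ} (c : SC M k) : nrm (small_L Av L k c) ≤ nrm c := by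
  induction L generalizing c with
  | nil => exact le_rfl
  | cons a L ih => exact (ih (Av a k c)).trans ((hAv a).nrm_le hR c)

theorem small_L_D (Av : ℝ → ∀ k, SC M k →ₗ[ℝ] SC M k) (hAv : ∀ a, small_Av F R a (Av a)) (hR : 0 < R)
    (hFa : ∀ u v x, F (u + v, x) = F (u, F (v, x))) (L : List ℝ) {k : ℕ} (ς : Sx M k) (i : Fin (k + 1)) (a : ℝ)
    (ha : a ∈ L) (u : Fin (k + 1) → ℝ) : nrm (small_L Av L k (small_D F ς i a u)) ≤ 2 / R := by
  induction L generalizing u with
  | nil => simp at ha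
  | cons b L ih =>
    show nrm (small_L Av L k (Av b k (small_D F ς i a u))) ≤ 2 / R
    by_cases hab : a = b
    · subst hab
      exact (small_L_nrm Av hAv hR L _).trans ((hAv a).self hR hFa ς i u)
    · have ha' : a ∈ L := by
        rcases List.mem_cons.1 ha with h | h
        · exact absurd h hab
        · exact h
      rw [(hAv b).D hFa, map_smul, map_sum]
      exact small_avg_le hR k _ _ (fun t => ih ha' _)

theorem small_L_X (Av : ℝ → ∀ k, SC M k →ₗ[ℝ] SC M k) (hAv : ∀ a, small_Av F R a (Av a)) (hR : 0 < R)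
    (hFa : ∀ u v x, F (u + v, x) = F (u, F (v, x))) (L : List ℝ) {k : ℕ} (ς : Sx M k) (v : Fin (k + 1) → ℝ)
    (hv : ∀ i, v i ∈ L) (s : Finset (Fin (k + 1))) :
    nrm (small_L Av L k (small_X F ς (fun j => if j ∈ s then v j else 0) - small_X F ς (fun _ => 0))) ≤
      s.card * (2 / R) := by
  classical
  induction s using Finset.induction_on with
  | empty =>
    simp only [Finset.notMem_empty, if_false, sub_self, map_zero, nrm_zero, Finset.card_empty]
    simp
  | insert i s hi ih =>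
    have h1 : small_X F ς (fun j => if j ∈ insert i s then v j else 0) - small_X F ς (fun _ => 0) =
        small_D F ς i (v i) (fun j => if j ∈ s then v j else 0) +
          (small_X F ς (fun j => if j ∈ s then v j else 0) - small_X F ς (fun _ => 0)) := by
      rw [small_D]
      have h2 : (fun j => if j ∈ insert i s then v j else 0) =
          (fun j => (if j ∈ s then v j else 0) + if j = i then v i else 0) := by
        funext j
        by_cases hj : j = i
        · subst hj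
          simp [hi]
        · simp [Finset.mem_insert, hj]
      rw [h2]
      abel
    rw [h1, map_add, Finset.card_insert_of_notMem hi]
    refine (nrm_add _ _).trans ?_
    have h3 := small_L_D Av hAv hR hFa L ς i (v i) (hv i) (fun j => if j ∈ s then v j else 0)
    push_cast
    linarith

theorem small_L_Op (Av : ℝ → ∀ k, SC M k →ₗ[ℝ] SC M k) (hAv : ∀ a, small_Op G (Av a)) (L : List ℝ) :
    small_Op G (small_L Av L) := by
  induction L with
  | nil =>
    refine ⟨fun k c => rfl, fun g k c => rfl, fun k => 0, fun k c => ?_, fun g k c => ?_⟩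
    · simp [small_L]
    · simp
  | cons a L ih => exact (hAv a).comp ih

/-- the norm of the straightened and averaged flow part -/
theorem small_FS (hF0 : ∀ x, F (0, x) = x) (hFa : ∀ u v x, F (u + v, x) = F (u, F (v, x)))
    (S : ∀ k, SC M k →ₗ[ℝ] SC M k)
    (hS : ∀ k (σ : Sx M k), ∃ ς : Sx M k, ∀ f : C(Dl k, ℝ),
        S k (Finsupp.single (flo F f σ) 1) = Finsupp.single (flo F (Cvx.comb (fun j => f (vtx j))) ς) (1 : ℝ))
    {k : ℕ} (c : SC M k) (hc : c ∈ FS F k) :
    ∃ (L : List ℝ) (C : ℝ), ∀ (L' : List ℝ), (∀ a ∈ L, a ∈ L') → ∀ (R : ℕ), 0 < R →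
      ∀ Av : ℝ → ∀ k, SC M k →ₗ[ℝ] SC M k, (∀ a, small_Av F R a (Av a)) → nrm (small_L Av L' k (S k c)) ≤ C / R := by
  classical
  induction hc using Submodule.span_induction with
  | zero => exact ⟨[], 0, fun L' _ R _ Av _ => by simp [nrm_zero]⟩
  | add x y _ _ hx hy =>
    obtain ⟨L1, C1, h1⟩ := hx
    obtain ⟨L2, C2, h2⟩ := hy
    refine ⟨L1 ++ L2, C1 + C2, fun L' hL' R hR Av hAv => ?_⟩
    rw [map_add, map_add]
    refine (nrm_add _ _).trans ?_
    rw [add_div]
    exact add_le_add (h1 L' (fun a ha => hL' a (List.mem_append_left _ ha)) R hR Av hAv)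
      (h2 L' (fun a ha => hL' a (List.mem_append_right _ ha)) R hR Av hAv)
  | smul r x _ hx =>
    obtain ⟨L, C, h⟩ := hx
    refine ⟨L, |r| * C, fun L' hL' R hR Av hAv => ?_⟩
    rw [map_smul, map_smul, nrm_smul, mul_div_assoc]
    exact mul_le_mul_of_nonneg_left (h L' hL' R hR Av hAv) (abs_nonneg r)
  | mem x hx =>
    obtain ⟨σ, f, rfl⟩ := hx
    obtain ⟨ς, hς⟩ := hS k σ
    refine ⟨List.ofFn (fun i : Fin (k + 1) => f (vtx i)), (k + 1) * 2, fun L' hL' R hR Av hAv => ?_⟩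
    have h0 : flo F 0 σ = σ := by
      ext t
      exact hF0 (σ t)
    have h1 : S k (Finsupp.single (flo F f σ) 1 - Finsupp.single σ 1) =
        small_X F ς (fun j => if j ∈ (Finset.univ : Finset (Fin (k + 1))) then f (vtx j) else 0) -
          small_X F ς (fun _ => 0) := by
      have h2 := hς 0
      rw [h0] at h2
      rw [map_sub, hς, h2]
      simp only [Finset.mem_univ, if_true]
      rfl
    rw [h1]
    have h3 := small_L_X Av hAv hR hFa L' ς (fun j => f (vtx j)) (fun i => hL' _ ((List.mem_ofFn' _ _).2 ⟨i, rfl⟩)) Finset.univ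
    rw [Finset.card_univ, Fintype.card_fin] at h3
    refine h3.trans (le_of_eq ?_)
    push_cast
    ring

end small

theorem ci_small {d : ℕ} {M G : Type*} [TopologicalSpace M] [Group G] [MulAction G M] [ContinuousConstSMul G M]
    (F : C(ℝ × M, M)) (hF0 : ∀ x, F (0, x) = x) (hFg : ∀ (g : G) u x, F (u, g • x) = g • F (u, x))
    (hFa : ∀ u v x, F (u + v, x) = F (u, F (v, x)))
    (κ : C(M × M, ℝ)) (hκg : ∀ (g : G) x y, κ (g • x, g • y) = κ (x, y))
    (hκF : ∀ s t x y, κ (F (s, x), F (t, y)) = κ (x, y) + t - s)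
    (z : SC M (d + 1)) (hz : bd d z ∈ JJ (⊤ : Subgroup G) d) (w : SC M (d + 2))
    (hw : z - bd (d + 1) w ∈ JJ (⊤ : Subgroup G) (d + 1) ⊔ FS F (d + 1)) (ε : ℝ) (hε : 0 < ε) :
    ∃ (z' : SC M (d + 1)) (v : SC M (d + 2)), nrm z' < ε ∧ z' - z - bd (d + 1) v ∈ JJ (⊤ : Subgroup G) (d + 1) := by
  obtain ⟨S, TS, hS1, hS2, hS3, hS4, hS5⟩ := ci_str F hF0 hFg hFa κ hκg hκF
  obtain ⟨j, hj, f, hf, hjf⟩ := Submodule.mem_sup.1 hw
  obtain ⟨L, C, hL⟩ := small_FS hF0 hFa S hS5 f hf
  obtain ⟨R, hR⟩ := exists_nat_gt (max (C / ε) 0)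
  have hR0 : 0 < R := by
    have := (le_max_right _ _).trans_lt hR
    exact_mod_cast this
  have hR1 : C / R < ε := by
    have h1 : C / ε < R := (le_max_left _ _).trans_lt hR
    have h2 : (0 : ℝ) < R := by exact_mod_cast hR0
    rw [div_lt_iff₀ hε] at h1
    rw [div_lt_iff₀ h2]
    linarith
  have hA := fun a : ℝ => ci_avg (G := G) F hF0 hFg a R hR0
  choose Av TA hA1 hA2 hA3 hA4 hA5 using hA
  have hOp : small_Op G (fun k => (small_L Av L k).comp (S k)) :=
    small_Op.comp ⟨hS1, hS3, TS, hS2, hS4⟩ (small_L_Op Av (fun a => ⟨hA1 a, hA3 a, TA a, hA2 a, hA4 a⟩) L)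
  obtain ⟨hB1, hB2, T, hT1, hT2⟩ := hOp
  set B : ∀ k, SC M k →ₗ[ℝ] SC M k := fun k => (small_L Av L k).comp (S k) with hB
  refine ⟨B (d + 1) f, T (d + 1) z - B (d + 2) w, ?_, ?_⟩
  · exact (hL L (fun a ha => ha) R hR0 Av (fun a => hA5 a)).trans_lt hR1
  · have h1 : B (d + 1) f - z - bd (d + 1) (T (d + 1) z - B (d + 2) w) = T d (bd d z) - B (d + 1) j := by
      rw [map_sub, hT1, hB1]
      have h2 : bd (d + 1) w = z - (j + f) := by rw [hjf]; abel
      rw [h2, map_sub, map_add]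
      abel
    rw [h1]
    exact Submodule.sub_mem _ (JJ.map (T d) (fun g _ c => hT2 g d c) hz)
      (JJ.map (B (d + 1)) (fun g _ c => hB2 g (d + 1) c) hj)

end SV
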