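import Pool.Agent.Helper43.NH.Defs

/-! CI7: vanishing modulo the group and the flow, from the vanishing on the leaf space. -/

namespace SV

open Filter Topology

section van

variable {M G : Type*} [TopologicalSpace M] [Group G] [MulAction G M] [ContinuousConstSMul G M]

/-- the retraction on the zero set -/
def vanR (F : C(ℝ × M, M)) (θ : C(M, ℝ)) (hθ : ∀ t x, θ (F (t, x)) = θ x + t) : C(M, {x : M // θ x = 0}) :=
  ⟨fun x => ⟨F (-θ x, x), by rw [hθ]; ring⟩, by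
    refine Continuous.subtype_mk ?_ _
    fun_prop⟩

theorem vanR_coe (F : C(ℝ × M, M)) (θ : C(M, ℝ)) (hθ : ∀ t x, θ (F (t, x)) = θ x + t) (x : M) :
    ((vanR F θ hθ x : {x : M // θ x = 0}) : M) = F (-θ x, x) := rfl

theorem vanR_flow (F : C(ℝ × M, M)) (θ : C(M, ℝ)) (hθ : ∀ t x, θ (F (t, x)) = θ x + t)
    (hFa : ∀ u v x, F (u + v, x) = F (u, F (v, x))) (t : ℝ) (x : M) : vanR F θ hθ (F (t, x)) = vanR F θ hθ x := by
  apply Subtype.ext
  rw [vanR_coe, vanR_coe, hθ, ← hFa]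
  congr 2
  ring

theorem vanR_self (F : C(ℝ × M, M)) (θ : C(M, ℝ)) (hθ : ∀ t x, θ (F (t, x)) = θ x + t) (hF0 : ∀ x, F (0, x) = x)
    (x : {x : M // θ x = 0}) : vanR F θ hθ x = x := by
  apply Subtype.ext
  rw [vanR_coe, x.2, neg_zero, hF0]

theorem vanR_smul (F : C(ℝ × M, M)) (θ : C(M, ℝ)) (hθ : ∀ t x, θ (F (t, x)) = θ x + t)
    (hFg : ∀ (g : G) u x, F (u, g • x) = g • F (u, x))
    (hFa : ∀ u v x, F (u + v, x) = F (u, F (v, x))) (g : G) (x : M) :
    vanR F θ hθ (g • (vanR F θ hθ x : M)) = vanR F θ hθ (g • x) := by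
  rw [vanR_coe, ← hFg, vanR_flow F θ hθ hFa]

/-- the homomorphism to the permutations of the zero set -/
def vanHom (F : C(ℝ × M, M)) (θ : C(M, ℝ)) (hθ : ∀ t x, θ (F (t, x)) = θ x + t) (hF0 : ∀ x, F (0, x) = x)
    (hFg : ∀ (g : G) u x, F (u, g • x) = g • F (u, x)) (hFa : ∀ u v x, F (u + v, x) = F (u, F (v, x))) :
    G →* Equiv.Perm {x : M // θ x = 0} where
  toFun g :=
    { toFun := fun x => vanR F θ hθ (g • (x : M))
      invFun := fun x => vanR F θ hθ (g⁻¹ • (x : M))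
      left_inv := fun x => by
        show vanR F θ hθ (g⁻¹ • (vanR F θ hθ (g • (x : M)) : M)) = x
        rw [vanR_smul F θ hθ hFg hFa, inv_smul_smul, vanR_self F θ hθ hF0]
      right_inv := fun x => by
        show vanR F θ hθ (g • (vanR F θ hθ (g⁻¹ • (x : M)) : M)) = x
        rw [vanR_smul F θ hθ hFg hFa, smul_inv_smul, vanR_self F θ hθ hF0] }
  map_one' := by
    ext x
    show ((vanR F θ hθ ((1 : G) • (x : M)) : {x : M // θ x = 0}) : M) = x
    rw [one_smul, vanR_self F θ hθ hF0]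
  map_mul' := fun g h => by
    apply Equiv.ext
    intro x
    show vanR F θ hθ ((g * h) • (x : M)) = vanR F θ hθ (g • (vanR F θ hθ (h • (x : M)) : M))
    rw [vanR_smul F θ hθ hFg hFa, mul_smul]

theorem vanHom_apply (F : C(ℝ × M, M)) (θ : C(M, ℝ)) (hθ : ∀ t x, θ (F (t, x)) = θ x + t) (hF0 : ∀ x, F (0, x) = x)
    (hFg : ∀ (g : G) u x, F (u, g • x) = g • F (u, x)) (hFa : ∀ u v x, F (u + v, x) = F (u, F (v, x))) (g : G)
    (x : {x : M // θ x = 0}) : vanHom F θ hθ hF0 hFg hFa g x = vanR F θ hθ (g • (x : M)) := rfl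

theorem van_zpow (ζ : G) (F : C(ℝ × M, M)) (hF0 : ∀ x, F (0, x) = x)
    (hF1 : ∀ x, F (1, x) = ζ • x) (hFa : ∀ u v x, F (u + v, x) = F (u, F (v, x))) (m : ℤ) (x : M) :
    F ((m : ℝ), x) = ζ ^ m • x := by
  induction m using Int.induction_on with
  | zero => simp [hF0]
  | succ m ih =>
    have : (((m : ℤ) + 1 : ℤ) : ℝ) = 1 + ((m : ℤ) : ℝ) := by push_cast; ring
    rw [this, hFa, ih, hF1, ← mul_smul, ← zpow_one_add, add_comm]
  | pred m ih =>
    have h1 : F (1, F (((-(m : ℤ) - 1 : ℤ) : ℝ), x)) = F (((-(m : ℤ) : ℤ) : ℝ), x) := by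
      rw [← hFa]
      congr 2
      push_cast
      ring
    rw [hF1, ih] at h1
    have h2 := congrArg (fun y => ζ⁻¹ • y) h1
    simp only [inv_smul_smul] at h2
    rw [h2, ← mul_smul, ← zpow_neg_one, ← zpow_add]
    congr 2
    ring

theorem vanHom_zpow (ζ : G) (F : C(ℝ × M, M)) (θ : C(M, ℝ)) (hθ : ∀ t x, θ (F (t, x)) = θ x + t)
    (hF0 : ∀ x, F (0, x) = x) (hF1 : ∀ x, F (1, x) = ζ • x)
    (hFg : ∀ (g : G) u x, F (u, g • x) = g • F (u, x)) (hFa : ∀ u v x, F (u + v, x) = F (u, F (v, x))) (g : G) (m : ℤ) :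
    vanHom F θ hθ hF0 hFg hFa (g * ζ ^ m) = vanHom F θ hθ hF0 hFg hFa g := by
  have h1 : vanHom F θ hθ hF0 hFg hFa (ζ ^ m) = 1 := by
    apply Equiv.ext
    intro x
    rw [vanHom_apply, ← van_zpow ζ F hF0 hF1 hFa, vanR_flow F θ hθ hFa, vanR_self F θ hθ hF0]
    rfl
  rw [map_mul, h1, mul_one]

theorem FS_sub (F : C(ℝ × M, M)) {k : ℕ} (f : C(Dl k, ℝ)) (σ : Sx M k) :
    Finsupp.single (flo F f σ) 1 - Finsupp.single σ 1 ∈ FS F k := Submodule.subset_span ⟨σ, f, rfl⟩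

end van

/-- the core of the vanishing theorem: the vanishing on the zero set is a hypothesis -/
theorem ci_vanish_core {d : ℕ} {M G : Type*} [TopologicalSpace M] [T2Space M] [LocallyCompactSpace M] [Group G]
    [MulAction G M] [ContinuousConstSMul G M] [ProperlyDiscontinuousSMul G M]
    (K : Set M) (hK : IsCompact K) (hcov : ∀ x : M, ∃ g : G, ∃ y ∈ K, x = g • y)
    (ζ : G) (F : C(ℝ × M, M)) (hF0 : ∀ x, F (0, x) = x)
    (hF1 : ∀ x, F (1, x) = ζ • x) (hFg : ∀ (g : G) u x, F (u, g • x) = g • F (u, x))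
    (hFa : ∀ u v x, F (u + v, x) = F (u, F (v, x)))
    (θ : C(M, ℝ)) (hθ : ∀ t x, θ (F (t, x)) = θ x + t)
    (horb : ∀ (Γ : Subgroup (Equiv.Perm {x : M // θ x = 0})) [ContinuousConstSMul Γ {x : M // θ x = 0}]
      [ProperlyDiscontinuousSMul Γ {x : M // θ x = 0}] [LocallyCompactSpace {x : M // θ x = 0}]
      (K : Set {x : M // θ x = 0}), IsCompact K → (∀ x : {x : M // θ x = 0}, ∃ g : Γ, ∃ y ∈ K, x = g • y) →
      ∀ z : SC {x : M // θ x = 0} (d + 1), bd d z ∈ JJ (⊤ : Subgroup Γ) d →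
        ∃ w : SC {x : M // θ x = 0} (d + 2), z - bd (d + 1) w ∈ JJ (⊤ : Subgroup Γ) (d + 1))
    (z : SC M (d + 1)) (hz : bd d z ∈ JJ (⊤ : Subgroup G) d) :
    ∃ w : SC M (d + 2), z - bd (d + 1) w ∈ JJ (⊤ : Subgroup G) (d + 1) ⊔ FS F (d + 1) := by
  classical
  have hclosed : IsClosed {x : M | θ x = 0} := isClosed_eq θ.continuous continuous_const
  have : LocallyCompactSpace {x : M // θ x = 0} := hclosed.isClosedEmbedding_subtypeVal.locallyCompactSpace
  set φ : G →* Equiv.Perm {x : M // θ x = 0} := vanHom F θ hθ hF0 hFg hFa with hφ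
  set Γ : Subgroup (Equiv.Perm {x : M // θ x = 0}) := φ.range with hΓ
  have hsm : ∀ (γ : Γ) (x : {x : M // θ x = 0}), γ • x = (γ : Equiv.Perm {x : M // θ x = 0}) x := fun _ _ => rfl
  have hcont : ContinuousConstSMul Γ {x : M // θ x = 0} := by
    refine ⟨fun γ => ?_⟩
    obtain ⟨g, rfl⟩ := φ.rangeRestrict_surjective γ
    show Continuous (fun x : {x : M // θ x = 0} => vanR F θ hθ (g • (x : M)))
    exact (vanR F θ hθ).continuous.comp (continuous_subtype_val.const_smul g)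
  have hpd : ProperlyDiscontinuousSMul Γ {x : M // θ x = 0} := by
    refine ⟨fun {K1 K2} hK1 hK2 => ?_⟩
    have hc1 : IsCompact (F '' (Set.Icc (0 : ℝ) 1 ×ˢ (Subtype.val '' K1))) :=
      (isCompact_Icc.prod (hK1.image continuous_subtype_val)).image F.continuous
    have hc2 : IsCompact (Subtype.val '' K2) := hK2.image continuous_subtype_val
    have hfin := ProperlyDiscontinuousSMul.finite_disjoint_inter_image (Γ := G) hc1 hc2
    refine (hfin.image φ.rangeRestrict).subset ?_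
    intro γ hγ
    obtain ⟨g, rfl⟩ := φ.rangeRestrict_surjective γ
    rw [Set.mem_setOf_eq] at hγ
    obtain ⟨y, ⟨x, hx, hxy⟩, hy⟩ := hγ
    have hxy' : vanR F θ hθ (g • (x : M)) = y := hxy
    set t : ℝ := -θ (g • (x : M)) with ht
    have h1 : (y : M) = g • F (t, x) := by
      rw [← hxy', vanR_coe, ← ht, hFg]
    have h2 : F (t, (x : M)) = ζ ^ ⌊t⌋ • F (Int.fract t, x) := by
      rw [← van_zpow ζ F hF0 hF1 hFa, ← hFa, Int.floor_add_fract]
    refine ⟨g * ζ ^ ⌊t⌋, ?_, ?_⟩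
    · simp only [Set.mem_setOf_eq]
      refine ⟨(y : M), ⟨F (Int.fract t, x), ?_, ?_⟩, ⟨y, hy, rfl⟩⟩
      · exact ⟨(Int.fract t, x), ⟨⟨Int.fract_nonneg t, (Int.fract_lt_one t).le⟩, ⟨x, hx, rfl⟩⟩, rfl⟩
      · show (g * ζ ^ ⌊t⌋) • F (Int.fract t, x) = y
        rw [mul_smul, ← h2, h1]
    · apply Subtype.ext
      show φ (g * ζ ^ ⌊t⌋) = φ g
      exact vanHom_zpow ζ F θ hθ hF0 hF1 hFg hFa g _
  -- smap r maps J to J
  have hrJ : ∀ (k : ℕ) (c : SC M k), c ∈ JJ (⊤ : Subgroup G) k → smap (vanR F θ hθ) k c ∈ JJ (⊤ : Subgroup Γ) k := by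
    intro k c hc
    have : (JJ (⊤ : Subgroup G) k : Submodule ℝ (SC M k)) ≤ (JJ (⊤ : Subgroup Γ) k).comap (smap (vanR F θ hθ) k) := by
      refine Submodule.span_le.2 ?_
      rintro c ⟨g, hg, c', rfl⟩
      rw [SetLike.mem_coe, Submodule.mem_comap, map_sub]
      have h1 : smap (vanR F θ hθ) k (tr g k c') = tr (φ.rangeRestrict g) k (smap (vanR F θ hθ) k c') := by
        rw [tr, tr, smap_smap, smap_smap]
        congr 1
        congr 1
        ext x
        show ((vanR F θ hθ (g • x) : {x : M // θ x = 0}) : M) = (vanR F θ hθ (g • (vanR F θ hθ x : M)) : {x : M // θ x = 0})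
        rw [vanR_smul F θ hθ hFg hFa]
      rw [h1]
      exact JJ.mk (Subgroup.mem_top _) _
    exact this hc
  obtain ⟨w0, hw0⟩ := horb Γ (vanR F θ hθ '' K) (hK.image (vanR F θ hθ).continuous) (by
    intro x
    obtain ⟨g, y, hy, hxy⟩ := hcov (x : M)
    refine ⟨φ.rangeRestrict g, vanR F θ hθ y, ⟨y, hy, rfl⟩, ?_⟩
    show x = vanR F θ hθ (g • (vanR F θ hθ y : M))
    rw [vanR_smul F θ hθ hFg hFa, ← hxy, vanR_self F θ hθ hF0]) (smap (vanR F θ hθ) (d + 1) z) (by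
      rw [bd_smap]
      exact hrJ d _ hz)
  set i : C({x : M // θ x = 0}, M) := ⟨Subtype.val, continuous_subtype_val⟩ with hi
  -- the inclusion maps J to J + FS
  have hiJ : ∀ (k : ℕ) (c : SC {x : M // θ x = 0} k), c ∈ JJ (⊤ : Subgroup Γ) k →
      smap i k c ∈ JJ (⊤ : Subgroup G) k ⊔ FS F k := by
    intro k c hc
    have : (JJ (⊤ : Subgroup Γ) k : Submodule ℝ (SC {x : M // θ x = 0} k)) ≤
        (JJ (⊤ : Subgroup G) k ⊔ FS F k).comap (smap i k) := by
      refine Submodule.span_le.2 ?_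
      rintro c ⟨γ, hg, c', rfl⟩
      obtain ⟨g, rfl⟩ := φ.rangeRestrict_surjective γ
      rw [SetLike.mem_coe]
      rw [fsum c', map_sum, ← Finset.sum_sub_distrib]
      refine Submodule.sum_mem _ (fun τ _ => ?_)
      rw [map_smul, ← smul_sub]
      refine Submodule.smul_mem _ _ ?_
      rw [Submodule.mem_comap, map_sub, tr_single, smap_single, smap_single]
      set σ : Sx M k := g • i.comp τ with hσ
      set f : C(Dl k, ℝ) := ⟨fun s => -θ (σ s), by fun_prop⟩ with hf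
      have h1 : i.comp ((φ.rangeRestrict g) • τ) = flo F f σ := by
        ext s
        rfl
      rw [h1]
      have h2 : Finsupp.single (flo F f σ) (1 : ℝ) - Finsupp.single (i.comp τ) (1 : ℝ) =
          (tr g k (Finsupp.single (i.comp τ) 1) - Finsupp.single (i.comp τ) 1) +
          (Finsupp.single (flo F f σ) 1 - Finsupp.single σ 1) := by
        rw [tr_single]
        abel
      rw [h2]
      exact Submodule.add_mem_sup (JJ.mk (Subgroup.mem_top _) _) (FS_sub F f σ)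
    exact this hc
  refine ⟨smap i (d + 2) w0, ?_⟩
  have h3 : z - bd (d + 1) (smap i (d + 2) w0) =
      smap i (d + 1) (smap (vanR F θ hθ) (d + 1) z - bd (d + 1) w0) +
      (z - smap i (d + 1) (smap (vanR F θ hθ) (d + 1) z)) := by
    rw [map_sub, bd_smap]
    abel
  rw [h3]
  refine Submodule.add_mem _ (hiJ _ _ hw0) (Submodule.mem_sup_right ?_)
  rw [smap_smap]
  have h4 : z - smap (i.comp (vanR F θ hθ)) (d + 1) z =
      ∑ σ ∈ z.support, z σ • (Finsupp.single σ (1 : ℝ) - smap (i.comp (vanR F θ hθ)) (d + 1) (Finsupp.single σ 1)) := by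
    conv_lhs => rw [fsum z, map_sum, ← Finset.sum_sub_distrib]
    refine Finset.sum_congr rfl (fun σ _ => ?_)
    rw [map_smul, smul_sub]
  rw [h4]
  refine Submodule.sum_mem _ (fun σ _ => Submodule.smul_mem _ _ ?_)
  rw [smap_single]
  have h5 : (i.comp (vanR F θ hθ)).comp σ = flo F ⟨fun s => -θ (σ s), by fun_prop⟩ σ := by
    ext s
    rfl
  rw [h5, ← neg_sub]
  exact Submodule.neg_mem _ (FS_sub F _ σ)

end SV
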