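import Pool.Agent.Helper43.NH.OrbV
import Pool.Agent.Helper43.NH.Vanish0

/-! CI7: vanishing modulo the group and the flow. -/

namespace SV

open Filter Topology

theorem ci_vanish {d : ℕ} {M G : Type*} [TopologicalSpace M] [T2Space M] [LocallyCompactSpace M] [Group G]
    [MulAction G M] [ContinuousConstSMul G M] [ProperlyDiscontinuousSMul G M]
    (K : Set M) (hK : IsCompact K) (hcov : ∀ x : M, ∃ g : G, ∃ y ∈ K, x = g • y)
    (ζ : G) (hζ : ∀ m : ℤ, m ≠ 0 → ζ ^ m ≠ 1) (F : C(ℝ × M, M)) (hF0 : ∀ x, F (0, x) = x)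
    (hF1 : ∀ x, F (1, x) = ζ • x) (hFg : ∀ (g : G) u x, F (u, g • x) = g • F (u, x))
    (hFa : ∀ u v x, F (u + v, x) = F (u, F (v, x)))
    (θ : C(M, ℝ)) (hθ : ∀ t x, θ (F (t, x)) = θ x + t) (hloc : LocEuc d {x : M // θ x = 0})
    (z : SC M (d + 1)) (hz : bd d z ∈ JJ (⊤ : Subgroup G) d) :
    ∃ w : SC M (d + 2), z - bd (d + 1) w ∈ JJ (⊤ : Subgroup G) (d + 1) ⊔ FS F (d + 1) :=
  ci_vanish_core K hK hcov ζ F hF0 hF1 hFg hFa θ hθ
    (fun _ _ _ _ K' hK' hcov' z' hz' => orb_vanish d hloc K' hK' hcov' z' hz') z hz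

end SV
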