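import Pool.Agent.Helper43.NH.CTheta
import Pool.Agent.Helper43.NH.LocQ
import Pool.Agent.Helper43.NH.Vanish
import Pool.Agent.Helper43.NH.Small

/-! NH11: a free circle action on the quotient kills the l1-seminorm in top degree. -/

namespace SV

theorem nh_circle {d : ℕ} {M G : Type*} [TopologicalSpace M] [T2Space M] [LocallyCompactSpace M] [Group G]
    [MulAction G M] [ContinuousConstSMul G M] [ProperlyDiscontinuousSMul G M]
    (K : Set M) (hK : IsCompact K) (hcov : ∀ x : M, ∃ g : G, ∃ y ∈ K, x = g • y)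
    (dev : M → (Fin (d + 1) → ℝ)) (hdev : IsLocalHomeomorph dev)
    (ζ : G) (hζ : ∀ m : ℤ, m ≠ 0 → ζ ^ m ≠ 1) (F : C(ℝ × M, M)) (hF0 : ∀ x, F (0, x) = x)
    (hF1 : ∀ x, F (1, x) = ζ • x) (hFg : ∀ (g : G) u x, F (u, g • x) = g • F (u, x))
    (hFa : ∀ u v x, F (u + v, x) = F (u, F (v, x)))
    (Z : VV (d + 1) →L[ℝ] VV (d + 1))
    (hZ : ∀ t x, ((dev (F (t, x)), (1 : ℝ)) : VV (d + 1)) = NormedSpace.exp (t • Z) (dev x, 1))
    (z : SC M (d + 1)) (hz : bd d z ∈ JJ (⊤ : Subgroup G) d) (ε : ℝ) (hε : 0 < ε) :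
    ∃ (z' : SC M (d + 1)) (v : SC M (d + 2)), nrm z' < ε ∧ z' - z - bd (d + 1) v ∈ JJ (⊤ : Subgroup G) (d + 1) := by
  obtain ⟨⟨θ, hθ⟩, κ, hκg, hκF⟩ := ci_theta K hK hcov ζ hζ F hF0 hF1 hFg hFa
  have hloc : LocEuc d {x : M // θ x = 0} := ci_locEuc dev hdev F hF0 hFa Z hZ θ hθ
  obtain ⟨w, hw⟩ := ci_vanish K hK hcov ζ hζ F hF0 hF1 hFg hFa θ hθ hloc z hz
  exact ci_small F hF0 hFg hFa κ hκg hκF z hz w hw ε hε

end SV
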