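import Pool.Agent.Helper43.SV.Final

/-! Project NH (closed affine manifolds with nilpotent holonomy): definitions. -/

namespace SV

open Filter Topology

/-- flow of a singular simplex by a time function -/
def flo {M : Type*} [TopologicalSpace M] (F : C(ℝ × M, M)) {k : ℕ} (f : C(Dl k, ℝ)) (σ : Sx M k) : Sx M k :=
  F.comp (f.prodMk σ)

/-- span of the differences of a simplex and its flow -/
noncomputable def FS {M : Type*} [TopologicalSpace M] (F : C(ℝ × M, M)) (k : ℕ) : Submodule ℝ (SC M k) :=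
  Submodule.span ℝ {c | ∃ (σ : Sx M k) (f : C(Dl k, ℝ)), c = Finsupp.single (flo F f σ) 1 - Finsupp.single σ 1}

/-- cycles modulo the group with support in S bound modulo the group -/
def ExG {Q : Type*} (Γ : Type*) [TopologicalSpace Q] [Group Γ] [MulAction Γ Q] [ContinuousConstSMul Γ Q] (k : ℕ)
    (S : Set Q) : Prop :=
  ∀ z : SC Q (k + 1), SIn S z → bd k z ∈ JJ (⊤ : Subgroup Γ) k →
    ∃ w : SC Q (k + 2), SIn S w ∧ z - bd (k + 1) w ∈ JJ (⊤ : Subgroup Γ) (k + 1)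

/-- a developing map with nilpotent holonomy algebra: standing hypotheses -/
structure NHD {n : ℕ} {M G A : Type*} [TopologicalSpace M] [Group G] [MulAction G M]
    [NormedRing A] [NormedAlgebra ℝ A]
    (T : A →ₐ[ℝ] (VV n →L[ℝ] VV n)) (eps : A →ₐ[ℝ] ℝ) (gg : G →* A) (dev : M → (Fin n → ℝ)) (K : Set M)
    (J : Submodule ℝ A) : Prop where
  heps : ∀ a v, (T a v).2 = eps a * v.2
  hT : Function.Injective T
  hgd : ∀ (g : G) x, T (gg g) (dev x, 1) = (dev (g • x), 1)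
  hdev : IsLocalHomeomorph dev
  hK : IsCompact K
  hcov : ∀ x : M, ∃ g : G, ∃ y ∈ K, x = g • y
  hJn : ∀ a, a ∈ J ↔ IsNilpotent a
  hJ : ∀ a : A, ∀ j ∈ J, a * j ∈ J ∧ j * a ∈ J
  hc : ∀ a b : A, a * b - b * a ∈ J
  hn : ∃ m : ℕ, J ^ m = ⊥
  had : ∃ m : ℕ, ∀ a b : A, (fun x => a * x - x * a)^[m] b = 0

/-- the action of central flows and of the unipotent group on the space -/
structure NHT {n : ℕ} {M G A : Type*} [TopologicalSpace M] [Group G] [MulAction G M]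
    [NormedRing A] [NormedAlgebra ℝ A]
    (T : A →ₐ[ℝ] (VV n →L[ℝ] VV n)) (eps : A →ₐ[ℝ] ℝ) (gg : G →* A) (dev : M → (Fin n → ℝ))
    (J : Submodule ℝ A) (C : Submodule ℝ A) (Θ : A → A → M → M) : Prop where
  hC : ∀ Z, Z ∈ C ↔ ((∀ b, Z * b = b * Z) ∧ eps Z = 0)
  cont : Continuous (fun p : C × J × M => Θ p.1 p.2.1 p.2.2)
  zero : ∀ x, Θ 0 0 x = x
  dv : ∀ Z ∈ C, ∀ j ∈ J, ∀ x,
    ((dev (Θ Z j x), (1 : ℝ)) : VV n) = T (NormedSpace.exp Z * (1 + j)) (dev x, 1)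
  comp : ∀ Z ∈ C, ∀ j ∈ J, ∀ Z' ∈ C, ∀ j' ∈ J, ∀ x, Θ Z j (Θ Z' j' x) = Θ (Z + Z') (j + j' + j * j') x
  smul : ∀ g : G, ∀ Z ∈ C, ∀ j ∈ J, ∀ x, g • Θ Z j x = Θ Z (gg g * j * gg g⁻¹) (g • x)

end SV
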