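import Mathlib

/-! NH1: elementary facts on nilpotent groups. -/

namespace SV

theorem nil_pow_comm {Q : Type*} [Group Q] (z h : Q) (hz : z * h * z⁻¹ * h⁻¹ ∈ Subgroup.center Q) (k : ℕ) :
    z ^ k * h = (z * h * z⁻¹ * h⁻¹) ^ k * (h * z ^ k) := by
  set c := z * h * z⁻¹ * h⁻¹ with hc
  have hzh : z * h = c * h * z := by rw [hc]; group
  have hcen : ∀ x, x * c = c * x := fun x => (Subgroup.mem_center_iff.1 hz) x
  induction k with
  | zero => simp
  | succ k ih =>
    calc z ^ (k + 1) * h = z ^ k * (z * h) := by rw [pow_succ, mul_assoc]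
      _ = z ^ k * c * h * z := by rw [hzh]; group
      _ = c * (z ^ k * h) * z := by rw [hcen]; group
      _ = c * (c ^ k * (h * z ^ k)) * z := by rw [ih]
      _ = c ^ (k + 1) * (h * z ^ (k + 1)) := by rw [pow_succ' c, pow_succ z]; group

theorem nil_exp_aux (Q : Type*) [Group Q] [Group.IsNilpotent Q] :
    ∀ d : ℕ, 0 < d → (∀ z ∈ Subgroup.center Q, z ^ d = 1) → ∃ N : ℕ, 0 < N ∧ ∀ q : Q, q ^ N = 1 := by
  refine Group.nilpotent_center_quotient_ind (P := fun Q _ _ => ∀ d : ℕ, 0 < d →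
    (∀ z ∈ Subgroup.center Q, z ^ d = 1) → ∃ N : ℕ, 0 < N ∧ ∀ q : Q, q ^ N = 1) Q ?_ ?_
  · exact fun Q _ _ d _ _ => ⟨1, one_pos, fun q => Subsingleton.elim _ _⟩
  · intro Q _ _ ih d hd h
    obtain ⟨N, hN, hq⟩ := ih d hd (by
      intro z hz
      obtain ⟨z, rfl⟩ := QuotientGroup.mk_surjective z
      rw [← QuotientGroup.mk_pow, QuotientGroup.eq_one_iff, Subgroup.mem_center_iff]
      intro h'
      have hc : z * h' * z⁻¹ * h'⁻¹ ∈ Subgroup.center Q := by
        rw [← QuotientGroup.eq_one_iff]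
        have := (Subgroup.mem_center_iff.1 hz) (h' : Q ⧸ Subgroup.center Q)
        simp only [QuotientGroup.mk_mul, QuotientGroup.mk_inv]
        rw [← this]
        group
      have h2 := nil_pow_comm z h' hc d
      rw [h _ hc, one_mul] at h2
      exact h2.symm)
    refine ⟨N * d, Nat.mul_pos hN hd, fun q => ?_⟩
    rw [pow_mul]
    apply h
    rw [← QuotientGroup.eq_one_iff, QuotientGroup.mk_pow]
    exact hq _

theorem nh_exp_of_center {Q : Type*} [Group Q] [Group.IsNilpotent Q] (d : ℕ) (hd : 0 < d)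
    (h : ∀ z ∈ Subgroup.center Q, z ^ d = 1) : ∃ N : ℕ, 0 < N ∧ ∀ q : Q, q ^ N = 1 :=
  nil_exp_aux Q d hd h

theorem nil_finite_aux (Q : Type*) [Group Q] [Group.IsNilpotent Q] :
    Group.FG Q → (∀ q : Q, ∃ n : ℕ, 0 < n ∧ q ^ n = 1) → Finite Q := by
  refine Group.nilpotent_center_quotient_ind (P := fun Q _ _ => Group.FG Q →
    (∀ q : Q, ∃ n : ℕ, 0 < n ∧ q ^ n = 1) → Finite Q) Q ?_ ?_
  · exact fun Q _ _ _ _ => inferInstance
  · intro Q _ _ ih hfg h
    have : Finite (Q ⧸ Subgroup.center Q) := ih inferInstance (by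
      intro q
      obtain ⟨q, rfl⟩ := QuotientGroup.mk_surjective q
      obtain ⟨n, hn, hq⟩ := h q
      exact ⟨n, hn, by rw [← QuotientGroup.mk_pow, hq, QuotientGroup.mk_one]⟩)
    have : (Subgroup.center Q).FiniteIndex := Subgroup.finiteIndex_of_finite_quotient
    have : Group.FG (Subgroup.center Q) := inferInstance
    have : Finite (Subgroup.center Q) := by
      letI : CommGroup (Subgroup.center Q) :=
        { (inferInstance : Group (Subgroup.center Q)) with
          mul_comm := fun a b => Subtype.ext ((Subgroup.mem_center_iff.1 b.2) a) }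
      refine CommGroup.finite_of_fg_isMulTorsion _ ?_
      intro g
      obtain ⟨n, hn, hq⟩ := h g
      rw [isOfFinOrder_iff_pow_eq_one]
      exact ⟨n, hn, Subtype.ext (by simpa using hq)⟩
    exact Finite.of_equiv _ (Subgroup.groupEquivQuotientProdSubgroup (s := Subgroup.center Q)).symm

theorem nh_finite {Q : Type*} [Group Q] [Group.FG Q] [Group.IsNilpotent Q]
    (h : ∀ q : Q, ∃ n : ℕ, 0 < n ∧ q ^ n = 1) : Finite Q :=
  nil_finite_aux Q inferInstance h

theorem nil_tor_finite (A : Type*) [AddCommGroup A] [AddGroup.FG A] :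
    {t : A | ∃ n : ℕ, 0 < n ∧ n • t = 0}.Finite := by
  have : Module.Finite ℤ A := Module.Finite.iff_addGroup_fg.mpr inferInstance
  have : IsNoetherian ℤ A := isNoetherian_of_isNoetherianRing_of_finite ℤ A
  have : Module.Finite ℤ (Submodule.torsion ℤ A) := inferInstance
  have : Finite (Submodule.torsion ℤ A) := Module.finite_of_fg_torsion _ Submodule.torsion_isTorsion
  refine Set.Finite.subset (Set.toFinite (Submodule.torsion ℤ A : Set A)) ?_
  rintro t ⟨n, hn, ht⟩
  refine ⟨⟨(n : ℤ), mem_nonZeroDivisors_of_ne_zero (by exact_mod_cast hn.ne')⟩, ?_⟩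
  simpa using ht

theorem nh_torsion {Γ : Type*} [Group Γ] [Group.FG Γ]
    (h1 : ∀ t : Γ, (∃ n : ℕ, 0 < n ∧ t ^ n = 1) → ∀ g : Γ, t * g = g * t)
    (h2 : ∀ t ∈ commutator Γ, (∃ n : ℕ, 0 < n ∧ t ^ n = 1) → t = 1) :
    {t : Γ | ∃ n : ℕ, 0 < n ∧ t ^ n = 1}.Finite := by
  have : Group.FG (Abelianization Γ) := by unfold Abelianization; infer_instance
  have hfin := nil_tor_finite (Additive (Abelianization Γ))
  refine Set.Finite.of_finite_image (f := fun t => Additive.ofMul (Abelianization.of t)) (hfin.subset ?_) ?_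
  · rintro _ ⟨t, ⟨n, hn, ht⟩, rfl⟩
    refine ⟨n, hn, ?_⟩
    show Additive.ofMul ((Abelianization.of t) ^ n) = 0
    rw [← map_pow, ht, map_one]
    rfl
  · rintro t ⟨n, hn, ht⟩ t' ⟨n', hn', ht'⟩ h
    have h' : Abelianization.of t = Abelianization.of t' := Additive.ofMul.injective h
    have hcomm : t⁻¹ * t' ∈ commutator Γ := by
      have := QuotientGroup.eq.1 h'
      exact this
    have := h2 _ hcomm ⟨n * n', Nat.mul_pos hn hn', by
      have hc : Commute t⁻¹ t' := (show Commute t t' from h1 t ⟨n, hn, ht⟩ t').inv_left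
      rw [hc.mul_pow, inv_pow, pow_mul, ht, one_pow, inv_one, one_mul, mul_comm n n', pow_mul, ht', one_pow]⟩
    exact (inv_mul_eq_one.1 this)

end SV
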