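import Mathlib
import Pool.Agent.Helper43.NH.Nil

/-! Project NH, module NH2: a common eigenvector of a subgroup of finite index of a nilpotent group. -/

namespace SV

section eigen

variable {G W : Type*} [Group G] [AddCommGroup W] [Module ℂ W]

/-- The elements that act by scalars. -/
def eigS (ρ : G →* (W →ₗ[ℂ] W)) : Subgroup G where
  carrier := {g | ∃ c : ℂ, ρ g = c • 1}
  one_mem' := ⟨1, by rw [map_one, one_smul]⟩
  mul_mem' := by
    rintro g h ⟨c, hc⟩ ⟨e, he⟩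
    refine ⟨c * e, ?_⟩
    rw [map_mul, hc, he, smul_mul_smul_comm, one_mul]
  inv_mem' := by
    rintro g ⟨c, hc⟩
    rcases subsingleton_or_nontrivial W with h | h
    · exact ⟨0, Subsingleton.elim _ _⟩
    · have h1 : ρ g * ρ g⁻¹ = 1 := by rw [← map_mul, mul_inv_cancel, map_one]
      rw [hc, smul_mul_assoc, one_mul] at h1
      have hc0 : c ≠ 0 := by
        rintro rfl
        rw [zero_smul] at h1
        exact zero_ne_one h1
      refine ⟨c⁻¹, ?_⟩
      rw [← h1, smul_smul, inv_mul_cancel₀ hc0, one_smul]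

theorem eig_mem (ρ : G →* (W →ₗ[ℂ] W)) (g : G) : g ∈ eigS ρ ↔ ∃ c : ℂ, ρ g = c • 1 := Iff.rfl

instance eig_normal (ρ : G →* (W →ₗ[ℂ] W)) : (eigS ρ).Normal := by
  constructor
  rintro n ⟨c, hc⟩ g
  refine ⟨c, ?_⟩
  rw [map_mul, map_mul, hc, mul_smul_comm, mul_one, smul_mul_assoc, ← map_mul, mul_inv_cancel,
    map_one]

theorem eig_schur [FiniteDimensional ℂ W] [Nontrivial W] (ρ : G →* (W →ₗ[ℂ] W))
    (hirr : ∀ U : Submodule ℂ W, (∀ g, ∀ w ∈ U, ρ g w ∈ U) → U = ⊥ ∨ U = ⊤)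
    (f : W →ₗ[ℂ] W) (hf : ∀ g, f * ρ g = ρ g * f) : ∃ c : ℂ, f = c • 1 := by
  obtain ⟨c, hc⟩ := Module.End.exists_eigenvalue f
  refine ⟨c, ?_⟩
  have h1 := hirr (Module.End.eigenspace f c) (by
    intro g w hw
    rw [Module.End.mem_eigenspace_iff] at hw ⊢
    have h2 : f (ρ g w) = ρ g (f w) := by
      have := congrArg (fun t : W →ₗ[ℂ] W => t w) (hf g)
      exact this
    rw [h2, hw, map_smul])
  rcases h1 with h1 | h1
  · exact absurd h1 hc
  · ext w
    have hw : w ∈ Module.End.eigenspace f c := by rw [h1]; exact Submodule.mem_top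
    rw [Module.End.mem_eigenspace_iff] at hw
    rw [hw]
    rfl

theorem eig_center [FiniteDimensional ℂ W] [Nontrivial W] (ρ : G →* (W →ₗ[ℂ] W))
    (hirr : ∀ U : Submodule ℂ W, (∀ g, ∀ w ∈ U, ρ g w ∈ U) → U = ⊥ ∨ U = ⊤)
    (z : G ⧸ eigS ρ) (hz : z ∈ Subgroup.center (G ⧸ eigS ρ)) : z ^ Module.finrank ℂ W = 1 := by
  obtain ⟨g, rfl⟩ := QuotientGroup.mk_surjective z
  have hdet : ∀ x : G, LinearMap.det (ρ x) ≠ 0 := by
    intro x hx
    have h1 : ρ x * ρ x⁻¹ = 1 := by rw [← map_mul, mul_inv_cancel, map_one]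
    have h2 := congrArg LinearMap.det h1
    rw [map_mul, hx, zero_mul, map_one] at h2
    exact zero_ne_one h2
  have hcomm : ∀ h : G, ∃ c : ℂ, c ^ Module.finrank ℂ W = 1 ∧ ρ g * ρ h = c • (ρ h * ρ g) := by
    intro h
    have h1 := Subgroup.mem_center_iff.1 hz (h : G ⧸ eigS ρ)
    have h2 : ((h * g : G) : G ⧸ eigS ρ) = ((g * h : G) : G ⧸ eigS ρ) := h1
    rw [QuotientGroup.eq] at h2
    obtain ⟨c, hc⟩ := h2
    have h3 : ρ g * ρ h = c • (ρ h * ρ g) := by
      have h4 : g * h = h * g * ((h * g)⁻¹ * (g * h)) := by group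
      rw [← map_mul, h4, map_mul, hc, mul_smul_comm, mul_one, map_mul]
    refine ⟨c, ?_, h3⟩
    have h5 := congrArg LinearMap.det h3
    rw [map_mul, LinearMap.det_smul, map_mul] at h5
    have h6 : LinearMap.det (ρ h) * LinearMap.det (ρ g) ≠ 0 := mul_ne_zero (hdet h) (hdet g)
    have h7 : (c ^ Module.finrank ℂ W - 1) * (LinearMap.det (ρ h) * LinearMap.det (ρ g)) = 0 := by
      rw [sub_mul, ← h5]
      ring
    rcases mul_eq_zero.1 h7 with h8 | h8
    · exact sub_eq_zero.1 h8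
    · exact absurd h8 h6
  have hpow : ∀ (h : G) (c : ℂ), ρ g * ρ h = c • (ρ h * ρ g) → ∀ k : ℕ,
      ρ g ^ k * ρ h = c ^ k • (ρ h * ρ g ^ k) := by
    intro h c hc k
    induction k with
    | zero => simp
    | succ k ih =>
      rw [pow_succ, mul_assoc, hc, mul_smul_comm, ← mul_assoc, ih, smul_mul_assoc, smul_smul,
        mul_assoc, ← pow_succ' c k]
  have hsc : ∃ c : ℂ, ρ g ^ Module.finrank ℂ W = c • 1 := by
    apply eig_schur ρ hirr
    intro h
    obtain ⟨c, hc1, hc2⟩ := hcomm h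
    rw [hpow h c hc2, hc1, one_smul]
  rw [← QuotientGroup.mk_pow, QuotientGroup.eq_one_iff, eig_mem, map_pow]
  exact hsc

theorem eig_irr [FiniteDimensional ℂ W] [Nontrivial W] [Group.FG G] [Group.IsNilpotent G]
    (ρ : G →* (W →ₗ[ℂ] W))
    (hirr : ∀ U : Submodule ℂ W, (∀ g, ∀ w ∈ U, ρ g w ∈ U) → U = ⊥ ∨ U = ⊤) :
    (eigS ρ).FiniteIndex := by
  have hd : 0 < Module.finrank ℂ W := Module.finrank_pos
  obtain ⟨N, hN, hN'⟩ := nh_exp_of_center (Q := G ⧸ eigS ρ) (Module.finrank ℂ W) hd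
    (fun z hz => eig_center ρ hirr z hz)
  have : Finite (G ⧸ eigS ρ) := nh_finite (fun q => ⟨N, hN, hN' q⟩)
  exact Subgroup.finiteIndex_of_finite_quotient

end eigen

theorem nh_eigen {G W : Type*} [Group G] [Group.FG G] [Group.IsNilpotent G] [AddCommGroup W] [Module ℂ W]
    [FiniteDimensional ℂ W] [Nontrivial W] (ρ : G →* (W →ₗ[ℂ] W)) :
    ∃ H : Subgroup G, H.FiniteIndex ∧ ∃ v : W, v ≠ 0 ∧ ∀ h ∈ H, ∃ c : ℂ, ρ h v = c • v := by
  classical
  -- a minimal invariant subspace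
  have hex : ∃ n : ℕ, ∃ U : Submodule ℂ W, U ≠ ⊥ ∧ (∀ g, ∀ w ∈ U, ρ g w ∈ U) ∧
      Module.finrank ℂ U = n := ⟨_, ⊤, top_ne_bot, fun _ _ _ => Submodule.mem_top, rfl⟩
  obtain ⟨U, hU, hUi, hUn⟩ := Nat.find_spec hex
  have hmin : ∀ U' : Submodule ℂ W, U' ≠ ⊥ → (∀ g, ∀ w ∈ U', ρ g w ∈ U') → U' ≤ U → U' = U := by
    intro U' h1 h2 h3
    apply Submodule.eq_of_le_of_finrank_le h3
    rw [hUn]
    exact Nat.find_min' hex ⟨U', h1, h2, rfl⟩
  have hnt : Nontrivial U := Submodule.nontrivial_iff_ne_bot.2 hU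
  let ρ0 : G →* (U →ₗ[ℂ] U) :=
    { toFun := fun g => (ρ g).restrict (hUi g)
      map_one' := by
        ext w
        simp [LinearMap.restrict_apply]
      map_mul' := by
        intro g h
        ext w
        simp [LinearMap.restrict_apply] }
  have hirr : ∀ V : Submodule ℂ U, (∀ g, ∀ w ∈ V, ρ0 g w ∈ V) → V = ⊥ ∨ V = ⊤ := by
    intro V hV
    by_cases hb : V = ⊥
    · exact Or.inl hb
    · right
      have h1 : V.map U.subtype = U := by
        apply hmin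
        · intro h
          apply hb
          rw [Submodule.eq_bot_iff]
          intro x hx
          have h2 : (x : W) ∈ V.map U.subtype := ⟨x, hx, rfl⟩
          rw [h, Submodule.mem_bot] at h2
          exact Subtype.ext h2
        · rintro g w ⟨x, hx, rfl⟩
          exact ⟨ρ0 g x, hV g x hx, rfl⟩
        · exact Submodule.map_subtype_le U V
      rw [eq_top_iff]
      intro x _
      have h2 : (x : W) ∈ V.map U.subtype := by rw [h1]; exact x.2
      obtain ⟨y, hy, hxy⟩ := h2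
      have : y = x := Subtype.ext hxy
      rwa [← this]
  refine ⟨eigS ρ0, eig_irr ρ0 hirr, ?_⟩
  obtain ⟨v, hv⟩ := exists_ne (0 : U)
  refine ⟨v, fun h => hv (Subtype.ext h), ?_⟩
  rintro h ⟨c, hc⟩
  refine ⟨c, ?_⟩
  have h1 : ρ0 h v = c • v := by rw [hc]; rfl
  exact congrArg Subtype.val h1

end SV
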