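import Pool.Agent.Helper43.NH.Defs

/-! Exponentials in noncommutative finite-dimensional algebras: basic lemmas for project NH. -/

namespace SV

open Filter Topology

section

variable {A : Type*} [NormedRing A] [NormedAlgebra ℝ A] [CompleteSpace A]

theorem nx_add {x y : A} (h : Commute x y) : NormedSpace.exp (x + y) = NormedSpace.exp x * NormedSpace.exp y := by
  let : NormedAlgebra ℚ A := NormedAlgebra.restrictScalars ℚ ℝ A
  exact NormedSpace.exp_add_of_commute h

theorem nx_mul_neg (x : A) : NormedSpace.exp x * NormedSpace.exp (-x) = 1 := by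
  rw [← nx_add ((Commute.refl x).neg_right), add_neg_cancel, NormedSpace.exp_zero]

theorem nx_neg_mul (x : A) : NormedSpace.exp (-x) * NormedSpace.exp x = 1 := by
  rw [← nx_add ((Commute.refl x).neg_left), neg_add_cancel, NormedSpace.exp_zero]

theorem nx_continuous : Continuous (NormedSpace.exp : A → A) := by
  let : NormedAlgebra ℚ A := NormedAlgebra.restrictScalars ℚ ℝ A
  exact NormedSpace.exp_continuous

theorem nx_hasSum (x : A) : HasSum (fun n : ℕ => ((n.factorial : ℝ)⁻¹) • x ^ n) (NormedSpace.exp x) :=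
  NormedSpace.exp_series_hasSum_exp' (𝕂 := ℝ) x

theorem nx_comm {x y : A} (h : x * y = y * x) : NormedSpace.exp x * y = y * NormedSpace.exp x := by
  have h1 := (nx_hasSum x).mul_right y
  have h2 := (nx_hasSum x).mul_left y
  have h3 : (fun n : ℕ => ((n.factorial : ℝ)⁻¹) • x ^ n * y) = fun n : ℕ => y * ((n.factorial : ℝ)⁻¹) • x ^ n := by
    funext n
    rw [smul_mul_assoc, mul_smul_comm]
    congr 1
    exact ((show Commute x y from h).pow_left n).eq
  rw [h3] at h1
  exact h1.unique h2

/-- exponentials of elements of a closed left ideal -/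
theorem nx_sub_one_mem [FiniteDimensional ℝ A] (J : Submodule ℝ A) (hJ : ∀ a : A, ∀ j ∈ J, a * j ∈ J ∧ j * a ∈ J) {j : A} (hj : j ∈ J) :
    NormedSpace.exp j - 1 ∈ J := by
  have hcl : IsClosed (J : Set A) := Submodule.closed_of_finiteDimensional _
  have h1 := (hasSum_nat_add_iff' 1).2 (nx_hasSum j)
  simp only [Finset.range_one, Finset.sum_singleton, Nat.factorial_zero, Nat.cast_one, inv_one, pow_zero, one_smul] at h1
  have h2 : ∀ s : Finset ℕ, ∑ n ∈ s, ((((n + 1).factorial : ℕ) : ℝ)⁻¹) • j ^ (n + 1) ∈ J := by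
    intro s
    refine Submodule.sum_mem _ (fun n _ => Submodule.smul_mem _ _ ?_)
    rw [pow_succ]
    exact (hJ (j ^ n) j hj).1
  exact hcl.mem_of_tendsto h1 (Filter.Eventually.of_forall (fun s => h2 s))

theorem nx_unit (x : A) : IsUnit (NormedSpace.exp x) :=
  ⟨⟨NormedSpace.exp x, NormedSpace.exp (-x), nx_mul_neg x, nx_neg_mul x⟩, rfl⟩

variable {V : Type*} [NormedAddCommGroup V] [NormedSpace ℝ V] [FiniteDimensional ℝ A] (T : A →ₐ[ℝ] (V →L[ℝ] V))

omit [CompleteSpace A] in
theorem nx_T_cont : Continuous T := LinearMap.continuous_of_finiteDimensional T.toLinearMap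

theorem nx_T_zero (a : A) (v : V) (h : T a v = 0) : T (NormedSpace.exp a) v = v := by
  let L : A →L[ℝ] V := ⟨(LinearMap.applyₗ' ℝ v).comp ((ContinuousLinearMap.coeLM ℝ).comp T.toLinearMap),
    LinearMap.continuous_of_finiteDimensional _⟩
  have hL : ∀ a, L a = T a v := fun a => rfl
  have h2 := L.hasSum (nx_hasSum a)
  simp only [map_smul, hL] at h2
  have h3 : ∀ n : ℕ, n ∉ Finset.range 1 → ((n.factorial : ℝ)⁻¹) • (T (a ^ n) v) = 0 := by
    intro n hn
    rw [Finset.mem_range, not_lt] at hn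
    obtain ⟨m, rfl⟩ := Nat.exists_eq_add_of_le' hn
    rw [pow_succ, map_mul, mul_apply_eq_comp, h, map_zero, smul_zero]
  have h4 : HasSum (fun n : ℕ => ((n.factorial : ℝ)⁻¹) • (T (a ^ n) v))
      (∑ n ∈ Finset.range 1, ((n.factorial : ℝ)⁻¹) • (T (a ^ n) v)) := hasSum_sum_of_ne_finset_zero h3
  rw [h2.unique h4]
  simp

end

/-- the exponential of a subalgebra -/
theorem nx_coe {A : Type*} [NormedRing A] [NormedAlgebra ℝ A] [CompleteSpace A] [FiniteDimensional ℝ A] (B : Subalgebra ℝ A) (b : B) :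
    ((NormedSpace.exp b : B) : A) = NormedSpace.exp (b : A) := by
  have hBc : CompleteSpace B := FiniteDimensional.complete ℝ B
  let L : B →L[ℝ] A := ⟨B.val.toLinearMap, LinearMap.continuous_of_finiteDimensional _⟩
  have hL : ∀ b, L b = (b : A) := fun b => rfl
  have h2 := L.hasSum (nx_hasSum b)
  simp only [hL] at h2
  exact h2.unique (nx_hasSum (b : A))

end SV
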