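import Pool.Agent.Helper43.NH.Eigen

/-! NH3: an invariant flag with scalar quotients for a finite index subgroup. -/

namespace SV

theorem flag_aux : ∀ (n : ℕ) {G W : Type*} [Group G] [Group.FG G] [Group.IsNilpotent G] [AddCommGroup W] [Module ℂ W]
    [FiniteDimensional ℂ W] (ρ : G →* (W →ₗ[ℂ] W)), Module.finrank ℂ W = n →
    ∃ H : Subgroup G, H.FiniteIndex ∧ ∃ F : ℕ → Submodule ℂ W, F 0 = ⊥ ∧ F n = ⊤ ∧ Monotone F ∧
      ∀ h ∈ H, ∀ i, ∃ c : ℂ, ∀ w ∈ F (i + 1), ρ h w - c • w ∈ F i
  | 0, G, W, _, _, _, _, _, _, ρ, hn => by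
    have : Subsingleton W := Module.finrank_zero_iff.1 hn
    refine ⟨⊤, inferInstance, fun _ => ⊥, rfl, Subsingleton.elim _ _, monotone_const, fun h _ i => ⟨0, fun w _ => ?_⟩⟩
    rw [Subsingleton.elim (ρ h w - (0 : ℂ) • w) 0]
    exact Submodule.zero_mem _
  | n + 1, G, W, _, _, _, _, _, _, ρ, hn => by
    have : Nontrivial W := Module.nontrivial_of_finrank_pos (R := ℂ) (by omega)
    obtain ⟨H, hH, v, hv, hvH⟩ := nh_eigen ρ
    have : H.FiniteIndex := hH
    have : Group.FG H := Subgroup.fg_of_index_ne_zero H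
    set L : Submodule ℂ W := Submodule.span ℂ {v} with hL
    have hinv : ∀ h : H, L ≤ L.comap (ρ h) := by
      intro h
      rw [hL, Submodule.span_le, Set.singleton_subset_iff]
      obtain ⟨c, hc⟩ := hvH h h.2
      show ρ h v ∈ Submodule.span ℂ {v}
      rw [hc]
      exact Submodule.smul_mem _ _ (Submodule.mem_span_singleton_self v)
    let ρ' : H →* ((W ⧸ L) →ₗ[ℂ] (W ⧸ L)) :=
      { toFun := fun h => L.mapQ L (ρ h) (hinv h)
        map_one' := by
          ext w
          simp
        map_mul' := by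
          intro a b
          ext w
          simp }
    have hdim : Module.finrank ℂ (W ⧸ L) = n := by
      have h1 := Submodule.finrank_quotient_add_finrank L
      rw [hL, finrank_span_singleton hv] at h1
      rw [hL]
      omega
    obtain ⟨H₂, hH₂, F', hF0, hFn, hFm, hF⟩ := flag_aux n ρ' hdim
    have hidx : (H₂.map H.subtype).FiniteIndex := by
      constructor
      rw [Subgroup.index_map_subtype]
      exact mul_ne_zero hH₂.index_ne_zero hH.index_ne_zero
    refine ⟨H₂.map H.subtype, hidx, fun i => Nat.casesOn i ⊥ (fun j => (F' j).comap L.mkQ), rfl, ?_, ?_, ?_⟩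
    · show (F' n).comap L.mkQ = ⊤
      rw [hFn, Submodule.comap_top]
    · apply monotone_nat_of_le_succ
      intro i
      cases i with
      | zero => exact bot_le
      | succ i => exact Submodule.comap_mono (hFm (Nat.le_succ i))
    · rintro _ ⟨h, hh, rfl⟩ i
      cases i with
      | zero =>
        obtain ⟨c, hc⟩ := hvH h h.2
        refine ⟨c, fun w hw => ?_⟩
        have hw' : w ∈ L := by
          have h1 : L.mkQ w ∈ F' 0 := hw
          rw [hF0, Submodule.mem_bot] at h1
          simpa using h1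
        rw [hL, Submodule.mem_span_singleton] at hw'
        obtain ⟨a, rfl⟩ := hw'
        show ρ h (a • v) - c • a • v ∈ (⊥ : Submodule ℂ W)
        rw [map_smul, hc, smul_comm, sub_self]
        exact Submodule.zero_mem _
      | succ i =>
        obtain ⟨c, hc⟩ := hF h hh i
        refine ⟨c, fun w hw => ?_⟩
        have h1 := hc (L.mkQ w) hw
        show L.mkQ (ρ h w - c • w) ∈ F' i
        rw [map_sub, map_smul]
        exact h1

theorem nh_flag {G W : Type*} [Group G] [Group.FG G] [Group.IsNilpotent G] [AddCommGroup W] [Module ℂ W]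
    [FiniteDimensional ℂ W] (ρ : G →* (W →ₗ[ℂ] W)) :
    ∃ H : Subgroup G, H.FiniteIndex ∧ ∃ F : ℕ → Submodule ℂ W, F 0 = ⊥ ∧ F (Module.finrank ℂ W) = ⊤ ∧ Monotone F ∧
      ∀ h ∈ H, ∀ i, ∃ c : ℂ, ∀ w ∈ F (i + 1), ρ h w - c • w ∈ F i :=
  flag_aux _ ρ rfl

end SV
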