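import Mathlib

/-! NH5: Jordan decomposition in an algebra with nilpotent adjoint action. -/

namespace SV

open Polynomial

theorem nhJordan_aeval_mulRight {A : Type*} [Ring A] [Algebra ℝ A] (a : A) (p : Polynomial ℝ) (b : A) :
    (aeval (LinearMap.mulRight ℝ a) p) b = b * aeval a p := by
  induction p using Polynomial.induction_on' with
  | add p q hp hq =>
    rw [map_add, LinearMap.add_apply, hp, hq, map_add, mul_add]
  | monomial n r =>
    rw [aeval_monomial, aeval_monomial]
    have h : ∀ c : A, ((LinearMap.mulRight ℝ a) ^ n) c = c * a ^ n := by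
      intro c
      rw [LinearMap.pow_mulRight]
      rfl
    rw [Module.End.mul_apply, h, Module.algebraMap_end_apply, ← Algebra.smul_def, mul_smul_comm]

theorem nh_central {A : Type*} [Ring A] [Algebra ℝ A] [FiniteDimensional ℝ A]
    (had : ∃ m : ℕ, ∀ a b : A, (fun x => a * x - x * a)^[m] b = 0) (a : A) (p : Polynomial ℝ) (hp : Squarefree p)
    (ha : Polynomial.aeval a p = 0) (b : A) : a * b = b * a := by
  obtain ⟨m, hm⟩ := had
  set L : Module.End ℝ A := Algebra.lmul ℝ A a with hL
  set R : Module.End ℝ A := LinearMap.mulRight ℝ a with hR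
  have hLs : L.IsSemisimple := by
    refine Module.End.isSemisimple_of_squarefree_aeval_eq_zero hp ?_
    rw [hL, Polynomial.aeval_algHom_apply, ha, map_zero]
  have hRs : R.IsSemisimple := by
    refine Module.End.isSemisimple_of_squarefree_aeval_eq_zero hp ?_
    ext c
    rw [hR, nhJordan_aeval_mulRight, ha, mul_zero]
    rfl
  have hcomm : Commute L R := by
    ext c
    simp [hL, hR, mul_assoc]
  have hs := Module.End.IsSemisimple.sub_of_commute hcomm hLs hRs
  have hn : IsNilpotent (L - R) := by
    refine ⟨m, ?_⟩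
    ext c
    rw [Module.End.pow_apply]
    have h : (⇑(L - R) : A → A) = fun x => a * x - x * a := by
      funext x
      simp [hL, hR]
    rw [h, hm]
    rfl
  have h0 : L - R = 0 := Module.End.eq_zero_of_isNilpotent_isSemisimple hn hs
  have h1 : (L - R) b = 0 := by rw [h0]; rfl
  have h2 : a * b - b * a = 0 := by simpa [hL, hR] using h1
  exact sub_eq_zero.1 h2

theorem nh_jordan {A : Type*} [Ring A] [Algebra ℝ A] [FiniteDimensional ℝ A]
    (had : ∃ m : ℕ, ∀ a b : A, (fun x => a * x - x * a)^[m] b = 0) (a : A) :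
    ∃ s n : A, a = s + n ∧ IsNilpotent n ∧ ∀ b, s * b = b * s := by
  have hinj : Function.Injective (Algebra.lmul ℝ A) := Algebra.lmul_injective
  obtain ⟨n, hn, s, hs, hnn, hss, hf⟩ :=
    Module.End.exists_isNilpotent_isSemisimple (f := Algebra.lmul ℝ A a)
  rw [← AlgHom.map_adjoin_singleton] at hn hs
  obtain ⟨n', -, rfl⟩ := hn
  obtain ⟨s', -, rfl⟩ := hs
  refine ⟨s', n', ?_, ?_, ?_⟩
  · apply hinj
    rw [map_add, add_comm]
    exact hf
  · obtain ⟨k, hk⟩ := hnn
    refine ⟨k, hinj ?_⟩
    rw [map_pow, map_zero]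
    exact hk
  · refine nh_central had s' (minpoly ℝ (Algebra.lmul ℝ A s')) ?_ ?_
    · exact hss.minpoly_squarefree
    · apply hinj
      rw [← Polynomial.aeval_algHom_apply, minpoly.aeval, map_zero]

end SV
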