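import Pool.Agent.Helper43.NH.Defs

/-! Project NH, module NH8 (main part): the action of central flows and unipotent lifts. -/

namespace SV

open Filter Topology

section ntheta

variable {n : ℕ} {M G A : Type*} [TopologicalSpace M] [T2Space M] [ConnectedSpace M] [Group G] [MulAction G M]
    [ContinuousConstSMul G M] [NormedRing A] [NormedAlgebra ℝ A] [CompleteSpace A] [FiniteDimensional ℝ A]
    {T : A →ₐ[ℝ] (VV n →L[ℝ] VV n)} {eps : A →ₐ[ℝ] ℝ} {gg : G →* A} {dev : M → (Fin n → ℝ)} {K : Set M}
    {J : Submodule ℝ A}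

omit [FiniteDimensional ℝ A] in
theorem ntheta_exp_add {x y : A} (h : x * y = y * x) :
    NormedSpace.exp (x + y) = NormedSpace.exp x * NormedSpace.exp y := by
  let : NormedAlgebra ℚ A := NormedAlgebra.restrictScalars ℚ ℝ A
  exact NormedSpace.exp_add_of_commute h

omit [FiniteDimensional ℝ A] in
theorem ntheta_exp_cont : Continuous (NormedSpace.exp : A → A) := by
  let : NormedAlgebra ℚ A := NormedAlgebra.restrictScalars ℚ ℝ A
  exact NormedSpace.exp_continuous

omit [CompleteSpace A] [NormedAlgebra ℝ A] [FiniteDimensional ℝ A] in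
theorem ntheta_exp_comm {x b : A} (h : x * b = b * x) :
    NormedSpace.exp x * b = b * NormedSpace.exp x := by
  have h1 : Commute x b := h
  exact (h1.exp_left).eq

theorem ntheta_eps_exp (eps : A →ₐ[ℝ] ℝ) (a : A) (h : eps a = 0) : eps (NormedSpace.exp a) = 1 := by
  let : NormedAlgebra ℚ A := NormedAlgebra.restrictScalars ℚ ℝ A
  have hc : Continuous eps := LinearMap.continuous_of_finiteDimensional eps.toLinearMap
  have h1 := NormedSpace.map_exp eps hc a
  rw [h1, h, NormedSpace.exp_zero]

theorem ntheta_main (D : NHD T eps gg dev K J) (Ψ : C(J × M, M)) (hΨ0 : ∀ x, Ψ (0, x) = x)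
    (hΨ : ∀ (j : J) x, ((dev (Ψ (j, x)), (1 : ℝ)) : VV n) = T (1 + (j : A)) (dev x, 1)) :
    ∃ (C : Submodule ℝ A) (Θ : A → A → M → M), NHT T eps gg dev J C Θ := by
  classical
  have hTc : Continuous T := LinearMap.continuous_of_finiteDimensional T.toLinearMap
  have hexpc : Continuous (NormedSpace.exp : A → A) := ntheta_exp_cont
  let C : Submodule ℝ A := (Subalgebra.center ℝ A).toSubmodule ⊓ LinearMap.ker eps.toLinearMap
  have hC : ∀ Z, Z ∈ C ↔ ((∀ b, Z * b = b * Z) ∧ eps Z = 0) := by
    intro Z
    show (Z ∈ (Subalgebra.center ℝ A).toSubmodule ∧ Z ∈ LinearMap.ker eps.toLinearMap) ↔ _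
    rw [Subalgebra.mem_toSubmodule, Subalgebra.mem_center_iff, LinearMap.mem_ker]
    constructor
    · rintro ⟨h1, h2⟩
      exact ⟨fun b => (h1 b).symm, h2⟩
    · rintro ⟨h1, h2⟩
      exact ⟨fun b => (h1 b).symm, h2⟩
  have hCc : ∀ Z : C, ∀ b, (Z : A) * b = b * Z := fun Z => ((hC Z).1 Z.2).1
  have hCe : ∀ Z : C, eps (Z : A) = 0 := fun Z => ((hC Z).1 Z.2).2
  have hmulT : ∀ (a b : A) (v : VV n), T (a * b) v = T a (T b v) := by
    intro a b v
    rw [map_mul]; rfl
  have hgg : ∀ g : G, eps (gg g) = 1 := by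
    intro g
    obtain ⟨x⟩ : Nonempty M := ConnectedSpace.toNonempty
    have h1 := congrArg Prod.snd (D.hgd g x)
    rw [D.heps] at h1
    simpa using h1
  let hol : G → (Fin n → ℝ) → (Fin n → ℝ) := fun g p => (T (gg g) (p, 1)).1
  have hT : ∀ g p, T (gg g) (p, 1) = (hol g p, 1) := by
    intro g p
    refine Prod.ext rfl ?_
    rw [D.heps, hgg, one_mul]
  have hhol : ∀ g x, dev (g • x) = hol g (dev x) := by
    intro g x
    exact (congrArg Prod.fst (D.hgd g x)).symm
  let act : C → (Fin n → ℝ) → (Fin n → ℝ) := fun X p => (T (NormedSpace.exp (X : A)) (p, 1)).1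
  have hact1 : ∀ (X : C) p, T (NormedSpace.exp (X : A)) (p, 1) = (act X p, 1) := by
    intro X p
    refine Prod.ext rfl ?_
    rw [D.heps, ntheta_eps_exp eps _ (hCe X), one_mul]
  have hact : Continuous (fun z : C × (Fin n → ℝ) => act z.1 z.2) := by
    refine continuous_fst.comp (Continuous.clm_apply ?_ ?_)
    · exact hTc.comp (hexpc.comp (continuous_subtype_val.comp continuous_fst))
    · exact continuous_snd.prodMk continuous_const
  have h0 : ∀ p, act 0 p = p := by
    intro p
    show (T (NormedSpace.exp ((0 : C) : A)) (p, 1)).1 = p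
    rw [Submodule.coe_zero, NormedSpace.exp_zero, map_one]
    rfl
  have hadd : ∀ (X Y : C) p, act (X + Y) p = act X (act Y p) := by
    intro X Y p
    show (T (NormedSpace.exp ((X + Y : C) : A)) (p, 1)).1 = (T (NormedSpace.exp (X : A)) (act Y p, 1)).1
    rw [Submodule.coe_add, ntheta_exp_add (hCc X _), hmulT, hact1]
  have hcomm : ∀ (g : G) (X : C) p, hol g (act X p) = act X (hol g p) := by
    intro g X p
    have h1 : T (gg g * NormedSpace.exp (X : A)) (p, 1) = (hol g (act X p), 1) := by
      rw [hmulT, hact1, hT]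
    have h2 : T (gg g * NormedSpace.exp (X : A)) (p, 1) = (act X (hol g p), 1) := by
      rw [← ntheta_exp_comm (hCc X _), hmulT, hT, hact1]
    have h3 : ((hol g (act X p), (1 : ℝ)) : VV n) = (act X (hol g p), 1) := h1.symm.trans h2
    exact (Prod.ext_iff.1 h3).1
  obtain ⟨Φ, hΦc, hΦ0, hΦa, hΦd, hΦg⟩ :=
    exists_flow dev D.hdev hol hhol K D.hK D.hcov act hact h0 hadd hcomm
  let Θ : A → A → M → M := fun Z j x =>
    if h : Z ∈ C ∧ j ∈ J then Φ ⟨Z, h.1⟩ (Ψ (⟨j, h.2⟩, x)) else x
  have hΘ : ∀ (Z : C) (j : J) x, Θ Z j x = Φ Z (Ψ (j, x)) := by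
    intro Z j x
    have h : (Z : A) ∈ C ∧ (j : A) ∈ J := ⟨Z.2, j.2⟩
    show (if h : (Z : A) ∈ C ∧ (j : A) ∈ J then Φ ⟨Z, h.1⟩ (Ψ (⟨j, h.2⟩, x)) else x) = _
    rw [dif_pos h]
  have hcont : Continuous (fun p : C × J × M => Θ p.1 p.2.1 p.2.2) := by
    have h1 : (fun p : C × J × M => Θ p.1 p.2.1 p.2.2) = fun p : C × J × M => Φ p.1 (Ψ (p.2.1, p.2.2)) := by
      funext p
      exact hΘ _ _ _
    rw [h1]
    exact hΦc.comp (continuous_fst.prodMk (Ψ.continuous.comp continuous_snd))
  have hdv : ∀ (Z : C) (j : J) x,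
      ((dev (Θ Z j x), (1 : ℝ)) : VV n) = T (NormedSpace.exp (Z : A) * (1 + (j : A))) (dev x, 1) := by
    intro Z j x
    rw [hΘ, hΦd, hmulT, ← hΨ, hact1]
  have hzero : ∀ x, Θ 0 0 x = x := by
    intro x
    have := hΘ 0 0 x
    rw [Submodule.coe_zero, Submodule.coe_zero] at this
    rw [this, hΦ0, hΨ0]
  -- continuity of paths
  have hpath : ∀ (Z : ℝ → C) (j : ℝ → J) (x : ℝ → M), Continuous Z → Continuous j → Continuous x →
      Continuous (fun s : ℝ => Θ (Z s) (j s) (x s)) := by
    intro Z j x h1 h2 h3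
    exact hcont.comp (h1.prodMk (h2.prodMk h3))
  refine ⟨C, Θ, hC, hcont, hzero, ?_, ?_, ?_⟩
  · intro Z hZ j hj x
    exact hdv ⟨Z, hZ⟩ ⟨j, hj⟩ x
  · intro Z hZ j hj Z' hZ' j' hj' x
    let z : C := ⟨Z, hZ⟩
    let z' : C := ⟨Z', hZ'⟩
    let w : J := ⟨j, hj⟩
    let w' : J := ⟨j', hj'⟩
    let ww : J := ⟨j * j', (D.hJ j j' hj').1⟩
    have key := lift_uniq D.hdev (B := ℝ)
      (fun s => Θ ((s • z : C) : A) ((s • w : J) : A) (Θ ((s • z' : C) : A) ((s • w' : J) : A) x))
      (fun s => Θ ((s • (z + z') : C) : A) ((s • w + s • w' + (s * s) • ww : J) : A) x)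
      (hpath _ _ _ (continuous_id.smul continuous_const) (continuous_id.smul continuous_const)
        (hpath _ _ _ (continuous_id.smul continuous_const) (continuous_id.smul continuous_const)
          continuous_const))
      (hpath _ _ _ (continuous_id.smul continuous_const)
        (((continuous_id.smul continuous_const).add (continuous_id.smul continuous_const)).add
          ((continuous_id.mul continuous_id).smul continuous_const)) continuous_const)
      (fun s => by
        have e1 := hdv (s • z) (s • w) (Θ ((s • z' : C) : A) ((s • w' : J) : A) x)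
        have e2 := hdv (s • z') (s • w') x
        have e3 := hdv (s • (z + z')) (s • w + s • w' + (s * s) • ww) x
        rw [e2, ← hmulT] at e1
        have e4 : NormedSpace.exp ((s • z : C) : A) * (1 + ((s • w : J) : A)) *
            (NormedSpace.exp ((s • z' : C) : A) * (1 + ((s • w' : J) : A))) =
            NormedSpace.exp ((s • (z + z') : C) : A) *
              (1 + ((s • w + s • w' + (s * s) • ww : J) : A)) := by
          have c1 : NormedSpace.exp ((s • (z + z') : C) : A) =
              NormedSpace.exp ((s • z : C) : A) * NormedSpace.exp ((s • z' : C) : A) := by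
            rw [smul_add, Submodule.coe_add]
            exact ntheta_exp_add (hCc (s • z) _)
          have c2 : (1 + ((s • w : J) : A)) * NormedSpace.exp ((s • z' : C) : A) =
              NormedSpace.exp ((s • z' : C) : A) * (1 + ((s • w : J) : A)) :=
            (ntheta_exp_comm (hCc (s • z') _)).symm
          have c3 : (1 + ((s • w : J) : A)) * (1 + ((s • w' : J) : A)) =
              1 + ((s • w + s • w' + (s * s) • ww : J) : A) := by
            have d1 : ((s • w : J) : A) = s • j := rfl
            have d2 : ((s • w' : J) : A) = s • j' := rfl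
            have d3 : ((s • w + s • w' + (s * s) • ww : J) : A) = s • j + s • j' + (s * s) • (j * j') := rfl
            rw [d1, d2, d3, mul_add, mul_one, add_mul, one_mul, smul_mul_smul_comm]
            abel
          rw [c1, ← c3]
          calc NormedSpace.exp ((s • z : C) : A) * (1 + ((s • w : J) : A)) *
              (NormedSpace.exp ((s • z' : C) : A) * (1 + ((s • w' : J) : A)))
              = NormedSpace.exp ((s • z : C) : A) * ((1 + ((s • w : J) : A)) *
                NormedSpace.exp ((s • z' : C) : A)) * (1 + ((s • w' : J) : A)) := by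
                simp only [mul_assoc]
            _ = _ := by
                rw [c2]
                simp only [mul_assoc]
        rw [e4, ← e3] at e1
        exact congrArg Prod.fst e1) 0 (by
        have z1 : ((((0:ℝ) • z : C)) : A) = 0 := by rw [zero_smul]; rfl
        have z2 : ((((0:ℝ) • z' : C)) : A) = 0 := by rw [zero_smul]; rfl
        have z3 : ((((0:ℝ) • (z + z') : C)) : A) = 0 := by rw [zero_smul]; rfl
        have w1 : ((((0:ℝ) • w : J)) : A) = 0 := by rw [zero_smul]; rfl
        have w2 : ((((0:ℝ) • w' : J)) : A) = 0 := by rw [zero_smul]; rfl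
        have w3 : (((0:ℝ) • w + (0:ℝ) • w' + ((0:ℝ) * 0) • ww : J) : A) = 0 := by
          rw [zero_smul, zero_smul, mul_zero, zero_smul, add_zero, add_zero]; rfl
        simp only [z1, z2, z3, w1, w2, w3, hzero])
    have h1 := congrFun key 1
    have z1 : ((((1:ℝ) • z : C)) : A) = Z := by rw [one_smul]
    have z2 : ((((1:ℝ) • z' : C)) : A) = Z' := by rw [one_smul]
    have z3 : ((((1:ℝ) • (z + z') : C)) : A) = Z + Z' := by rw [one_smul]; rfl
    have w1 : ((((1:ℝ) • w : J)) : A) = j := by rw [one_smul]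
    have w2 : ((((1:ℝ) • w' : J)) : A) = j' := by rw [one_smul]
    have w3 : (((1:ℝ) • w + (1:ℝ) • w' + ((1:ℝ) * 1) • ww : J) : A) = j + j' + j * j' := by
      rw [one_smul, one_smul, mul_one, one_smul]; rfl
    simp only [z1, z2, z3, w1, w2, w3] at h1
    exact h1
  · intro g Z hZ j hj x
    let z : C := ⟨Z, hZ⟩
    let w : J := ⟨j, hj⟩
    let w' : J := ⟨gg g * j * gg g⁻¹, (D.hJ (gg g⁻¹) _ ((D.hJ (gg g) j hj).1)).2⟩
    have hginv : gg g⁻¹ * gg g = 1 := by rw [← map_mul, inv_mul_cancel, map_one]
    have key := lift_uniq D.hdev (B := ℝ)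
      (fun s => g • Θ ((s • z : C) : A) ((s • w : J) : A) x)
      (fun s => Θ ((s • z : C) : A) ((s • w' : J) : A) (g • x))
      ((continuous_const_smul g).comp (hpath _ _ _ (continuous_id.smul continuous_const)
        (continuous_id.smul continuous_const) continuous_const))
      (hpath _ _ _ (continuous_id.smul continuous_const) (continuous_id.smul continuous_const)
        continuous_const)
      (fun s => by
        have e1 := hdv (s • z) (s • w) x
        have e2 := hdv (s • z) (s • w') (g • x)
        have e3 := D.hgd g (Θ ((s • z : C) : A) ((s • w : J) : A) x)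
        rw [e1, ← hmulT] at e3
        rw [← D.hgd, ← hmulT] at e2
        have e4 : gg g * (NormedSpace.exp ((s • z : C) : A) * (1 + ((s • w : J) : A))) =
            NormedSpace.exp ((s • z : C) : A) * (1 + ((s • w' : J) : A)) * gg g := by
          have c1 : gg g * NormedSpace.exp ((s • z : C) : A) = NormedSpace.exp ((s • z : C) : A) * gg g :=
            (ntheta_exp_comm (hCc (s • z) _)).symm
          have d1 : ((s • w : J) : A) = s • j := rfl
          have d2 : ((s • w' : J) : A) = s • (gg g * j * gg g⁻¹) := rfl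
          have c2 : gg g * (1 + ((s • w : J) : A)) = (1 + ((s • w' : J) : A)) * gg g := by
            rw [d1, d2, mul_add, add_mul, mul_one, one_mul, smul_mul_assoc, mul_assoc, mul_assoc,
              hginv, mul_one, mul_smul_comm]
          rw [← mul_assoc, c1, mul_assoc, c2, mul_assoc]
        rw [e4, ← e2] at e3
        exact (congrArg Prod.fst e3).symm) 0 (by
        have z1 : ((((0:ℝ) • z : C)) : A) = 0 := by rw [zero_smul]; rfl
        have w1 : ((((0:ℝ) • w : J)) : A) = 0 := by rw [zero_smul]; rfl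
        have w2 : ((((0:ℝ) • w' : J)) : A) = 0 := by rw [zero_smul]; rfl
        simp only [z1, w1, w2, hzero])
    have h1 := congrFun key 1
    have z1 : ((((1:ℝ) • z : C)) : A) = Z := by rw [one_smul]
    have w1 : ((((1:ℝ) • w : J)) : A) = j := by rw [one_smul]
    have w2 : ((((1:ℝ) • w' : J)) : A) = gg g * j * gg g⁻¹ := by rw [one_smul]
    simp only [z1, w1, w2] at h1
    exact h1

omit [T2Space M] [ConnectedSpace M] [ContinuousConstSMul G M] [CompleteSpace A]
  [FiniteDimensional ℝ A] in
theorem ntheta_hJ2 (D : NHD T eps gg dev K J) : ∀ j ∈ J, ∀ v : VV n, (T j v).2 = 0 := by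
  intro j hj v
  have h1 : IsNilpotent (eps j) := ((D.hJn j).1 hj).map eps
  rw [D.heps, h1.eq_zero, zero_mul]

end ntheta

end SV
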