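import Pool.Agent.Helper43.NH.Lift
import Pool.Agent.Helper43.NH.NThetaMain

/-! Project NH, module NH8: the action of central flows and of the unipotent group. -/

namespace SV

open Filter Topology

section ntheta_final

variable {n : ℕ} {M G A : Type*} [TopologicalSpace M] [T2Space M] [ConnectedSpace M] [Group G] [MulAction G M]
    [ContinuousConstSMul G M] [NormedRing A] [NormedAlgebra ℝ A] [CompleteSpace A] [FiniteDimensional ℝ A]
    {T : A →ₐ[ℝ] (VV n →L[ℝ] VV n)} {eps : A →ₐ[ℝ] ℝ} {gg : G →* A} {dev : M → (Fin n → ℝ)} {K : Set M}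
    {J : Submodule ℝ A}

theorem nh_theta (D : NHD T eps gg dev K J) : ∃ (C : Submodule ℝ A) (Θ : A → A → M → M), NHT T eps gg dev J C Θ := by
  obtain ⟨Ψ, hΨ0, hΨ⟩ := nh_lift T gg dev D.hdev D.hgd K D.hK D.hcov J D.hJ D.hc D.hn D.had (ntheta_hJ2 D)
  exact ntheta_main D Ψ hΨ0 hΨ

end ntheta_final

end SV
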