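import Pool.Agent.Helper43.NH.RecurC

/-! Recurrence: main argument. -/

namespace SV

open Filter Topology

section

variable {n : ℕ} {M G A : Type*} [TopologicalSpace M] [T2Space M] [ConnectedSpace M] [Group G] [MulAction G M]
    [ContinuousConstSMul G M] [NormedRing A] [NormedAlgebra ℝ A] [CompleteSpace A] [FiniteDimensional ℝ A]
    {T : A →ₐ[ℝ] (VV n →L[ℝ] VV n)} {eps : A →ₐ[ℝ] ℝ} {gg : G →* A} {dev : M → (Fin n → ℝ)} {K : Set M}
    {J : Submodule ℝ A} {C : Submodule ℝ A} {Θ : A → A → M → M}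

theorem recur_return (D : NHD T eps gg dev K J) (P : NHT T eps gg dev J C Θ)
    (hjd : ∀ a : A, ∃ s m : A, a = s + m ∧ IsNilpotent m ∧ ∀ b, s * b = b * s)
    (hfix : ∀ x : M, ∃ g : G, dev (g • x) ≠ dev x)
    (htor : {a : A | (∃ g, gg g = a) ∧ ∃ m : ℕ, 0 < m ∧ a ^ m = 1}.Finite) :
    ∃ (x₀ : M) (δ : G), (∀ m : ℕ, 0 < m → gg δ ^ m ≠ 1) ∧ RelP C J Θ x₀ (δ • x₀) := by
  classical
  let dv : M → VV n := fun x => (dev x, 1)
  have hdvc : Continuous dv := D.hdev.continuous.prodMk continuous_const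
  let q : VV n → (A →ₗ[ℝ] VV n) := fun v => (LinearMap.applyₗ' ℝ v).comp ((ContinuousLinearMap.coeLM ℝ).comp T.toLinearMap)
  have hq : ∀ v a, q v a = T a v := fun _ _ => rfl
  have hM : Nonempty M := ConnectedSpace.toNonempty
  let f : M → ℕ := fun x => Module.finrank ℝ (LinearMap.range (q (dv x)))
  set x₀ := Function.argmin f with hx₀
  have hmin : ∀ x, f x₀ ≤ f x := fun x => Function.argmin_le f x
  set v : VV n := dv x₀ with hv
  obtain ⟨g₀, hg₀⟩ := hfix x₀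
  have hXv : T (gg g₀ - 1) v ≠ 0 := by
    intro h
    rw [map_sub, map_one] at h
    have h1 : T (gg g₀) v - v = 0 := h
    rw [hv, D.hgd, sub_eq_zero] at h1
    exact hg₀ (congrArg Prod.fst h1)
  obtain ⟨e, he0, hgrow⟩ := recur_e T eps (gg g₀ - 1) (by rw [map_sub, recur_eps_gg D, map_one, sub_self]) v hXv
  obtain ⟨s, hs, m, hm, hesm⟩ := recur_dec D P hjd he0
  let ψ : ℕ → M := fun k => Θ ((k : ℝ) • s) (NormedSpace.exp ((k : ℝ) • m) - 1) x₀
  have hψR : ∀ k, RelP C J Θ x₀ (ψ k) := fun k =>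
    ⟨(k : ℝ) • s, C.smul_mem _ hs, _, nx_sub_one_mem J D.hJ (J.smul_mem _ hm), rfl⟩
  have hψd : ∀ k, dv (ψ k) = T (NormedSpace.exp ((k : ℝ) • e)) v := by
    intro k
    have := (recur_path D P hs hm x₀).2.2 (k : ℝ)
    rw [hesm]
    exact this
  have hch : ∀ k : ℕ, ∃ δ : G, δ • ψ k ∈ K := by
    intro k
    obtain ⟨g, y, hy, hgy⟩ := D.hcov (ψ k)
    refine ⟨g⁻¹, ?_⟩
    rw [hgy, inv_smul_smul]
    exact hy
  choose δ hδ using hch
  set Pt : ℕ → M := fun k => δ k • ψ k with hPt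
  obtain ⟨y, hyK, hy⟩ := D.hK.ultrafilter_le_nhds ((Filter.hyperfilter ℕ).map Pt) (by
    rw [Filter.le_principal_iff]
    exact Filter.mem_map.2 (Filter.univ_mem' hδ))
  have hPy : Tendsto Pt (Filter.hyperfilter ℕ) (𝓝 y) := hy
  let a : ℕ → A := fun k => gg (δ k) * NormedSpace.exp ((k : ℝ) • e)
  have hTa : ∀ k, T (a k) v = dv (Pt k) := by
    intro k
    show T (gg (δ k) * NormedSpace.exp ((k : ℝ) • e)) v = dv (δ k • ψ k)
    rw [recur_T_mul, ← hψd]
    exact D.hgd (δ k) (ψ k)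
  set w : VV n := dv y with hw
  have hTaw : Tendsto (fun k => T (a k) v) (Filter.hyperfilter ℕ) (𝓝 w) := by
    simp only [hTa]
    exact (hdvc.tendsto y).comp hPy
  obtain ⟨b, hb⟩ : ∃ b, w = T b v := by
    have hcl : IsClosed (LinearMap.range (q v) : Set (VV n)) := Submodule.closed_of_finiteDimensional _
    have h1 : w ∈ (LinearMap.range (q v) : Set (VV n)) :=
      hcl.mem_of_tendsto hTaw (Filter.Eventually.of_forall (fun k => ⟨a k, rfl⟩))
    obtain ⟨b, hb⟩ := h1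
    exact ⟨b, hb.symm⟩
  obtain ⟨R, hR⟩ := recur_corr v w b hb (hmin y)
  let c : ℕ → A := fun k => R (T (a k) v - w)
  have hc1 : ∀ k, T (c k) w = T (a k) v - w := by
    intro k
    have : T (a k) v - w = T (a k - b) v := by
      rw [map_sub, hb]; rfl
    show T (R (T (a k) v - w)) w = _
    rw [this, hR]
  have hc0 : Tendsto c (Filter.hyperfilter ℕ) (𝓝 0) := by
    have h1 : Tendsto (fun k => T (a k) v - w) (Filter.hyperfilter ℕ) (𝓝 (w - w)) := hTaw.sub_const w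
    rw [sub_self] at h1
    have h2 := (R.continuous.tendsto 0).comp h1
    rw [map_zero] at h2
    exact h2
  have hceps : ∀ k, eps (c k) = 0 := by
    intro k
    have h1 := D.heps (c k) w
    rw [hc1, hTa] at h1
    have h2 : (dv (Pt k) - w).2 = 0 := by
      show (1 : ℝ) - 1 = 0
      ring
    rw [h2] at h1
    have h3 : w.2 = 1 := rfl
    rw [h3, mul_one] at h1
    exact h1.symm
  obtain ⟨U, hU, η, hη, hnear⟩ := recur_near D P hjd y
  have hgood : ∀ᶠ k in (Filter.hyperfilter ℕ : Filter ℕ), RelP C J Θ y (Pt k) := by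
    have h1 : ∀ᶠ k in (Filter.hyperfilter ℕ : Filter ℕ), ‖c k‖ < η := by
      have := hc0.eventually (Metric.ball_mem_nhds (0 : A) hη)
      refine this.mono (fun k hk => ?_)
      simpa using hk
    have h2 : ∀ᶠ k in (Filter.hyperfilter ℕ : Filter ℕ), Pt k ∈ U := hPy.eventually hU
    refine (h1.and h2).mono (fun k hk => ?_)
    refine hnear (Pt k) hk.2 (c k) (hceps k) hk.1 ?_
    show T (1 + c k) w = dv (Pt k)
    rw [map_add, map_one]
    have : ((1 : VV n →L[ℝ] VV n) + T (c k)) w = w + T (c k) w := rfl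
    rw [this, hc1, hTa]
    abel
  set S₀ : Set ℕ := {k | RelP C J Θ y (Pt k)} with hS₀
  have hS₀inf : S₀.Infinite := by
    intro hfin
    exact Filter.notMem_hyperfilter_of_finite hfin hgood
  -- bound on K
  obtain ⟨CK, hCK⟩ : ∃ CK : ℝ, ∀ x ∈ K, ‖dv x‖ ≤ CK := by
    obtain ⟨CK, hCK⟩ := (D.hK.image hdvc).isBounded.exists_norm_le
    exact ⟨CK, fun x hx => hCK _ (Set.mem_image_of_mem _ hx)⟩
  have hpair : ∃ k ∈ S₀, ∃ l ∈ S₀, ∀ m : ℕ, 0 < m → gg ((δ l)⁻¹ * δ k) ^ m ≠ 1 := by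
    by_contra hcon
    push Not at hcon
    obtain ⟨k₀, hk₀⟩ := hS₀inf.nonempty
    obtain ⟨Ct, hCt⟩ : ∃ Ct : ℝ, ∀ s ∈ {a : A | (∃ g, gg g = a) ∧ ∃ m : ℕ, 0 < m ∧ a ^ m = 1}, ‖T s‖ ≤ Ct := by
      obtain ⟨Ct, hCt⟩ := (htor.image (fun s => ‖T s‖)).bddAbove
      exact ⟨Ct, fun s hs => hCt ⟨s, hs, rfl⟩⟩
    have hev2 := hgrow.eventually (eventually_gt_atTop (Ct * (‖T (gg (δ k₀)⁻¹)‖ * CK)))
    obtain ⟨N, hN⟩ := Filter.eventually_atTop.1 hev2
    obtain ⟨l, hl, hNl⟩ := hS₀inf.exists_gt N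
    have hlN := hN l hNl.le
    have h1 : T (NormedSpace.exp ((l : ℝ) • e)) v = T (gg ((δ l)⁻¹ * δ k₀)) (T (gg (δ k₀)⁻¹) (dv (Pt l))) := by
      rw [← hTa]
      show _ = T (gg ((δ l)⁻¹ * δ k₀)) (T (gg (δ k₀)⁻¹) (T (gg (δ l) * NormedSpace.exp ((l : ℝ) • e)) v))
      rw [← recur_T_mul, ← recur_T_mul]
      congr 2
      rw [← mul_assoc, ← map_mul, ← map_mul]
      simp
    have h3 : ‖T (NormedSpace.exp ((l : ℝ) • e)) v‖ ≤ Ct * (‖T (gg (δ k₀)⁻¹)‖ * CK) := by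
      rw [h1]
      have hmem : gg ((δ l)⁻¹ * δ k₀) ∈ {a : A | (∃ g, gg g = a) ∧ ∃ m : ℕ, 0 < m ∧ a ^ m = 1} := by
        obtain ⟨m, hm0, hm1⟩ := hcon k₀ hk₀ l hl
        exact ⟨⟨_, rfl⟩, m, hm0, hm1⟩
      have hC0 : 0 ≤ Ct := (norm_nonneg _).trans (hCt _ hmem)
      refine ((T _).le_opNorm _).trans ?_
      refine mul_le_mul (hCt _ hmem) ?_ (norm_nonneg _) hC0
      refine ((T _).le_opNorm _).trans ?_
      exact mul_le_mul_of_nonneg_left (hCK _ (hδ l)) (norm_nonneg _)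
    linarith
  obtain ⟨k, hk, l, hl, hinf⟩ := hpair
  refine ⟨x₀, (δ l)⁻¹ * δ k, hinf, ?_⟩
  have hR1 : ∀ i ∈ S₀, RelP C J Θ (δ i • x₀) y := fun i hi =>
    (RelP.smul D P (δ i) (hψR i)).trans D P (RelP.symm D P hi)
  have h1 : RelP C J Θ (δ l • x₀) (δ k • x₀) := (hR1 l hl).trans D P (RelP.symm D P (hR1 k hk))
  have h2 := RelP.smul D P (δ l)⁻¹ h1
  rwa [inv_smul_smul, ← mul_smul] at h2

theorem recur_main (D : NHD T eps gg dev K J) (P : NHT T eps gg dev J C Θ)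
    (hjd : ∀ a : A, ∃ s m : A, a = s + m ∧ IsNilpotent m ∧ ∀ b, s * b = b * s)
    (hfix : ∀ x : M, ∃ g : G, dev (g • x) ≠ dev x)
    (htor : {a : A | (∃ g, gg g = a) ∧ ∃ m : ℕ, 0 < m ∧ a ^ m = 1}.Finite) :
    ∃ (δ : G) (N : ℕ), 0 < N ∧ (∀ m : ℕ, 0 < m → gg δ ^ m ≠ 1) ∧
      ∃ Z ∈ C, ∃ j ∈ J, ∀ x, δ ^ N • x = Θ Z j x := by
  classical
  obtain ⟨x₀, δ, hinf, Z, hZ, j, hj, hret⟩ := recur_return D P hjd hfix htor
  let dv : M → VV n := fun x => (dev x, 1)
  set v : VV n := dv x₀ with hv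
  obtain ⟨j', hj', hjj1, hjj2⟩ := recur_inv D hj
  have hZc := ((P.hC Z).1 hZ).1
  have hmZ : -Z ∈ C := C.neg_mem hZ
  -- the stabilising element
  set u : A := NormedSpace.exp (-Z) * (1 + j') * gg δ with hu
  let f : M → M := fun x => Θ (-Z) j' (δ • x)
  have hfd : ∀ x, dv (f x) = T u (dv x) := by
    intro x
    show ((dev (Θ (-Z) j' (δ • x)), (1 : ℝ)) : VV n) = _
    rw [P.dv _ hmZ _ hj', ← D.hgd, ← recur_T_mul]
  have hfx : f x₀ = x₀ := by
    show Θ (-Z) j' (δ • x₀) = x₀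
    rw [hret]
    exact recur_left_inv P hZ hj hj' hjj2 x₀
  have huv : T u v = v := by rw [hv, ← hfd, hfx]
  have huu : IsUnit u := by
    refine ((nx_unit (-Z)).mul (((D.hJn j').1 hj').isUnit_one_add)).mul ?_
    exact ⟨⟨gg δ, gg δ⁻¹, by rw [← map_mul, mul_inv_cancel, map_one], by rw [← map_mul, inv_mul_cancel, map_one]⟩, rfl⟩
  have hueps : eps u = 1 := by
    have h1 := D.heps u v
    rw [huv] at h1
    have h2 : v.2 = 1 := rfl
    rw [h2, mul_one] at h1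
    exact h1.symm
  obtain ⟨N, hN, q, hq, hqe⟩ := recur_pow_log u huu
  have hcq : Commute u q := by
    have := recur_adjoin_comm u ⟨u, Algebra.subset_adjoin rfl⟩ ⟨q, hq⟩
    exact congrArg Subtype.val this
  have hpow : ∀ i : ℕ, T (u ^ i) v = v := by
    intro i
    induction i with
    | zero => rw [pow_zero, map_one]; rfl
    | succ i ih => rw [pow_succ', recur_T_mul, ih, huv]
  set L : A := (u ^ N - 1) * q with hL
  have hLv : T L v = 0 := by
    have h1 : L = q * (u ^ N - 1) := by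
      rw [hL]
      exact (((hcq.pow_left N).sub_left (Commute.one_left q))).eq
    rw [h1, recur_T_mul, map_sub, map_one]
    have : (T (u ^ N) - (1 : VV n →L[ℝ] VV n)) v = T (u ^ N) v - v := rfl
    rw [this, hpow, sub_self, map_zero]
  have hLeps : eps L = 0 := by
    rw [hL, map_mul, map_sub, map_pow, hueps, one_pow, map_one, sub_self, zero_mul]
  obtain ⟨s, hs, m, hm, hsm⟩ := recur_dec D P hjd hLeps
  obtain ⟨hp1, hp2, hp3⟩ := recur_path D P hs hm x₀
  have hfixL : Θ ((1 : ℝ) • s) (NormedSpace.exp ((1 : ℝ) • m) - 1) x₀ = x₀ := by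
    have h1 := lift_uniq D.hdev (B := ℝ) (fun t : ℝ => Θ (t • s) (NormedSpace.exp (t • m) - 1) x₀) (fun _ => x₀)
      hp1 continuous_const (fun t => by
        have h2 := hp3 t
        rw [← hsm] at h2
        have h3 : T (NormedSpace.exp (t • L)) (dev x₀, 1) = (dev x₀, 1) := by
          refine nx_T_zero T _ _ ?_
          rw [map_smul]
          show t • T L v = 0
          rw [hLv, smul_zero]
        rw [h3] at h2
        exact congrArg Prod.fst h2) 0 hp2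
    exact congrFun h1 1
  rw [one_smul, one_smul] at hfixL
  have hmJ : NormedSpace.exp m - 1 ∈ J := nx_sub_one_mem J D.hJ hm
  -- iterates of f
  have hfit : ∀ i : ℕ, (∀ x, dv (f^[i] x) = T (u ^ i) (dv x)) ∧ f^[i] x₀ = x₀ ∧
      ∃ Z' ∈ C, ∃ k ∈ J, ∀ x, f^[i] x = Θ Z' k (δ ^ i • x) := by
    intro i
    induction i with
    | zero =>
      refine ⟨fun x => ?_, rfl, 0, C.zero_mem, 0, J.zero_mem, fun x => ?_⟩
      · rw [pow_zero, map_one]; rfl
      · rw [pow_zero, one_smul, P.zero]; rfl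
    | succ i ih =>
      obtain ⟨h1, h2, Z', hZ', k, hk, h3⟩ := ih
      refine ⟨fun x => ?_, ?_, -Z + Z', C.add_mem hmZ hZ', j' + gg δ * k * gg δ⁻¹ + j' * (gg δ * k * gg δ⁻¹),
        J.add_mem (J.add_mem hj' (recur_conj_mem D δ hk)) (D.hJ _ _ (recur_conj_mem D δ hk)).1, fun x => ?_⟩
      · rw [Function.iterate_succ_apply', hfd, h1, ← recur_T_mul, ← pow_succ']
      · rw [Function.iterate_succ_apply', h2, hfx]
      · rw [Function.iterate_succ_apply', h3]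
        show Θ (-Z) j' (δ • Θ Z' k (δ ^ i • x)) = _
        rw [P.smul δ Z' hZ' k hk, P.comp _ hmZ _ hj' _ hZ' _ (recur_conj_mem D δ hk), ← mul_smul, ← pow_succ']
  obtain ⟨hN1, hN2, Z', hZ', k, hk, hN3⟩ := hfit N
  have hfc : Continuous f := by
    have h1 : Continuous (fun x : M => (((⟨-Z, hmZ⟩ : C)), ((⟨j', hj'⟩ : J), δ • x))) :=
      continuous_const.prodMk (continuous_const.prodMk (continuous_const_smul δ))
    exact P.cont.comp h1
  have hLc : Continuous (fun x : M => Θ s (NormedSpace.exp m - 1) x) := by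
    have h1 : Continuous (fun x : M => (((⟨s, hs⟩ : C)), ((⟨_, hmJ⟩ : J), x))) :=
      continuous_const.prodMk (continuous_const.prodMk continuous_id)
    exact P.cont.comp h1
  have hLd : ∀ x, dv (Θ s (NormedSpace.exp m - 1) x) = T (NormedSpace.exp L) (dv x) := by
    intro x
    show ((dev (Θ s (NormedSpace.exp m - 1) x), (1 : ℝ)) : VV n) = _
    rw [P.dv _ hs _ hmJ, add_sub_cancel, ← nx_add (show Commute s m from ((P.hC s).1 hs).1 m), ← hsm]
  have hkey : ∀ x, f^[N] x = Θ s (NormedSpace.exp m - 1) x := by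
    have h1 := lift_uniq D.hdev (B := M) (fun x => f^[N] x) (fun x => Θ s (NormedSpace.exp m - 1) x)
      (hfc.iterate N) hLc (fun x => by
        have h2 : dv (f^[N] x) = dv (Θ s (NormedSpace.exp m - 1) x) := by
          rw [hN1, hLd, hqe]
        exact congrArg Prod.fst h2) x₀ (by
        show f^[N] x₀ = Θ s (NormedSpace.exp m - 1) x₀
        rw [hN2, hfixL])
    exact fun x => congrFun h1 x
  obtain ⟨k', hk', hkk1, hkk2⟩ := recur_inv D hk
  refine ⟨δ, N, hN, hinf, -Z' + s, C.add_mem (C.neg_mem hZ') hs, k' + (NormedSpace.exp m - 1) + k' * (NormedSpace.exp m - 1),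
    J.add_mem (J.add_mem hk' hmJ) (D.hJ _ _ hmJ).1, fun x => ?_⟩
  rw [← P.comp _ (C.neg_mem hZ') _ hk' _ hs _ hmJ, ← hkey, hN3]
  exact (recur_left_inv P hZ' hk hk' hkk2 _).symm

end

end SV
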