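import Pool.Agent.Helper43.NH.Nil
import Pool.Agent.Helper43.NH.Flag
import Pool.Agent.Helper43.NH.Alg
import Pool.Agent.Helper43.NH.Jordan
import Pool.Agent.Helper43.NH.NTheta
import Pool.Agent.Helper43.NH.Central
import Pool.Agent.Helper43.NH.Circle
import Pool.Agent.Helper43.NH.RecurD

/-! Closed affine manifolds with virtually nilpotent holonomy have vanishing l1-seminorm in top degree. -/

namespace SV

open Filter Topology

/-- complexification of operators through matrices -/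
noncomputable def cpx (n : ℕ) : (VV n →L[ℝ] VV n) →+*
    ((Fin (Module.finrank ℝ (VV n)) → ℂ) →ₗ[ℂ] (Fin (Module.finrank ℝ (VV n)) → ℂ)) :=
  ((Matrix.toLinAlgEquiv' : Matrix (Fin (Module.finrank ℝ (VV n))) (Fin (Module.finrank ℝ (VV n))) ℂ ≃ₐ[ℂ] _).toRingEquiv.toRingHom).comp
    (((algebraMap ℝ ℂ).mapMatrix).comp
      (((LinearMap.toMatrixAlgEquiv (Module.finBasis ℝ (VV n))).toRingEquiv.toRingHom).comp
        (ContinuousLinearMap.toLinearMapRingHom)))

theorem cpx_injective (n : ℕ) : Function.Injective (cpx n) := by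
  intro a b hab
  have h1 := Matrix.toLinAlgEquiv'.injective hab
  have h2 : (LinearMap.toMatrixAlgEquiv (Module.finBasis ℝ (VV n))) (a : VV n →ₗ[ℝ] VV n) =
      (LinearMap.toMatrixAlgEquiv (Module.finBasis ℝ (VV n))) (b : VV n →ₗ[ℝ] VV n) := by
    ext i j
    have h3 := congrFun (congrFun h1 i) j
    exact Complex.ofReal_injective h3
  have h4 := (LinearMap.toMatrixAlgEquiv (Module.finBasis ℝ (VV n))).injective h2
  exact ContinuousLinearMap.coe_injective h4

theorem cpx_smul (n : ℕ) (r : ℝ) (a : VV n →L[ℝ] VV n) : cpx n (r • a) = (r : ℂ) • cpx n a := by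
  have h1 : cpx n (r • a) = Matrix.toLinAlgEquiv' (((algebraMap ℝ ℂ).mapMatrix)
      ((LinearMap.toMatrixAlgEquiv (Module.finBasis ℝ (VV n))) ((r • a : VV n →L[ℝ] VV n) : VV n →ₗ[ℝ] VV n))) := rfl
  have h2 : cpx n a = Matrix.toLinAlgEquiv' (((algebraMap ℝ ℂ).mapMatrix)
      ((LinearMap.toMatrixAlgEquiv (Module.finBasis ℝ (VV n))) (a : VV n →ₗ[ℝ] VV n))) := rfl
  rw [h1, h2, ← map_smul]
  congr 1
  have h3 : ((r • a : VV n →L[ℝ] VV n) : VV n →ₗ[ℝ] VV n) = r • (a : VV n →ₗ[ℝ] VV n) := rfl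
  rw [h3, map_smul]
  ext i j
  simp

theorem linH_injective {n : ℕ} : Function.Injective (linH : ((Fin n → ℝ) ≃ᵃ[ℝ] (Fin n → ℝ)) →* (VV n →L[ℝ] VV n)) := by
  intro f g h
  ext p i
  have h1 := congrArg (fun T : VV n →L[ℝ] VV n => (T (p, 1)).1) h
  have h2 : ∀ f : (Fin n → ℝ) ≃ᵃ[ℝ] (Fin n → ℝ), ((linH f) (p, 1)).1 = f p := by
    intro f
    show f.linear p + (1 : ℝ) • f 0 = f p
    rw [one_smul, ← aff_eq]
  simp only [h2] at h1
  exact congrFun h1 i

/-- a group of affine maps preserving a complex flag -/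
def HasFlag {n : ℕ} {G : Type*} [Group G] (h : G →* ((Fin n → ℝ) ≃ᵃ[ℝ] (Fin n → ℝ))) : Prop :=
  ∃ (r : ℕ) (F : ℕ → Submodule ℂ (Fin (Module.finrank ℝ (VV n)) → ℂ)), F 0 = ⊥ ∧ F r = ⊤ ∧ Monotone F ∧
    ∀ g : G, ∀ i, ∃ c : ℂ, ∀ w ∈ F (i + 1), cpx n (linH (h g)) w - c • w ∈ F i

theorem unip_torsion {A : Type*} [Ring A] [Algebra ℝ A] (j : A) (hj : IsNilpotent j) (m : ℕ) (hm : 0 < m)
    (h : (1 + j) ^ m = 1) : j = 0 := by
  -- (1+j)^m - 1 = j * (m + nilpotent)
  have h1 : (1 + j) ^ m - 1 = j * ∑ i ∈ Finset.range m, (1 + j) ^ i := by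
    have := mul_geom_sum (1 + j) m
    rw [add_sub_cancel_left] at this
    exact this.symm
  have h2 : ∃ k : A, IsNilpotent k ∧ ∑ i ∈ Finset.range m, (1 + j) ^ i = (m : A) + k := by
    have h3 : ∀ i : ℕ, ∃ q : A, Commute j q ∧ (1 + j) ^ i = 1 + j * q := by
      intro i
      refine ⟨∑ l ∈ Finset.range i, (1 + j) ^ l, ?_, ?_⟩
      · exact Commute.sum_right _ _ _ (fun l _ => ((Commute.one_right j).add_right (Commute.refl j)).pow_right l)
      · have := mul_geom_sum (1 + j) i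
        rw [add_sub_cancel_left] at this
        rw [this, add_sub_cancel]
    choose q hq1 hq2 using h3
    refine ⟨j * ∑ i ∈ Finset.range m, q i, ?_, ?_⟩
    · exact (Commute.sum_right _ _ _ (fun l _ => hq1 l)).isNilpotent_mul_right hj
    · simp only [hq2]
      rw [Finset.sum_add_distrib, Finset.sum_const, Finset.card_range, nsmul_eq_mul, mul_one, Finset.mul_sum]
  obtain ⟨k, hk, hk2⟩ := h2
  rw [h, sub_self, hk2] at h1
  have hmu : IsUnit ((m : A) + k) := by
    have h3 : (m : A) = algebraMap ℝ A (m : ℝ) := by simp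
    have h4 : IsUnit (m : A) := by
      rw [h3]
      exact (isUnit_iff_ne_zero.2 (by exact_mod_cast hm.ne')).map _
    exact hk.isUnit_add_left_of_commute h4 (by
      rw [h3]
      exact (Algebra.commutes (m : ℝ) k).symm)
  exact (hmu.mul_left_eq_zero).1 h1.symm


theorem nh_core_abs {M G A : Type*} [TopologicalSpace M] [T2Space M] [ConnectedSpace M] [Group G] [MulAction G M]
    [ContinuousConstSMul G M] [ProperlyDiscontinuousSMul G M] [NormedRing A] [NormedAlgebra ℝ A] [CompleteSpace A]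
    [FiniteDimensional ℝ A] (hfree : ∀ (g : G) (x : M), g • x = x → g = 1)
    (K : Set M) (hK : IsCompact K) (hcov : ∀ x : M, ∃ g : G, ∃ y ∈ K, x = g • y)
    (d : ℕ) (dev : M → (Fin (d + 1) → ℝ)) (hdev : IsLocalHomeomorph dev)
    (h : G →* ((Fin (d + 1) → ℝ) ≃ᵃ[ℝ] (Fin (d + 1) → ℝ))) (heq : ∀ g x, dev (g • x) = h g (dev x))
    (hnil : Group.IsNilpotent h.range) (hflag : HasFlag h)
    (T : A →ₐ[ℝ] (VV (d + 1) →L[ℝ] VV (d + 1))) (hT : Function.Injective T) (eps : A →ₐ[ℝ] ℝ)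
    (heps : ∀ a v, (T a v).2 = eps a * v.2) (gg : G →* A) (hgT : ∀ g, T (gg g) = linH (h g))
    (u : h.range →* A) (hu : ∀ g, u (h.rangeRestrict g) = gg g) (hspan : Submodule.span ℝ (Set.range gg) = ⊤)
    (z : SC M (d + 1)) (hz : bd d z ∈ JJ (⊤ : Subgroup G) d) (ε : ℝ) (hε : 0 < ε) :
    ∃ (z' : SC M (d + 1)) (v : SC M (d + 2)), nrm z' < ε ∧ z' - z - bd (d + 1) v ∈ JJ (⊤ : Subgroup G) (d + 1) := by
  classical
  have hlc : LocallyCompactSpace M := locallyCompact_of_dev dev hdev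
  have hfg : Group.FG G := fg_of_cocompact K hK hcov
  have huT : ∀ f : h.range, T (u f) = linH (f : (Fin (d + 1) → ℝ) ≃ᵃ[ℝ] (Fin (d + 1) → ℝ)) := by
    rintro ⟨_, g, rfl⟩
    exact (congrArg T (hu g)).trans (hgT g)
  have hu_inj : Function.Injective u := by
    intro f f' hff
    apply Subtype.ext
    apply linH_injective
    rw [← huT, ← huT, hff]
  have hrange : Set.range u = Set.range gg := by
    ext a
    constructor
    · rintro ⟨⟨_, g, rfl⟩, rfl⟩
      exact ⟨g, (hu g).symm⟩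
    · rintro ⟨g, rfl⟩
      exact ⟨h.rangeRestrict g, hu g⟩
  obtain ⟨r, Fl, hF0, hFr, hFm, hFg⟩ := hflag
  obtain ⟨J, hJn, hJ, hJc, hJm, had⟩ := nh_alg (A := A) (Γ := h.range) u (by rw [hrange]; exact hspan)
    ((cpx (d + 1)).comp (T : A →+* (VV (d + 1) →L[ℝ] VV (d + 1)))) ((cpx_injective (d + 1)).comp hT)
    (fun r a => by
      show cpx (d + 1) (T (r • a)) = (r : ℂ) • cpx (d + 1) (T a)
      rw [map_smul, cpx_smul]) r Fl hF0 hFr hFm (fun f i => by
      obtain ⟨_, g, rfl⟩ := f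
      obtain ⟨c, hc⟩ := hFg g i
      refine ⟨c, fun w hw => ?_⟩
      have h1 := hc w hw
      rw [← hgT, ← hu] at h1
      exact h1)
  have D : NHD (A := A) T eps gg dev K J :=
    { heps := heps
      hT := hT
      hgd := fun g x => by
        rw [hgT]
        show linA (h g) (dev x, 1) = (dev (g • x), 1)
        rw [linA_apply, one_smul, heq, aff_eq (h g) (dev x)]
      hdev := hdev
      hK := hK
      hcov := hcov
      hJn := hJn
      hJ := hJ
      hc := hJc
      hn := hJm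
      had := had }
  -- torsion elements
  have htc : ∀ t : h.range, (∃ n : ℕ, 0 < n ∧ t ^ n = 1) → ∀ b : A, u t * b = b * u t := by
    rintro t ⟨n, hn, ht⟩ b
    have h1 : (u t) ^ n = 1 := by rw [← map_pow, ht, map_one]
    refine nh_central had (u t) (Polynomial.X ^ n - Polynomial.C 1) ?_ ?_ b
    · exact ((Polynomial.separable_X_pow_sub_C (1 : ℝ) (by exact_mod_cast hn.ne') one_ne_zero)).squarefree
    · rw [map_sub, map_pow, Polynomial.aeval_X, Polynomial.aeval_C, map_one, h1, sub_self]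
  have htf : {t : h.range | ∃ n : ℕ, 0 < n ∧ t ^ n = 1}.Finite := by
    refine nh_torsion (fun t ht g => ?_) (fun t ht hto => ?_)
    · apply hu_inj
      rw [map_mul, map_mul]
      exact htc t ht (u g)
    · -- commutators are unipotent
      have h1 : ∀ t ∈ commutator h.range, u t - 1 ∈ J := by
        intro t ht
        rw [commutator_eq_closure] at ht
        refine Subgroup.closure_induction (p := fun t _ => u t - 1 ∈ J) ?_ ?_ ?_ ?_ ht
        · rintro _ ⟨a, b, rfl⟩
          have h2 : u (a * b * a⁻¹ * b⁻¹) - 1 = (u a * u b - u b * u a) * (u a⁻¹ * u b⁻¹) := by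
            rw [sub_mul]
            simp only [← map_mul]
            have h3 : b * a * (a⁻¹ * b⁻¹) = 1 := by group
            have h4 : a * b * (a⁻¹ * b⁻¹) = a * b * a⁻¹ * b⁻¹ := by group
            rw [h3, map_one, h4]
          show u (a * b * a⁻¹ * b⁻¹) - 1 ∈ J
          rw [h2]
          exact (hJ _ _ (hJc _ _)).2
        · rw [map_one, sub_self]; exact J.zero_mem
        · intro x y _ _ hx hy
          have h2 : u (x * y) - 1 = (u x - 1) * u y + (u y - 1) := by
            rw [map_mul, sub_mul, one_mul]; abel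
          rw [h2]
          exact J.add_mem (hJ _ _ hx).2 hy
        · intro x _ hx
          have h2 : u x⁻¹ - 1 = (-(u x⁻¹)) * (u x - 1) := by
            rw [neg_mul, mul_sub, mul_one, ← map_mul, inv_mul_cancel, map_one]; abel
          rw [h2]
          exact (hJ _ _ hx).1
      obtain ⟨n, hn, htn⟩ := hto
      apply hu_inj
      rw [map_one]
      have h2 : u t - 1 = 0 := by
        refine unip_torsion _ ((hJn _).1 (h1 t ht)) n hn ?_
        rw [add_sub_cancel, ← map_pow, htn, map_one]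
      exact sub_eq_zero.1 h2
  have htor : {a : A | (∃ g, gg g = a) ∧ ∃ m : ℕ, 0 < m ∧ a ^ m = 1}.Finite := by
    refine (htf.image u).subset ?_
    rintro _ ⟨⟨g, rfl⟩, m, hm, hg⟩
    refine ⟨h.rangeRestrict g, ⟨m, hm, ?_⟩, hu g⟩
    apply hu_inj
    rw [map_pow, map_one, hu]
    exact hg
  have hfix : ∀ x : M, ∃ g : G, dev (g • x) ≠ dev x := by
    intro x
    obtain ⟨g, hg⟩ := no_fixed (Nat.succ_pos d) hfree K hK hcov dev hdev h heq x
    exact ⟨g, by rw [heq]; exact hg⟩
  have hnil' : Group.IsNilpotent gg.toHomUnits.range := by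
    let f : h.range →* gg.toHomUnits.range := (u.toHomUnits).codRestrict _ (by
      rintro ⟨_, g, rfl⟩
      exact ⟨g, Units.ext (hu g).symm⟩)
    refine Group.nilpotent_of_surjective f ?_
    rintro ⟨_, g, rfl⟩
    exact ⟨h.rangeRestrict g, Subtype.ext (Units.ext (hu g))⟩
  obtain ⟨C, Θ, P⟩ := nh_theta D
  obtain ⟨δ, N, hN, hδ, hZ⟩ := recur_main D P (nh_jordan had) hfix htor
  obtain ⟨ζ, F, Z, hζ, hF0', hF1, hFg', hFa, hFd⟩ := nh_center D P hspan δ N hN hδ hZ
  have hTexp : ∀ a : A, T (NormedSpace.exp a) = NormedSpace.exp (T a) := by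
    intro a
    let L : A →L[ℝ] (VV (d + 1) →L[ℝ] VV (d + 1)) := ⟨T.toLinearMap, LinearMap.continuous_of_finiteDimensional _⟩
    have h2 := L.hasSum (nx_hasSum a)
    have h3 := nx_hasSum (T a)
    have h4 : (fun n : ℕ => L (((n.factorial : ℝ)⁻¹) • a ^ n)) = fun n : ℕ => ((n.factorial : ℝ)⁻¹) • (T a) ^ n := by
      funext n
      show T (((n.factorial : ℝ)⁻¹) • a ^ n) = _
      rw [map_smul, map_pow]
    rw [h4] at h2
    exact h2.unique h3
  refine nh_circle K hK hcov dev hdev ζ hζ F hF0' hF1 hFg' hFa (T Z) (fun t x => ?_) z hz ε hε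
  rw [hFd t x, hTexp, map_smul]

theorem nh_core {M G : Type*} [TopologicalSpace M] [T2Space M] [ConnectedSpace M] [Group G] [MulAction G M]
    [ContinuousConstSMul G M] [ProperlyDiscontinuousSMul G M] (hfree : ∀ (g : G) (x : M), g • x = x → g = 1)
    (K : Set M) (hK : IsCompact K) (hcov : ∀ x : M, ∃ g : G, ∃ y ∈ K, x = g • y)
    (d : ℕ) (dev : M → (Fin (d + 1) → ℝ)) (hdev : IsLocalHomeomorph dev)
    (h : G →* ((Fin (d + 1) → ℝ) ≃ᵃ[ℝ] (Fin (d + 1) → ℝ))) (heq : ∀ g x, dev (g • x) = h g (dev x))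
    (hnil : Group.IsNilpotent h.range) (hflag : HasFlag h) (z : SC M (d + 1)) (hz : bd d z ∈ JJ (⊤ : Subgroup G) d)
    (ε : ℝ) (hε : 0 < ε) :
    ∃ (z' : SC M (d + 1)) (v : SC M (d + 2)), nrm z' < ε ∧ z' - z - bd (d + 1) v ∈ JJ (⊤ : Subgroup G) (d + 1) := by
  let A : Subalgebra ℝ (VV (d + 1) →L[ℝ] VV (d + 1)) := Algebra.adjoin ℝ (Set.range (fun g => linH (h g)))
  let iA : NormedRing A := (inferInstance : NormedRing A)
  let iB : NormedAlgebra ℝ A := (inferInstance : NormedAlgebra ℝ A)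
  have iF : FiniteDimensional ℝ A := inferInstance
  have iC : CompleteSpace A := FiniteDimensional.complete ℝ A
  have heps0 : ∀ a ∈ A, ∀ v : VV (d + 1), (a v).2 = (a (0, 1)).2 * v.2 := by
    intro a ha
    refine Algebra.adjoin_induction (p := fun a _ => ∀ v : VV (d + 1), (a v).2 = (a (0, 1)).2 * v.2) ?_ ?_ ?_ ?_ ha
    · rintro _ ⟨g, rfl⟩ v
      show (linA (h g) v).2 = (linA (h g) (0, 1)).2 * v.2
      rw [linA_apply, linA_apply, one_mul]
    · intro r v
      rw [Algebra.algebraMap_eq_smul_one]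
      show r • v.2 = (r • (1 : ℝ)) * v.2
      rw [smul_eq_mul, smul_eq_mul, mul_one]
    · intro x y _ _ hx hy v
      show (x v).2 + (y v).2 = ((x (0, 1)).2 + (y (0, 1)).2) * v.2
      rw [hx v, hy v]; ring
    · intro x y _ _ hx hy v
      show (x (y v)).2 = (x (y (0, 1))).2 * v.2
      rw [hx (y v), hy v, hx (y (0, 1))]; ring
  let eps : A →ₐ[ℝ] ℝ := AlgHom.ofLinearMap
    ((LinearMap.snd ℝ (Fin (d + 1) → ℝ) ℝ).comp ((LinearMap.applyₗ' ℝ ((0, 1) : VV (d + 1))).comp
      ((ContinuousLinearMap.coeLM ℝ).comp A.val.toLinearMap))) rfl (by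
      intro a b
      show ((a : VV (d + 1) →L[ℝ] VV (d + 1)) ((b : VV (d + 1) →L[ℝ] VV (d + 1)) (0, 1))).2 =
        ((a : VV (d + 1) →L[ℝ] VV (d + 1)) (0, 1)).2 * ((b : VV (d + 1) →L[ℝ] VV (d + 1)) (0, 1)).2
      rw [heps0 a.1 a.2])
  let gg : G →* A :=
    { toFun := fun g => ⟨linH (h g), Algebra.subset_adjoin ⟨g, rfl⟩⟩
      map_one' := Subtype.ext (by
        show linH (h 1) = 1
        rw [map_one, map_one])
      map_mul' := fun a b => Subtype.ext (by
        show linH (h (a * b)) = linH (h a) * linH (h b)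
        rw [map_mul, map_mul]) }
  let u : h.range →* A :=
    { toFun := fun f => ⟨linH f.1, by
        obtain ⟨g, hg⟩ := f.2
        exact Algebra.subset_adjoin ⟨g, congrArg linH hg⟩⟩
      map_one' := Subtype.ext (map_one linH)
      map_mul' := fun a b => Subtype.ext (map_mul linH _ _) }
  have hspan : Submodule.span ℝ (Set.range gg) = ⊤ := by
    have hmul : ∀ a ∈ Submodule.span ℝ (Set.range gg), ∀ b ∈ Submodule.span ℝ (Set.range gg),
        a * b ∈ Submodule.span ℝ (Set.range gg) := by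
      intro a ha b hb
      refine Submodule.span_induction (p := fun a _ => a * b ∈ Submodule.span ℝ (Set.range gg)) ?_ ?_ ?_ ?_ ha
      · rintro _ ⟨g, rfl⟩
        refine Submodule.span_induction (p := fun b _ => gg g * b ∈ Submodule.span ℝ (Set.range gg)) ?_ ?_ ?_ ?_ hb
        · rintro _ ⟨g', rfl⟩
          exact Submodule.subset_span ⟨g * g', map_mul gg g g'⟩
        · rw [mul_zero]; exact Submodule.zero_mem _
        · intro x y _ _ hx hy
          rw [mul_add]; exact Submodule.add_mem _ hx hy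
        · intro r x _ hx
          rw [mul_smul_comm]; exact Submodule.smul_mem _ _ hx
      · rw [zero_mul]; exact Submodule.zero_mem _
      · intro x y _ _ hx hy
        rw [add_mul]; exact Submodule.add_mem _ hx hy
      · intro r x _ hx
        rw [smul_mul_assoc]; exact Submodule.smul_mem _ _ hx
    rw [eq_top_iff]
    rintro ⟨a, ha⟩ _
    refine Algebra.adjoin_induction (p := fun a ha => (⟨a, ha⟩ : A) ∈ Submodule.span ℝ (Set.range gg)) ?_ ?_ ?_ ?_ ha
    · rintro _ ⟨g, rfl⟩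
      exact Submodule.subset_span ⟨g, rfl⟩
    · intro r
      have h1 : (1 : A) ∈ Submodule.span ℝ (Set.range gg) := Submodule.subset_span ⟨1, map_one gg⟩
      have h2 := Submodule.smul_mem _ r h1
      have h3 : (r • (1 : A)) = ⟨algebraMap ℝ _ r, A.algebraMap_mem r⟩ := by
        apply Subtype.ext
        show r • (1 : VV (d + 1) →L[ℝ] VV (d + 1)) = algebraMap ℝ _ r
        rw [Algebra.algebraMap_eq_smul_one]
      rw [h3] at h2
      exact h2
    · intro x y hx hy h1 h2
      exact Submodule.add_mem _ h1 h2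
    · intro x y hx hy h1 h2
      exact hmul _ h1 _ h2
  exact nh_core_abs (A := A) hfree K hK hcov d dev hdev h heq hnil hflag A.val Subtype.val_injective eps
    (fun a v => heps0 a.1 a.2 v) gg (fun g => rfl) u (fun g => rfl) hspan z hz ε hε

/-- cocompactness of a subgroup of finite index -/
theorem cocompact_sub {M G : Type*} [TopologicalSpace M] [Group G] [MulAction G M] [ContinuousConstSMul G M]
    (K : Set M) (hK : IsCompact K) (hcov : ∀ x : M, ∃ g : G, ∃ y ∈ K, x = g • y) (H : Subgroup G) [H.FiniteIndex] :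
    ∃ K' : Set M, IsCompact K' ∧ ∀ x : M, ∃ g : H, ∃ y ∈ K', x = g • y := by
  have : Finite (G ⧸ H) := inferInstance
  have := Fintype.ofFinite (G ⧸ H)
  refine ⟨⋃ q : G ⧸ H, (fun x => (q.out)⁻¹ • x) '' K, isCompact_iUnion (fun q => hK.image (continuous_const_smul _)), ?_⟩
  intro x
  obtain ⟨g, y, hy, rfl⟩ := hcov x
  have h1 : ((QuotientGroup.mk (g⁻¹) : G ⧸ H).out)⁻¹ * g⁻¹ ∈ H := by
    rw [← QuotientGroup.eq]
    exact QuotientGroup.out_eq' _
  refine ⟨⟨_, H.inv_mem h1⟩, ((QuotientGroup.mk (g⁻¹) : G ⧸ H).out)⁻¹ • y, Set.mem_iUnion.2 ⟨_, y, hy, rfl⟩, ?_⟩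
  show g • y = (((QuotientGroup.mk (g⁻¹) : G ⧸ H).out)⁻¹ * g⁻¹)⁻¹ • ((QuotientGroup.mk (g⁻¹) : G ⧸ H).out)⁻¹ • y
  rw [← mul_smul]
  congr 1
  group

theorem nh_nil {M G : Type*} [TopologicalSpace M] [T2Space M] [ConnectedSpace M] [Group G] [MulAction G M]
    [ContinuousConstSMul G M] [ProperlyDiscontinuousSMul G M] (hfree : ∀ (g : G) (x : M), g • x = x → g = 1)
    (K : Set M) (hK : IsCompact K) (hcov : ∀ x : M, ∃ g : G, ∃ y ∈ K, x = g • y)
    (d : ℕ) (dev : M → (Fin (d + 1) → ℝ)) (hdev : IsLocalHomeomorph dev)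
    (h : G →* ((Fin (d + 1) → ℝ) ≃ᵃ[ℝ] (Fin (d + 1) → ℝ))) (heq : ∀ g x, dev (g • x) = h g (dev x))
    (hnil : Group.IsNilpotent h.range) (z : SC M (d + 1)) (hz : bd d z ∈ JJ (⊤ : Subgroup G) d)
    (ε : ℝ) (hε : 0 < ε) :
    ∃ (z' : SC M (d + 1)) (v : SC M (d + 2)), nrm z' < ε ∧ z' - z - bd (d + 1) v ∈ JJ (⊤ : Subgroup G) (d + 1) := by
  have hlc : LocallyCompactSpace M := locallyCompact_of_dev dev hdev
  have hfg : Group.FG G := fg_of_cocompact K hK hcov
  obtain ⟨H₁, hH₁, F, hF0, hFr, hFm, hF⟩ := nh_flag (G := h.range)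
    (((cpx (d + 1)).toMonoidHom.comp linH).comp h.range.subtype)
  let H : Subgroup G := H₁.comap h.rangeRestrict
  have hHf : H.FiniteIndex := by
    rw [Subgroup.finiteIndex_iff]
    show (H₁.comap h.rangeRestrict).index ≠ 0
    rw [Subgroup.index_comap_of_surjective _ h.rangeRestrict_surjective]
    exact hH₁.index_ne_zero
  have := properlyDisc_subgroup (M := M) H
  obtain ⟨K', hK', hcov'⟩ := cocompact_sub K hK hcov H
  refine transfer H d ?_ z hz ε hε
  intro z hz ε hε
  have hnil' : Group.IsNilpotent (h.comp H.subtype).range := by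
    have hle : (h.comp H.subtype).range ≤ h.range := by
      rintro _ ⟨g, rfl⟩
      exact ⟨g, rfl⟩
    refine Subgroup.isNilpotent_of_ker_le_center (Subgroup.inclusion hle) ?_
    rw [(MonoidHom.ker_eq_bot_iff _).2 (Subgroup.inclusion_injective hle)]
    exact bot_le
  refine nh_core (M := M) (G := H) (fun g x hgx => Subtype.ext (hfree g x hgx)) K' hK' hcov' d dev hdev
    (h.comp H.subtype) (fun g x => heq g x) hnil' ⟨_, F, hF0, hFr, hFm, fun g i => ?_⟩ z hz ε hε
  exact hF (h.rangeRestrict g) g.2 i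

/-- closed affine manifolds with virtually nilpotent holonomy -/
theorem nh_virt {M G : Type*} [TopologicalSpace M] [T2Space M] [ConnectedSpace M] [Group G] [MulAction G M]
    [ContinuousConstSMul G M] [ProperlyDiscontinuousSMul G M] (hfree : ∀ (g : G) (x : M), g • x = x → g = 1)
    (K : Set M) (hK : IsCompact K) (hcov : ∀ x : M, ∃ g : G, ∃ y ∈ K, x = g • y)
    (d : ℕ) (dev : M → (Fin (d + 1) → ℝ)) (hdev : IsLocalHomeomorph dev)
    (h : G →* ((Fin (d + 1) → ℝ) ≃ᵃ[ℝ] (Fin (d + 1) → ℝ))) (heq : ∀ g x, dev (g • x) = h g (dev x))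
    (H : Subgroup G) [H.FiniteIndex] (hnil : Group.IsNilpotent (H.map h))
    (z : SC (Quotient (MulAction.orbitRel G M)) (d + 1)) (hz : bd d z = 0) (ε : ℝ) (hε : 0 < ε) :
    ∃ (z' : SC (Quotient (MulAction.orbitRel G M)) (d + 1)) (v : SC (Quotient (MulAction.orbitRel G M)) (d + 2)),
      nrm z' < ε ∧ z' - z = bd (d + 1) v := by
  classical
  have hlc : LocallyCompactSpace M := locallyCompact_of_dev dev hdev
  have hcan : IsCancelSMul G M := by
    rw [isCancelSMul_iff_eq_one_of_smul_eq]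
    exact hfree
  have hp0 := isQuotientCoveringMap_quotientMk_of_properlyDiscontinuousSMul (G := G) (E := M)
  let p : C(M, Quotient (MulAction.orbitRel G M)) := ⟨Quotient.mk _, hp0.continuous⟩
  have hp : IsQuotientCoveringMap p G := hp0
  refine descend hp d ?_ z hz ε hε
  intro z hz ε hε
  refine transfer H d ?_ z hz ε hε
  have := properlyDisc_subgroup (M := M) H
  obtain ⟨K', hK', hcov'⟩ := cocompact_sub K hK hcov H
  intro z hz ε hε
  have hr : (h.comp H.subtype).range = H.map h := by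
    rw [MonoidHom.range_comp, Subgroup.range_subtype]
  exact nh_nil (M := M) (G := H) (fun g x hgx => Subtype.ext (hfree g x hgx)) K' hK' hcov' d dev hdev
    (h.comp H.subtype) (fun g x => heq g x) (by rw [hr]; exact hnil) z hz ε hε

end SV
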