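import Mathlib

/-!
# NH6: a maximal two-sided ideal below a given one
-/

set_option autoImplicit false

namespace SV

theorem nh_maxideal_mul {A : Type*} [Ring A] [Algebra ℝ A] (D E : Submodule ℝ A)
    (hD : ∀ a : A, ∀ x ∈ D, a * x ∈ D) : E * D ≤ D := by
  rw [Submodule.mul_le]
  intro m _ n hn
  exact hD m n hn

theorem nh_maxideal_mul' {A : Type*} [Ring A] [Algebra ℝ A] (D E : Submodule ℝ A)
    (hD : ∀ a : A, ∀ x ∈ D, x * a ∈ D) : D * E ≤ D := by
  rw [Submodule.mul_le]
  intro m hm n _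
  exact hD n m hm

theorem nh_maxideal {A : Type*} [Ring A] [Algebra ℝ A] [FiniteDimensional ℝ A] (J : Submodule ℝ A)
    (hJ : ∀ a : A, ∀ j ∈ J, a * j ∈ J ∧ j * a ∈ J) (hc : ∀ a b : A, a * b - b * a ∈ J) (hn : ∃ m : ℕ, J ^ m = ⊥)
    (had : ∃ m : ℕ, ∀ a b : A, (fun x => a * x - x * a)^[m] b = 0)
    (D : Submodule ℝ A) (hD : ∀ a : A, ∀ x ∈ D, a * x ∈ D ∧ x * a ∈ D) (hD0 : D ≠ ⊥) :
    ∃ D' : Submodule ℝ A, D' < D ∧ (∀ a : A, ∀ x ∈ D', a * x ∈ D' ∧ x * a ∈ D') ∧
      ∀ a : A, ∀ x ∈ D, a * x - x * a ∈ D' := by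
  classical
  -- a maximal two-sided ideal strictly below `D`
  obtain ⟨D', ⟨hlt, htwo⟩, hmax⟩ := (wellFounded_gt (α := Submodule ℝ A)).has_min
    {E : Submodule ℝ A | E < D ∧ ∀ a : A, ∀ x ∈ E, a * x ∈ E ∧ x * a ∈ E}
    ⟨⊥, bot_lt_iff_ne_bot.2 hD0, by
      intro a x hx
      rw [Submodule.mem_bot] at hx
      subst hx
      simp⟩
  have hmax' : ∀ E : Submodule ℝ A, (∀ a : A, ∀ x ∈ E, a * x ∈ E ∧ x * a ∈ E) → D' ≤ E → E ≤ D →
      E ≠ D → E = D' := by
    intro E hE h1 h2 h3
    by_contra h4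
    exact hmax E ⟨lt_of_le_of_ne h2 h3, hE⟩ (lt_of_le_of_ne h1 (Ne.symm h4))
  obtain ⟨m, hm⟩ := hn
  -- products with `J` fall into `D'`
  have hJD : J * D ≤ D' := by
    have hE : ∀ a : A, ∀ x ∈ J * D ⊔ D', a * x ∈ J * D ⊔ D' ∧ x * a ∈ J * D ⊔ D' := by
      intro a x hx
      obtain ⟨y, hy, z, hz, rfl⟩ := Submodule.mem_sup.1 hx
      have h1 : a * y ∈ J * D ∧ y * a ∈ J * D := by
        refine Submodule.mul_induction_on hy ?_ ?_
        · intro j hj x hx
          refine ⟨?_, ?_⟩
          · rw [← mul_assoc]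
            exact Submodule.mul_mem_mul (hJ a j hj).1 hx
          · rw [mul_assoc]
            exact Submodule.mul_mem_mul hj (hD a x hx).2
        · intro x y hx hy
          rw [mul_add, add_mul]
          exact ⟨add_mem hx.1 hy.1, add_mem hx.2 hy.2⟩
      have h2 := htwo a z hz
      rw [mul_add, add_mul]
      exact ⟨Submodule.add_mem_sup h1.1 h2.1, Submodule.add_mem_sup h1.2 h2.2⟩
    by_cases h : J * D ⊔ D' = D
    · exfalso
      have h3 : ∀ k : ℕ, D ≤ J ^ k * D ⊔ D' := by
        intro k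
        induction k with
        | zero =>
          rw [pow_zero, one_mul]
          exact le_sup_left
        | succ k ih =>
          have h4 : J ^ k * D ≤ J ^ (k + 1) * D ⊔ D' := by
            calc J ^ k * D = J ^ k * (J * D ⊔ D') := by rw [h]
              _ = J ^ k * (J * D) ⊔ J ^ k * D' := Submodule.mul_sup _ _ _
              _ ≤ J ^ (k + 1) * D ⊔ D' := by
                apply sup_le_sup
                · rw [← mul_assoc, ← pow_succ]
                · exact nh_maxideal_mul D' _ (fun a x hx => (htwo a x hx).1)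
          exact ih.trans (sup_le h4 le_sup_right)
      have h5 := h3 m
      rw [hm, Submodule.bot_mul, bot_sup_eq] at h5
      exact absurd hlt (not_lt_of_ge h5)
    · have h6 := hmax' _ hE le_sup_right
        (sup_le (nh_maxideal_mul D _ (fun a x hx => (hD a x hx).1)) hlt.le) h
      rw [← h6]
      exact le_sup_left
  have hDJ : D * J ≤ D' := by
    have hE : ∀ a : A, ∀ x ∈ D * J ⊔ D', a * x ∈ D * J ⊔ D' ∧ x * a ∈ D * J ⊔ D' := by
      intro a x hx
      obtain ⟨y, hy, z, hz, rfl⟩ := Submodule.mem_sup.1 hx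
      have h1 : a * y ∈ D * J ∧ y * a ∈ D * J := by
        refine Submodule.mul_induction_on hy ?_ ?_
        · intro x hx j hj
          refine ⟨?_, ?_⟩
          · rw [← mul_assoc]
            exact Submodule.mul_mem_mul (hD a x hx).1 hj
          · rw [mul_assoc]
            exact Submodule.mul_mem_mul hx (hJ a j hj).2
        · intro x y hx hy
          rw [mul_add, add_mul]
          exact ⟨add_mem hx.1 hy.1, add_mem hx.2 hy.2⟩
      have h2 := htwo a z hz
      rw [mul_add, add_mul]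
      exact ⟨Submodule.add_mem_sup h1.1 h2.1, Submodule.add_mem_sup h1.2 h2.2⟩
    by_cases h : D * J ⊔ D' = D
    · exfalso
      have h3 : ∀ k : ℕ, D ≤ D * J ^ k ⊔ D' := by
        intro k
        induction k with
        | zero =>
          rw [pow_zero, mul_one]
          exact le_sup_left
        | succ k ih =>
          have h4 : D * J ^ k ≤ D * J ^ (k + 1) ⊔ D' := by
            calc D * J ^ k = (D * J ⊔ D') * J ^ k := by rw [h]
              _ = D * J * J ^ k ⊔ D' * J ^ k := Submodule.sup_mul _ _ _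
              _ ≤ D * J ^ (k + 1) ⊔ D' := by
                apply sup_le_sup
                · rw [mul_assoc, ← pow_succ']
                · exact nh_maxideal_mul' D' _ (fun a x hx => (htwo a x hx).2)
          exact ih.trans (sup_le h4 le_sup_right)
      have h5 := h3 m
      rw [hm, Submodule.mul_bot, bot_sup_eq] at h5
      exact absurd hlt (not_lt_of_ge h5)
    · have h6 := hmax' _ hE le_sup_right
        (sup_le (nh_maxideal_mul' D _ (fun a x hx => (hD a x hx).2)) hlt.le) h
      rw [← h6]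
      exact le_sup_left
  refine ⟨D', hlt, htwo, fun a => ?_⟩
  -- the elements of `D` whose commutator with `a` is in `D'`
  let D2 : Submodule ℝ A :=
    { carrier := {x | x ∈ D ∧ a * x - x * a ∈ D'}
      add_mem' := by
        rintro x y ⟨hx, hx'⟩ ⟨hy, hy'⟩
        refine ⟨D.add_mem hx hy, ?_⟩
        have : a * (x + y) - (x + y) * a = (a * x - x * a) + (a * y - y * a) := by noncomm_ring
        rw [this]
        exact D'.add_mem hx' hy'
      zero_mem' := by simp
      smul_mem' := by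
        rintro c x ⟨hx, hx'⟩
        refine ⟨D.smul_mem c hx, ?_⟩
        have : a * (c • x) - (c • x) * a = c • (a * x - x * a) := by
          rw [mul_smul_comm, smul_mul_assoc, smul_sub]
        rw [this]
        exact D'.smul_mem c hx' }
  have hD2 : ∀ x, x ∈ D2 ↔ x ∈ D ∧ a * x - x * a ∈ D' := fun x => Iff.rfl
  have h1 : ∀ b : A, ∀ x ∈ D2, b * x ∈ D2 ∧ x * b ∈ D2 := by
    rintro b x hx
    rw [hD2] at hx
    obtain ⟨hx, hx'⟩ := hx
    refine ⟨(hD2 _).2 ⟨(hD b x hx).1, ?_⟩, (hD2 _).2 ⟨(hD b x hx).2, ?_⟩⟩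
    · have : a * (b * x) - b * x * a = (a * b - b * a) * x + b * (a * x - x * a) := by noncomm_ring
      rw [this]
      exact D'.add_mem (hJD (Submodule.mul_mem_mul (hc a b) hx)) (htwo b _ hx').1
    · have : a * (x * b) - x * b * a = (a * x - x * a) * b + x * (a * b - b * a) := by noncomm_ring
      rw [this]
      exact D'.add_mem (htwo b _ hx').2 (hDJ (Submodule.mul_mem_mul hx (hc a b)))
  have h2 : D' ≤ D2 := by
    intro x hx
    exact (hD2 _).2 ⟨hlt.le hx, D'.sub_mem (htwo a x hx).1 (htwo a x hx).2⟩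
  have h3 : D2 ≤ D := fun x hx => ((hD2 x).1 hx).1
  by_cases h4 : D2 = D
  · intro x hx
    rw [← h4] at hx
    exact ((hD2 x).1 hx).2
  · exfalso
    have h5 := hmax' D2 h1 h2 h3 h4
    obtain ⟨x, hx, hx'⟩ := SetLike.exists_of_lt hlt
    obtain ⟨m, hm⟩ := had
    have h6 : ∀ k : ℕ, (fun x => a * x - x * a)^[k] x ∈ D ∧ (fun x => a * x - x * a)^[k] x ∉ D' := by
      intro k
      induction k with
      | zero => exact ⟨hx, hx'⟩
      | succ k ih =>
        rw [Function.iterate_succ_apply']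
        refine ⟨D.sub_mem (hD a _ ih.1).1 (hD a _ ih.1).2, fun h => ih.2 ?_⟩
        rw [← h5]
        exact (hD2 _).2 ⟨ih.1, h⟩
    apply (h6 m).2
    rw [hm a x]
    exact D'.zero_mem

end SV
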