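import Pool.Agent.Helper43.NH.Defs
import Pool.Agent.Helper43.NH.Ideal

/-!
# NH7: lifting the unipotent group
-/

set_option autoImplicit false

namespace SV

open Filter Topology unitInterval

section lift

variable {A : Type*} [NormedRing A] [NormedAlgebra ℝ A]

/-- the inverse of `1 + j` for a nilpotent element `j` with `j ^ m = 0` -/
noncomputable def liftInv (m : ℕ) (j : A) : A := ∑ i ∈ Finset.range m, (-j) ^ i

theorem lift_pow_zero {J : Submodule ℝ A} {m : ℕ} (hm : J ^ m = ⊥) {j : A} (hj : j ∈ J) :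
    (-j) ^ m = 0 := by
  have h1 : (-j) ^ m ∈ J ^ m := Submodule.pow_mem_pow J (J.neg_mem hj) m
  rw [hm] at h1
  exact (Submodule.mem_bot ℝ).1 h1

theorem liftInv_mul {J : Submodule ℝ A} {m : ℕ} (hm : J ^ m = ⊥) {j : A} (hj : j ∈ J) :
    liftInv m j * (1 + j) = 1 := by
  have h1 := geom_sum_mul_neg (-j) m
  rw [lift_pow_zero hm hj, sub_zero, sub_neg_eq_add] at h1
  exact h1

omit [NormedAlgebra ℝ A] in
theorem liftInv_cont (m : ℕ) : Continuous (liftInv m : A → A) := by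
  unfold liftInv
  exact continuous_finsetSum _ fun i _ => (continuous_neg.pow i)

variable {n : ℕ}

/-- the action of `1 + a` on the affine chart -/
noncomputable def lAct (T : A →ₐ[ℝ] (VV n →L[ℝ] VV n)) (a : A) (p : Fin n → ℝ) : Fin n → ℝ :=
  (T (1 + a) (p, 1)).1

theorem lAct_cont [FiniteDimensional ℝ A] (T : A →ₐ[ℝ] (VV n →L[ℝ] VV n)) :
    Continuous (fun z : A × (Fin n → ℝ) => lAct T z.1 z.2) := by
  have hT : Continuous T := T.toLinearMap.continuous_of_finiteDimensional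
  have h1 : Continuous fun z : A × (Fin n → ℝ) => T (1 + z.1) :=
    hT.comp (continuous_const.add continuous_fst)
  have h2 : Continuous fun z : A × (Fin n → ℝ) => ((z.2, (1 : ℝ)) : VV n) :=
    continuous_snd.prodMk continuous_const
  exact continuous_fst.comp (h1.clm_apply h2)

theorem lAct_zero (T : A →ₐ[ℝ] (VV n →L[ℝ] VV n)) (p : Fin n → ℝ) : lAct T 0 p = p := by
  unfold lAct
  rw [add_zero, map_one]
  rfl

theorem lAct_pair (T : A →ₐ[ℝ] (VV n →L[ℝ] VV n)) {J : Submodule ℝ A}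
    (hJ2 : ∀ j ∈ J, ∀ v : VV n, (T j v).2 = 0) {j : A} (hj : j ∈ J) (p : Fin n → ℝ) :
    T (1 + j) (p, 1) = ((lAct T j p, 1) : VV n) := by
  refine Prod.ext rfl ?_
  rw [map_add, map_one]
  change ((1 : VV n →L[ℝ] VV n) (p, 1)).2 + (T j (p, 1)).2 = 1
  rw [hJ2 j hj]
  change (1 : ℝ) + 0 = 1
  rw [add_zero]

theorem lAct_comp (T : A →ₐ[ℝ] (VV n →L[ℝ] VV n)) {J : Submodule ℝ A}
    (hJ2 : ∀ j ∈ J, ∀ v : VV n, (T j v).2 = 0) {j' : A} (hj' : j' ∈ J) (j : A) (p : Fin n → ℝ) :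
    lAct T j (lAct T j' p) = (T ((1 + j) * (1 + j')) (p, 1)).1 := by
  rw [map_mul]
  change (T (1 + j) (lAct T j' p, 1)).1 = (T (1 + j) (T (1 + j') (p, 1))).1
  rw [lAct_pair T hJ2 hj']

theorem lift_small {M G : Type*} [TopologicalSpace M] [T2Space M] [Group G] [MulAction G M]
    [ContinuousConstSMul G M] [FiniteDimensional ℝ A]
    (T : A →ₐ[ℝ] (VV n →L[ℝ] VV n)) (gg : G →* A) (dev : M → (Fin n → ℝ))
    (hdev : IsLocalHomeomorph dev)
    (hgd : ∀ (g : G) x, T (gg g) (dev x, 1) = (dev (g • x), 1))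
    (K : Set M) (hK : IsCompact K) (hcov : ∀ x : M, ∃ g : G, ∃ y ∈ K, x = g • y)
    (J : Submodule ℝ A) (m : ℕ) (hm : J ^ m = ⊥)
    (hJ2 : ∀ j ∈ J, ∀ v : VV n, (T j v).2 = 0)
    (D D' : Submodule ℝ A) (hDJ : D ≤ J)
    (hD' : ∀ a : A, ∀ x ∈ D', a * x ∈ D' ∧ x * a ∈ D')
    (hcomm : ∀ a : A, ∀ x ∈ D, a * x - x * a ∈ D')
    (Ψ' : C(D' × M, M)) (h0 : ∀ x, Ψ' (0, x) = x)
    (h1 : ∀ (j : D') x, ((dev (Ψ' (j, x)), (1 : ℝ)) : VV n) = T (1 + (j : A)) (dev x, 1)) :
    ∃ ε > 0, ∀ a ∈ D, ‖a‖ < ε → ∀ x, ∃ Γ : C(I, M), FlowLift dev (lAct T) a x Γ := by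
  have hsmall : ∀ᶠ a : A in 𝓝 0, ∀ y ∈ K, ∃ Γ : C(I, M), FlowLift dev (lAct T) a y Γ :=
    hK.eventually_forall_of_forall_eventually fun y _ =>
      flow_local hdev (lAct_cont T) (lAct_zero T) y
  obtain ⟨ε, hε, hεa⟩ := Metric.eventually_nhds_iff.1 hsmall
  refine ⟨ε, hε, ?_⟩
  intro a haD ha x
  obtain ⟨g, y, hy, rfl⟩ := hcov x
  obtain ⟨Γy, hΓ0, hΓ⟩ := hεa (by rwa [dist_zero_right]) y hy
  obtain ⟨b, hb⟩ : ∃ b, b = gg g⁻¹ * a * gg g - a := ⟨_, rfl⟩
  have hgi : gg g⁻¹ * gg g = 1 := by rw [← map_mul, inv_mul_cancel, map_one]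
  have hgi' : gg g * gg g⁻¹ = 1 := by rw [← map_mul, mul_inv_cancel, map_one]
  have hbD : b ∈ D' := by
    have e1 : b = gg g⁻¹ * (-(gg g * a - a * gg g)) := by
      have e2 : gg g⁻¹ * (gg g * a) = a := by rw [← mul_assoc, hgi, one_mul]
      rw [hb, mul_neg, mul_sub, e2, neg_sub, mul_assoc]
    rw [e1]
    exact (hD' _ _ (D'.neg_mem (hcomm (gg g) a haD))).1
  have hcD : ∀ s : ℝ, s • (b * liftInv m (s • a)) ∈ D' := fun s =>
    D'.smul_mem _ (hD' _ _ hbD).2
  have hcont : Continuous fun s : I =>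
      ((⟨(s : ℝ) • (b * liftInv m ((s : ℝ) • a)), hcD s⟩ : D'), Γy s) := by
    refine Continuous.prodMk (Continuous.subtype_mk ?_ _) Γy.continuous
    refine continuous_subtype_val.smul (continuous_const.mul ?_)
    exact (liftInv_cont m).comp (continuous_subtype_val.smul continuous_const)
  refine ⟨⟨fun s => g • Ψ' ((⟨(s : ℝ) • (b * liftInv m ((s : ℝ) • a)), hcD s⟩ : D'), Γy s),
    (continuous_const_smul g).comp (Ψ'.continuous.comp hcont)⟩, ?_, ?_⟩
  · change g • Ψ' (_, Γy 0) = g • y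
    have e1 : (⟨((0 : I) : ℝ) • (b * liftInv m (((0 : I) : ℝ) • a)), hcD _⟩ : D') = 0 := by
      apply Subtype.ext
      simp
    rw [e1, h0, hΓ0]
  · intro s
    have hsa : (s : ℝ) • a ∈ J := J.smul_mem _ (hDJ haD)
    have e1 : ((dev (Γy s), (1 : ℝ)) : VV n) = T (1 + (s : ℝ) • a) (dev y, 1) := by
      rw [hΓ s, lAct_pair T hJ2 hsa]
    have e2 := h1 (⟨(s : ℝ) • (b * liftInv m ((s : ℝ) • a)), hcD s⟩ : D') (Γy s)
    rw [e1] at e2
    have e3 := hgd g (Ψ' ((⟨(s : ℝ) • (b * liftInv m ((s : ℝ) • a)), hcD s⟩ : D'), Γy s))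
    rw [e2] at e3
    have e4 : gg g * ((1 + (s : ℝ) • (b * liftInv m ((s : ℝ) • a))) * (1 + (s : ℝ) • a)) =
        (1 + (s : ℝ) • a) * gg g := by
      have e5 : (1 + (s : ℝ) • (b * liftInv m ((s : ℝ) • a))) * (1 + (s : ℝ) • a) =
          1 + (s : ℝ) • a + (s : ℝ) • b := by
        rw [add_mul, one_mul, smul_mul_assoc, mul_assoc, liftInv_mul hm hsa, mul_one]
      rw [e5, hb, smul_sub]
      have e6 : (1 : A) + (s : ℝ) • a + ((s : ℝ) • (gg g⁻¹ * a * gg g) - (s : ℝ) • a) =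
          1 + (s : ℝ) • (gg g⁻¹ * a * gg g) := by abel
      rw [e6, mul_add, mul_one, add_mul, one_mul, mul_smul_comm, smul_mul_assoc, ← mul_assoc,
        ← mul_assoc, hgi', one_mul]
    have e7 : T (gg g) (T (1 + (s : ℝ) • (b * liftInv m ((s : ℝ) • a)))
        (T (1 + (s : ℝ) • a) (dev y, 1))) = T (1 + (s : ℝ) • a) (T (gg g) (dev y, 1)) := by
      have e8 := congrArg (fun z => T z (dev y, 1)) e4
      simp only [map_mul] at e8
      exact e8
    change dev (g • Ψ' (_, Γy s)) = (T (1 + (s : ℝ) • a) (dev (g • y), 1)).1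
    rw [← hgd g y, ← e7]
    have e9 := congrArg Prod.fst e3
    exact e9.symm

theorem lift_extend {M : Type*} [TopologicalSpace M] [FiniteDimensional ℝ A]
    (T : A →ₐ[ℝ] (VV n →L[ℝ] VV n)) (dev : M → (Fin n → ℝ))
    (J : Submodule ℝ A) (m : ℕ) (hm : J ^ m = ⊥)
    (hJ2 : ∀ j ∈ J, ∀ v : VV n, (T j v).2 = 0)
    (D : Submodule ℝ A) (hDJ : D ≤ J) (hD : ∀ a : A, ∀ x ∈ D, a * x ∈ D ∧ x * a ∈ D)
    (ε : ℝ) (hε : 0 < ε)
    (hsmall : ∀ a ∈ D, ‖a‖ < ε → ∀ x, ∃ Γ : C(I, M), FlowLift dev (lAct T) a x Γ)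
    (a : A) (ha : a ∈ D) (x : M) : ∃ Γ : C(I, M), FlowLift dev (lAct T) a x Γ := by
  have hc : Continuous fun t : ℝ => ‖a * liftInv m (t • a)‖ :=
    (continuous_const.mul ((liftInv_cont m).comp (continuous_id.smul continuous_const))).norm
  obtain ⟨C, hC⟩ := (isCompact_Icc (a := (0 : ℝ)) (b := 1)).bddAbove_image hc.continuousOn
  have hCt : ∀ t : ℝ, 0 ≤ t → t ≤ 1 → ‖a * liftInv m (t • a)‖ ≤ C := fun t h1 h2 =>
    hC (Set.mem_image_of_mem _ ⟨h1, h2⟩)
  have hC0 : 0 ≤ C := (norm_nonneg _).trans (hCt 0 le_rfl zero_le_one)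
  obtain ⟨N, hN⟩ := exists_nat_gt (C / ε)
  have hN0 : (0 : ℝ) < N := lt_of_le_of_lt (div_nonneg hC0 hε.le) hN
  have hCN : C / N < ε := by
    rw [div_lt_iff₀ hN0]
    rw [div_lt_iff₀ hε] at hN
    linarith
  have key : ∀ k : ℕ, k ≤ N → ∃ γ : ℝ → M, Continuous γ ∧ γ 0 = x ∧
      ∀ s : ℝ, 0 ≤ s → s ≤ k / N → dev (γ s) = lAct T (s • a) (dev x) := by
    intro k
    induction k with
    | zero =>
      intro _
      refine ⟨fun _ => x, continuous_const, rfl, ?_⟩
      intro s h1 h2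
      have h3 : s = 0 := by
        refine le_antisymm ?_ h1
        simpa using h2
      rw [h3, zero_smul, lAct_zero]
    | succ k ih =>
      intro hk
      obtain ⟨γ, hγc, hγ0, hγ⟩ := ih (by omega)
      obtain ⟨t, ht⟩ : ∃ t : ℝ, t = k / N := ⟨_, rfl⟩
      have ht0 : 0 ≤ t := by rw [ht]; positivity
      have ht1 : t ≤ 1 := by
        rw [ht, div_le_one hN0]
        exact_mod_cast (by omega : k ≤ N)
      have hta : t • a ∈ J := J.smul_mem _ (hDJ ha)
      obtain ⟨c, hcdef⟩ : ∃ c : A, c = (1 / (N : ℝ)) • (a * liftInv m (t • a)) := ⟨_, rfl⟩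
      have hcD : c ∈ D := by rw [hcdef]; exact D.smul_mem _ (hD _ _ ha).2
      have hcn : ‖c‖ < ε := by
        rw [hcdef, norm_smul, Real.norm_of_nonneg (by positivity)]
        have e1 := hCt t ht0 ht1
        have e2 : 1 / (N : ℝ) * ‖a * liftInv m (t • a)‖ ≤ 1 / (N : ℝ) * C :=
          mul_le_mul_of_nonneg_left e1 (by positivity)
        have e3 : 1 / (N : ℝ) * C = C / N := by ring
        linarith
      obtain ⟨Γ, hΓ0, hΓ⟩ := hsmall c hcD hcn (γ t)
      refine ⟨fun s => if s ≤ t then γ s else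
        Γ (Set.projIcc 0 1 zero_le_one ((N : ℝ) * (s - t))), ?_, ?_, ?_⟩
      · refine Continuous.if_le hγc ?_ continuous_id continuous_const ?_
        · exact Γ.continuous.comp (continuous_projIcc.comp
            (continuous_const.mul (continuous_id.sub continuous_const)))
        · intro s hs
          have hs' : s = t := hs
          rw [hs', sub_self, mul_zero, Set.projIcc_left]
          exact hΓ0.symm
      · simp only [ht0, if_true]
        exact hγ0
      · intro s hs0 hs1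
        simp only
        split_ifs with hst
        · exact hγ s hs0 (by rw [← ht]; exact hst)
        · push Not at hst
          have hr0 : 0 ≤ (N : ℝ) * (s - t) := mul_nonneg hN0.le (by linarith)
          have hr1 : (N : ℝ) * (s - t) ≤ 1 := by
            have e1 : s ≤ t + 1 / N := by
              rw [ht]
              refine hs1.trans (le_of_eq ?_)
              push_cast
              ring
            have e2 : (N : ℝ) * (s - t) ≤ N * (1 / N) :=
              mul_le_mul_of_nonneg_left (by linarith) hN0.le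
            rwa [mul_one_div_cancel hN0.ne'] at e2
          rw [Set.projIcc_of_mem zero_le_one ⟨hr0, hr1⟩, hΓ]
          simp only
          rw [hγ t ht0 (le_of_eq ht), lAct_comp T hJ2 hta]
          unfold lAct
          congr 3
          have e3 : a * liftInv m (t • a) * (1 + t • a) = a := by
            rw [mul_assoc a, liftInv_mul hm hta, mul_one]
          rw [hcdef, add_mul, one_mul, smul_smul, smul_mul_assoc, e3, add_assoc, ← add_smul]
          congr 2
          field_simp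
          ring
  obtain ⟨γ, hγc, hγ0, hγ⟩ := key N le_rfl
  refine ⟨⟨fun s => γ s, hγc.comp continuous_subtype_val⟩, ?_, ?_⟩
  · simpa using hγ0
  · intro s
    refine hγ s s.2.1 ?_
    rw [div_self hN0.ne']
    exact s.2.2

theorem lift_joint {M : Type*} [TopologicalSpace M] [T2Space M] [FiniteDimensional ℝ A]
    (T : A →ₐ[ℝ] (VV n →L[ℝ] VV n)) (dev : M → (Fin n → ℝ)) (hdev : IsLocalHomeomorph dev)
    (J : Submodule ℝ A) (hJ2 : ∀ j ∈ J, ∀ v : VV n, (T j v).2 = 0)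
    (D : Submodule ℝ A) (hDJ : D ≤ J)
    (hgood : ∀ (a : D) (x : M), ∃ Γ : C(I, M), FlowLift dev (lAct T) (a : A) x Γ) :
    ∃ Ψ : C(D × M, M), (∀ x, Ψ (0, x) = x) ∧
      ∀ (j : D) x, ((dev (Ψ (j, x)), (1 : ℝ)) : VV n) = T (1 + (j : A)) (dev x, 1) := by
  choose Γ hΓ using hgood
  have hdc : Continuous dev := hdev.continuous
  set g : I × (D × M) → M := fun z => Γ z.2.1 z.2.2 z.1 with hg
  have hgc : Continuous g := by
    refine hdev.continuous_lift (T2Space.isSeparatedMap dev)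
      (⟨fun z : I × (D × M) => lAct T ((z.1 : ℝ) • (z.2.1 : A)) (dev z.2.2), ?_⟩ :
        C(I × (D × M), Fin n → ℝ)) ?_ ?_ ?_
    · exact (lAct_cont T).comp (((continuous_subtype_val.comp continuous_fst).smul
        (continuous_subtype_val.comp (continuous_fst.comp continuous_snd))).prodMk
        (hdc.comp (continuous_snd.comp continuous_snd)))
    · funext z
      exact (hΓ z.2.1 z.2.2).2 z.1
    · have h1 : (fun a : D × M => g (0, a)) = fun a => a.2 := by
        funext a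
        exact (hΓ a.1 a.2).1
      rw [h1]
      exact continuous_snd
    · intro a
      exact (Γ a.1 a.2).continuous
  have hg0 : ∀ X x, g (0, (X, x)) = x := fun X x => (hΓ X x).1
  have hgd : ∀ s X x, dev (g (s, (X, x))) = lAct T ((s : ℝ) • (X : A)) (dev x) := fun s X x =>
    (hΓ X x).2 s
  have hgs : ∀ X x, Continuous fun s : I => g (s, (X, x)) := fun X x => (Γ X x).continuous
  refine ⟨⟨fun z => g (1, z), hgc.comp (continuous_const.prodMk continuous_id)⟩, ?_, ?_⟩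
  · intro x
    exact flow_unique hdev (hgs 0 x) (continuous_const (y := x)) (fun s => by
      rw [hgd, ZeroMemClass.coe_zero, smul_zero, lAct_zero]) (hg0 0 x) 1
  · intro j x
    rw [lAct_pair T hJ2 (hDJ j.2)]
    refine Prod.ext ?_ rfl
    change dev (g (1, (j, x))) = _
    rw [hgd]
    simp

end lift

theorem nh_lift {n : ℕ} {M G A : Type*} [TopologicalSpace M] [T2Space M] [Group G] [MulAction G M]
    [ContinuousConstSMul G M] [NormedRing A] [NormedAlgebra ℝ A] [FiniteDimensional ℝ A]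
    (T : A →ₐ[ℝ] (VV n →L[ℝ] VV n)) (gg : G →* A) (dev : M → (Fin n → ℝ)) (hdev : IsLocalHomeomorph dev)
    (hgd : ∀ (g : G) x, T (gg g) (dev x, 1) = (dev (g • x), 1))
    (K : Set M) (hK : IsCompact K) (hcov : ∀ x : M, ∃ g : G, ∃ y ∈ K, x = g • y)
    (J : Submodule ℝ A) (hJ : ∀ a : A, ∀ j ∈ J, a * j ∈ J ∧ j * a ∈ J) (hc : ∀ a b : A, a * b - b * a ∈ J)
    (hn : ∃ m : ℕ, J ^ m = ⊥) (had : ∃ m : ℕ, ∀ a b : A, (fun x => a * x - x * a)^[m] b = 0)
    (hJ2 : ∀ j ∈ J, ∀ v : VV n, (T j v).2 = 0) :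
    ∃ Ψ : C(J × M, M), (∀ x, Ψ (0, x) = x) ∧ ∀ (j : J) x, ((dev (Ψ (j, x)), (1 : ℝ)) : VV n) = T (1 + (j : A)) (dev x, 1) := by
  obtain ⟨m, hm⟩ := hn
  have key : ∀ d : ℕ, ∀ D : Submodule ℝ A, Module.finrank ℝ D ≤ d → D ≤ J →
      (∀ a : A, ∀ x ∈ D, a * x ∈ D ∧ x * a ∈ D) →
      ∃ Ψ : C(D × M, M), (∀ x, Ψ (0, x) = x) ∧
        ∀ (j : D) x, ((dev (Ψ (j, x)), (1 : ℝ)) : VV n) = T (1 + (j : A)) (dev x, 1) := by
    intro d
    induction d with
    | zero =>
      intro D hd _ _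
      have hD0 : D = ⊥ := Submodule.finrank_eq_zero.1 (Nat.le_zero.1 hd)
      subst hD0
      refine ⟨⟨fun z => z.2, continuous_snd⟩, fun x => rfl, ?_⟩
      intro j x
      have hj : (j : A) = 0 := (Submodule.mem_bot ℝ).1 j.2
      rw [hj, add_zero, map_one]
      rfl
    | succ d ih =>
      intro D hd hDJ hD
      by_cases hD0 : D = ⊥
      · exact ih D (by rw [hD0]; simp) hDJ hD
      · obtain ⟨D', hlt, hD', hcomm⟩ := nh_maxideal J hJ hc ⟨m, hm⟩ had D hD hD0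
        have hfr : Module.finrank ℝ D' < Module.finrank ℝ D := Submodule.finrank_lt_finrank_of_lt hlt
        obtain ⟨Ψ', h0, h1⟩ := ih D' (by omega) (hlt.le.trans hDJ) hD'
        obtain ⟨ε, hε, hsmall⟩ := lift_small T gg dev hdev hgd K hK hcov J m hm hJ2 D D' hDJ
          hD' hcomm Ψ' h0 h1
        refine lift_joint T dev hdev J hJ2 D hDJ ?_
        intro a x
        exact lift_extend T dev J m hm hJ2 D hDJ hD ε hε hsmall a a.2 x
  exact key _ J le_rfl le_rfl hJ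

end SV
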