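import Pool.Agent.Helper43.NH.Defs

/-! Project NH: local vanishing of the homology modulo a group, by averaging over the finite stabiliser. -/

namespace SV

open Filter Topology

/-- the standard simplex is preconnected -/
theorem Dl_preconnected (m : ℕ) : PreconnectedSpace (Dl m) :=
  Subtype.preconnectedSpace (convex_stdSimplex ℝ (Fin (m + 1))).isPreconnected

section local_aux

variable {Q Γ : Type*} [TopologicalSpace Q] [Group Γ] [MulAction Γ Q] [ContinuousConstSMul Γ Q]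

omit [TopologicalSpace Q] [ContinuousConstSMul Γ Q] in
/-- the stabiliser property, pointwise -/
theorem lg_mem {V : Set Q} (hstab : ∀ g : Γ, ((fun y => g • y) '' V ∩ V).Nonempty → (fun y => g • y) '' V = V)
    {g : Γ} {x : Q} (hx : x ∈ V) (hgx : g • x ∈ V) (y : Q) : g • y ∈ V ↔ y ∈ V := by
  have h := hstab g ⟨g • x, ⟨x, hx, rfl⟩, hgx⟩
  constructor
  · intro hy
    rw [← h] at hy
    obtain ⟨y', hy', he⟩ := hy
    have : y' = y := MulAction.injective g he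
    rwa [← this]
  · intro hy
    have : g • y ∈ (fun y => g • y) '' V := ⟨y, hy, rfl⟩
    rwa [h] at this

/-- a simplex in the saturation of V can be moved into V -/
theorem lg_move {V : Set Q} (hV : IsOpen V)
    (hstab : ∀ g : Γ, ((fun y => g • y) '' V ∩ V).Nonempty → (fun y => g • y) '' V = V)
    {m : ℕ} (σ : Sx Q m) (hσ : ∀ t, ∃ g : Γ, g • σ t ∈ V) : ∃ g : Γ, ∀ t, g • σ t ∈ V := by
  have := Dl_preconnected m
  obtain ⟨g, hg⟩ := hσ (vtx 0)
  refine ⟨g, ?_⟩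
  have hcont : ∀ h : Γ, Continuous (fun t => h • σ t) := fun h => (continuous_const_smul h).comp σ.continuous
  have hopen : IsOpen {t | g • σ t ∈ V} := hV.preimage (hcont g)
  have hclosed : IsClosed {t | g • σ t ∈ V} := by
    rw [← isOpen_compl_iff, isOpen_iff_forall_mem_open]
    intro t ht
    obtain ⟨h, hh⟩ := hσ t
    refine ⟨{t' | h • σ t' ∈ V}, ?_, hV.preimage (hcont h), hh⟩
    intro t' ht' htg
    have ht'' : h • σ t' ∈ V := ht'
    have htg' : g • σ t' ∈ V := htg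
    apply ht
    have key := lg_mem hstab (g := h * g⁻¹) (x := g • σ t') htg' (by rw [smul_smul, inv_mul_cancel_right]; exact ht'') (g • σ t)
    rw [smul_smul, inv_mul_cancel_right] at key
    exact key.1 hh
  have huniv : {t | g • σ t ∈ V} = Set.univ := IsClopen.eq_univ ⟨hclosed, hopen⟩ ⟨vtx 0, hg⟩
  intro t
  have : t ∈ {t | g • σ t ∈ V} := by rw [huniv]; trivial
  exact this

/-- the average factors through the orbits -/
theorem lg_kill {V : Set Q} (H : Finset Γ)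
    (hH : ∀ (g : Γ) (x : Q), x ∈ V → g • x ∈ V → g ∈ H)
    (hmul : ∀ g ∈ H, ∀ h, h * g ∈ H ↔ h ∈ H) {m : ℕ} (c : SC Q m) (hc : SIn V c) (hJ : c ∈ JJ (⊤ : Subgroup Γ) m) :
    ∑ h ∈ H, tr h m c = 0 := by
  classical
  -- the average
  set P : SC Q m →ₗ[ℝ] SC Q m := ∑ h ∈ H, tr h m with hP
  have hPa : ∀ c, P c = ∑ h ∈ H, tr h m c := by
    intro c; rw [hP, LinearMap.sum_apply]
  have hinv : ∀ g ∈ H, ∀ c, P (tr g m c) = P c := by
    intro g hg c
    rw [hPa, hPa]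
    refine Finset.sum_bij' (fun h _ => h * g) (fun h _ => h * g⁻¹) ?_ ?_ ?_ ?_ ?_
    · intro h hh; exact (hmul g hg h).2 hh
    · intro h hh
      rw [← hmul g hg, inv_mul_cancel_right]; exact hh
    · intro h _; exact mul_inv_cancel_right h g
    · intro h _; exact inv_mul_cancel_right h g
    · intro h _; rw [tr_mul]
  set L : (Quotient (MulAction.orbitRel (⊤ : Subgroup Γ) (Sx Q m)) →₀ ℝ) →ₗ[ℝ] SC Q m :=
    Finsupp.linearCombination ℝ (fun q =>
      if h : ∃ σ : Sx Q m, Quotient.mk (MulAction.orbitRel (⊤ : Subgroup Γ) (Sx Q m)) σ = q ∧ ∀ t, σ t ∈ V then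
        P (Finsupp.single h.choose 1) else 0) with hL
  have hkey : P c = L (orb (⊤ : Subgroup Γ) c) := by
    rw [fsum c]
    simp only [map_sum, map_smul]
    refine Finset.sum_congr rfl (fun σ hσ => ?_)
    congr 1
    rw [orb_single, hL, Finsupp.linearCombination_single, one_smul]
    have hex : ∃ σ' : Sx Q m, Quotient.mk (MulAction.orbitRel (⊤ : Subgroup Γ) (Sx Q m)) σ' =
        Quotient.mk (MulAction.orbitRel (⊤ : Subgroup Γ) (Sx Q m)) σ ∧ ∀ t, σ' t ∈ V := ⟨σ, rfl, hc σ hσ⟩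
    rw [dif_pos hex]
    obtain ⟨h1, h2⟩ := hex.choose_spec
    generalize hex.choose = σ' at h1 h2
    rw [Quotient.eq] at h1
    obtain ⟨⟨g, _⟩, hg⟩ := h1
    have hg' : g • σ = σ' := hg
    have hgH : g ∈ H := by
      refine hH g (σ (vtx 0)) (hc σ hσ _) ?_
      have : (g • σ) (vtx 0) = σ' (vtx 0) := by rw [hg']
      have h3 : g • (σ (vtx 0)) = σ' (vtx 0) := this
      rw [h3]
      exact h2 _
    rw [← hg', ← tr_single, hinv g hgH]
  rw [← hPa, hkey, orb_JJ hJ, map_zero]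

end local_aux

theorem ExG_local {d : ℕ} {Q Γ : Type*} [TopologicalSpace Q] [Group Γ] [MulAction Γ Q] [ContinuousConstSMul Γ Q]
    (V : Set Q) (hV : IsOpen V) (hfin : {g : Γ | ((fun y => g • y) '' V ∩ V).Nonempty}.Finite)
    (hstab : ∀ g : Γ, ((fun y => g • y) '' V ∩ V).Nonempty → (fun y => g • y) '' V = V)
    (O : Set (Fin d → ℝ)) (j : C(O, Q)) (hO : IsOpen O) (hj : IsOpenEmbedding j) (hVj : V ⊆ Set.range j)
    (S : Set Q) (hS : IsOpen S) (hSi : ∀ g : Γ, ∀ x ∈ S, g • x ∈ S) (hSV : ∀ x ∈ S, ∃ g : Γ, g • x ∈ V)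
    (k : ℕ) (hk : d ≤ k + 1) : ExG Γ k S := by
  classical
  intro z hz hzJ
  rcases V.eq_empty_or_nonempty with hVe | ⟨x0, hx0⟩
  · -- nothing to do
    have hz0 : z = 0 := by
      rw [← Finsupp.support_eq_empty, Finset.eq_empty_iff_forall_notMem]
      intro σ hσ
      obtain ⟨g, hg⟩ := hSV _ (hz σ hσ (vtx 0))
      rw [hVe] at hg
      exact hg
    refine ⟨0, SIn.zero, ?_⟩
    rw [hz0, map_zero, sub_zero]
    exact Submodule.zero_mem _
  set H : Finset Γ := hfin.toFinset with hHdef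
  have hHmem : ∀ g : Γ, g ∈ H ↔ ((fun y => g • y) '' V ∩ V).Nonempty := by
    intro g; rw [hHdef, Set.Finite.mem_toFinset]; exact Iff.rfl
  have hHV : ∀ g ∈ H, ∀ y, g • y ∈ V ↔ y ∈ V := by
    intro g hg y
    obtain ⟨w, ⟨x, hx, hxw⟩, hw⟩ := (hHmem g).1 hg
    refine lg_mem hstab hx ?_ y
    have : g • x = w := hxw
    rwa [this]
  have hH1 : ∀ (g : Γ) (x : Q), x ∈ V → g • x ∈ V → g ∈ H := by
    intro g x hx hgx
    exact (hHmem g).2 ⟨g • x, ⟨x, hx, rfl⟩, hgx⟩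
  have hone : (1 : Γ) ∈ H := hH1 1 x0 hx0 (by rwa [one_smul])
  have hmul : ∀ g ∈ H, ∀ h, h * g ∈ H ↔ h ∈ H := by
    intro g hg h
    constructor
    · intro hh
      refine hH1 h (g • x0) ((hHV g hg x0).2 hx0) ?_
      rw [smul_smul]
      exact (hHV _ hh x0).2 hx0
    · intro hh
      refine hH1 (h * g) x0 hx0 ?_
      rw [mul_smul]
      exact (hHV h hh _).2 ((hHV g hg _).2 hx0)
  -- move every simplex into V
  have hmove : ∀ σ ∈ z.support, ∃ g : Γ, ∀ t, g • σ t ∈ V := fun σ hσ =>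
    lg_move hV hstab σ (fun t => hSV _ (hz σ hσ t))
  choose! mg hmg using hmove
  set z1 : SC Q (k + 1) := ∑ σ ∈ z.support, z σ • Finsupp.single (mg σ • σ) (1 : ℝ) with hz1
  have hz1S : SIn (S ∩ V) z1 := by
    refine SIn.sum _ _ (fun σ hσ => ?_)
    have hσS : SIn (S ∩ V) (Finsupp.single (mg σ • σ) (1 : ℝ)) :=
      SIn.single 1 (fun t => ⟨hSi (mg σ) _ (hz σ hσ t), hmg σ hσ t⟩)
    exact hσS.smul _
  have hzz1 : z - z1 ∈ JJ (⊤ : Subgroup Γ) (k + 1) := by
    have : z - z1 = ∑ σ ∈ z.support, z σ • (Finsupp.single σ (1 : ℝ) - Finsupp.single (mg σ • σ) (1 : ℝ)) := by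
      have h0 : z - z1 = ∑ σ ∈ z.support, z σ • Finsupp.single σ (1 : ℝ) - z1 := by rw [← fsum z]
      rw [h0, hz1, ← Finset.sum_sub_distrib]
      exact Finset.sum_congr rfl (fun σ _ => by rw [smul_sub])
    rw [this]
    refine Submodule.sum_mem _ (fun σ _ => Submodule.smul_mem _ _ ?_)
    have h5 := (JJ (⊤ : Subgroup Γ) (k + 1)).neg_mem
      (JJ.mk (M := Q) (k := k + 1) (Subgroup.mem_top (mg σ)) (Finsupp.single σ (1 : ℝ)))
    rw [neg_sub, tr_single] at h5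
    exact h5
  have hbz1 : bd k z1 ∈ JJ (⊤ : Subgroup Γ) k := by
    have h1 := JJ.bd hzz1
    rw [map_sub] at h1
    have h2 := Submodule.sub_mem _ hzJ h1
    rwa [sub_sub_cancel] at h2
  -- the average
  have hP0 : ∑ h ∈ H, tr h k (bd k z1) = 0 :=
    lg_kill H hH1 hmul _ (hz1S.mono Set.inter_subset_right).bd hbz1
  have hbP : bd k (∑ h ∈ H, tr h (k + 1) z1) = 0 := by
    rw [map_sum, ← hP0]
    exact Finset.sum_congr rfl (fun h _ => bd_tr h k z1)
  have hPS : SIn (S ∩ V) (∑ h ∈ H, tr h (k + 1) z1) := by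
    refine SIn.sum _ _ (fun h hh => ?_)
    refine SIn.smap (S := S ∩ V) (T := S ∩ V) (fun x hx => ?_) hz1S
    exact ⟨hSi h x hx.1, (hHV h hh x).2 hx.2⟩
  obtain ⟨w0, hw0, hbw0⟩ := Ex_chart O j hO hj (S ∩ V) (hS.inter hV) (Set.inter_subset_right.trans hVj) k hk _ hPS hbP
  have hN : (0 : ℝ) < (H.card : ℝ) := by
    exact_mod_cast Finset.card_pos.2 ⟨1, hone⟩
  have hPJ : ∑ h ∈ H, tr h (k + 1) z1 - (H.card : ℝ) • z1 ∈ JJ (⊤ : Subgroup Γ) (k + 1) := by
    have : ∑ h ∈ H, tr h (k + 1) z1 - (H.card : ℝ) • z1 = ∑ h ∈ H, (tr h (k + 1) z1 - z1) := by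
      rw [Finset.sum_sub_distrib, Finset.sum_const, ← Nat.cast_smul_eq_nsmul ℝ]
    rw [this]
    exact Submodule.sum_mem _ (fun h _ => JJ.mk (Subgroup.mem_top h) _)
  refine ⟨(H.card : ℝ)⁻¹ • w0, (hw0.mono Set.inter_subset_left).smul _, ?_⟩
  have hfinal : z - bd (k + 1) ((H.card : ℝ)⁻¹ • w0) = (z - z1) -
      (H.card : ℝ)⁻¹ • (∑ h ∈ H, tr h (k + 1) z1 - (H.card : ℝ) • z1) := by
    rw [map_smul, hbw0, smul_sub, smul_smul, inv_mul_cancel₀ hN.ne', one_smul]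
    abel
  rw [hfinal]
  exact Submodule.sub_mem _ hzz1 (Submodule.smul_mem _ _ hPJ)

end SV
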