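import Pool.Agent.Helper43.NH.Defs

/-! Mayer-Vietoris for chains modulo a group. -/

namespace SV

open Finset Topology

section aux

variable {X Y : Type*} [TopologicalSpace X] [TopologicalSpace Y]

theorem mvg_Th_smap (f : C(X, Y)) (k : ℕ) (c : SC X k) : Th Y k (smap f k c) = smap f (k + 1) (Th X k c) := by
  have : (Th Y k).comp (smap f k) = (smap f (k + 1)).comp (Th X k) := by
    refine Finsupp.lhom_ext' (fun σ => LinearMap.ext_ring ?_)
    simp only [LinearMap.comp_apply, Finsupp.lsingle_apply]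
    rw [smap_single, Th_single, Th_single, smap_smap]
  exact LinearMap.congr_fun this c

end aux

section grp

variable {Q Γ : Type*} [TopologicalSpace Q] [Group Γ] [MulAction Γ Q] [ContinuousConstSMul Γ Q]

theorem mvg_Sd_JJ {k : ℕ} {c : SC Q k} (hc : c ∈ JJ (⊤ : Subgroup Γ) k) : Sd Q k c ∈ JJ (⊤ : Subgroup Γ) k :=
  JJ.map (Sd Q k) (fun _ _ c => Sd_smap _ k c) hc

theorem mvg_Th_JJ {k : ℕ} {c : SC Q k} (hc : c ∈ JJ (⊤ : Subgroup Γ) k) : Th Q k c ∈ JJ (⊤ : Subgroup Γ) (k + 1) :=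
  JJ.map (Th Q k) (fun _ _ c => mvg_Th_smap _ k c) hc

theorem mvg_Sd_pow_JJ {k : ℕ} (N : ℕ) {c : SC Q k} (hc : c ∈ JJ (⊤ : Subgroup Γ) k) :
    ((Sd Q k) ^ N) c ∈ JJ (⊤ : Subgroup Γ) k := by
  induction N with
  | zero => simpa using hc
  | succ N ih =>
    rw [pow_succ', Module.End.mul_apply]
    exact mvg_Sd_JJ ih

theorem mvg_exists_Sd_pow (k N : ℕ) (S : Set Q) (z : SC Q (k + 1)) (hz : bd k z ∈ JJ (⊤ : Subgroup Γ) k)
    (hS : SIn S z) : ∃ c : SC Q (k + 2), SIn S c ∧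
      z - ((Sd Q (k + 1)) ^ N) z - bd (k + 1) c ∈ JJ (⊤ : Subgroup Γ) (k + 1) := by
  induction N with
  | zero =>
    refine ⟨0, SIn.zero, ?_⟩
    simp
  | succ N ih =>
    obtain ⟨c, hc, hc'⟩ := ih
    refine ⟨c + Th Q (k + 1) (((Sd Q (k + 1)) ^ N) z), hc.add (hS.Sd_pow N).Th, ?_⟩
    have h1 : Th Q k (bd k (((Sd Q (k + 1)) ^ N) z)) ∈ JJ (⊤ : Subgroup Γ) (k + 1) := by
      rw [bd_Sd_pow]
      exact mvg_Th_JJ (mvg_Sd_pow_JJ N hz)
    have h2 : z - ((Sd Q (k + 1)) ^ (N + 1)) z - bd (k + 1) (c + Th Q (k + 1) (((Sd Q (k + 1)) ^ N) z)) =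
        (z - ((Sd Q (k + 1)) ^ N) z - bd (k + 1) c) + Th Q k (bd k (((Sd Q (k + 1)) ^ N) z)) := by
      rw [map_add, bd_Th, pow_succ', Module.End.mul_apply]
      abel
    rw [h2]
    exact Submodule.add_mem _ hc' h1

/-- two chains supported in invariant sets which cancel modulo the group: a representative in the intersection -/
theorem mvg_common {k : ℕ} {A B : Set Q} (hAi : ∀ g : Γ, ∀ x ∈ A, g • x ∈ A) (hBi : ∀ g : Γ, ∀ x ∈ B, g • x ∈ B)
    {x y : SC Q k} (hx : SIn A x) (hy : SIn B y) (hxy : x + y ∈ JJ (⊤ : Subgroup Γ) k) :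
    ∃ c : SC Q k, SIn (A ∩ B) c ∧ c - x ∈ JJ (⊤ : Subgroup Γ) k := by
  classical
  have h0 : orb (⊤ : Subgroup Γ) x = - orb (⊤ : Subgroup Γ) y := by
    have := orb_JJ hxy
    rw [map_add] at this
    exact eq_neg_of_add_eq_zero_left this
  -- members of the support of the orbit chain
  have h1 : ∀ (S : Set Q) (u : SC Q k), (∀ g : Γ, ∀ x ∈ S, g • x ∈ S) → SIn S u →
      ∀ q ∈ (orb (⊤ : Subgroup Γ) u).support, ∀ t, q.out t ∈ S := by
    intro S u hS hu q hq t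
    have h2 : ∃ σ ∈ u.support, Quotient.mk (MulAction.orbitRel (⊤ : Subgroup Γ) (Sx Q k)) σ = q := by
      have h3 := Finsupp.mapDomain_support (f := Quotient.mk (MulAction.orbitRel (⊤ : Subgroup Γ) (Sx Q k))) (s := u)
      have h4 : q ∈ Finset.image (Quotient.mk (MulAction.orbitRel (⊤ : Subgroup Γ) (Sx Q k))) u.support := h3 hq
      rw [Finset.mem_image] at h4
      exact h4
    obtain ⟨σ, hσ, rfl⟩ := h2
    have h5 : MulAction.orbitRel (⊤ : Subgroup Γ) (Sx Q k)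
      (Quotient.mk (MulAction.orbitRel (⊤ : Subgroup Γ) (Sx Q k)) σ).out σ := Quotient.mk_out σ
    obtain ⟨⟨g, hg⟩, hgσ⟩ := h5
    have h6 : g • σ = (Quotient.mk (MulAction.orbitRel (⊤ : Subgroup Γ) (Sx Q k)) σ).out := hgσ
    rw [← h6]
    exact hS g _ (hu σ hσ t)
  refine ⟨Finsupp.lmapDomain ℝ ℝ
    (fun q : Quotient (MulAction.orbitRel (⊤ : Subgroup Γ) (Sx Q k)) => q.out) (orb (⊤ : Subgroup Γ) x), ?_, ?_⟩
  · intro σ hσ t
    have h4 := Finsupp.mapDomain_support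
      (f := fun q : Quotient (MulAction.orbitRel (⊤ : Subgroup Γ) (Sx Q k)) => q.out)
      (s := orb (⊤ : Subgroup Γ) x) hσ
    rw [Finset.mem_image] at h4
    obtain ⟨q, hq, rfl⟩ := h4
    refine ⟨h1 A x hAi hx q hq t, h1 B y hBi hy q ?_ t⟩
    rw [h0, Finsupp.support_neg] at hq
    exact hq
  · apply JJ_of_orb
    rw [map_sub, sub_eq_zero]
    have h7 : (orb (⊤ : Subgroup Γ)).comp (Finsupp.lmapDomain ℝ ℝ
        (fun q : Quotient (MulAction.orbitRel (⊤ : Subgroup Γ) (Sx Q k)) => q.out)) = LinearMap.id := by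
      refine Finsupp.lhom_ext' (fun q => LinearMap.ext_ring ?_)
      simp only [LinearMap.comp_apply, Finsupp.lsingle_apply, Finsupp.lmapDomain_apply, Finsupp.mapDomain_single,
        orb_single, LinearMap.id_apply]
      congr 1
      exact Quotient.out_eq q
    exact LinearMap.congr_fun h7 _

theorem ExG_union {A B : Set Q} (hA : IsOpen A) (hB : IsOpen B) (hAi : ∀ g : Γ, ∀ x ∈ A, g • x ∈ A)
    (hBi : ∀ g : Γ, ∀ x ∈ B, g • x ∈ B)
    (k : ℕ) (h1 : ExG Γ (k + 1) A) (h2 : ExG Γ (k + 1) B) (h3 : ExG Γ k (A ∩ B)) : ExG Γ (k + 1) (A ∪ B) := by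
  classical
  intro z hz hz0
  obtain ⟨N, hN⟩ := exists_small (fun b : Bool => if b then A else B) (by intro b; cases b <;> simp [hA, hB]) (k + 2) z
    (fun σ hσ t => by
      rcases hz σ hσ t with h | h
      · exact ⟨true, by simpa using h⟩
      · exact ⟨false, by simpa using h⟩)
  obtain ⟨c0, hc0, hc0'⟩ := mvg_exists_Sd_pow (k + 1) N (A ∪ B) z hz0 hz
  have hN' := hN N le_rfl
  set z' := ((Sd Q (k + 2)) ^ N) z with hz'
  have hz'0 : bd (k + 1) z' ∈ JJ (⊤ : Subgroup Γ) (k + 1) := by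
    rw [hz', bd_Sd_pow]
    exact mvg_Sd_pow_JJ N hz0
  set a := z'.filter (fun σ => ∀ t, σ t ∈ A) with ha
  set b := z'.filter (fun σ => ¬ ∀ t, σ t ∈ A) with hb
  have hab : a + b = z' := Finsupp.filter_add_filter_not _ _
  have haA : SIn A a := by
    intro σ hσ t
    rw [ha, Finsupp.support_filter, Finset.mem_filter] at hσ
    exact hσ.2 t
  have hbB : SIn B b := by
    intro σ hσ t
    rw [hb, Finsupp.support_filter, Finset.mem_filter] at hσ
    obtain ⟨i, hi⟩ := hN' σ hσ.1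
    cases i with
    | true => exact absurd (fun t => by simpa using hi t) hσ.2
    | false => simpa using hi t
  have h4 : bd (k + 1) a + bd (k + 1) b ∈ JJ (⊤ : Subgroup Γ) (k + 1) := by
    rw [← map_add, hab]; exact hz'0
  obtain ⟨c, hc, hc'⟩ := mvg_common hAi hBi haA.bd hbB.bd h4
  have h5 : bd k c ∈ JJ (⊤ : Subgroup Γ) k := by
    have := JJ.bd hc'
    rwa [map_sub, bd_bd, sub_zero] at this
  obtain ⟨e, he, he'⟩ := h3 c hc h5
  have h6 : bd (k + 1) (a - e) ∈ JJ (⊤ : Subgroup Γ) (k + 1) := by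
    have h : bd (k + 1) (a - e) = (c - bd (k + 1) e) - (c - bd (k + 1) a) := by
      rw [map_sub]; abel
    rw [h]
    exact Submodule.sub_mem _ he' hc'
  have h7 : bd (k + 1) (b + e) ∈ JJ (⊤ : Subgroup Γ) (k + 1) := by
    have h : bd (k + 1) (b + e) = (bd (k + 1) a + bd (k + 1) b) - bd (k + 1) (a - e) := by
      rw [map_sub, map_add]; abel
    rw [h]
    exact Submodule.sub_mem _ h4 h6
  obtain ⟨u, hu, hu'⟩ := h1 (a - e) (haA.sub (he.mono Set.inter_subset_left)) h6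
  obtain ⟨v, hv, hv'⟩ := h2 (b + e) (hbB.add (he.mono Set.inter_subset_right)) h7
  refine ⟨c0 + u + v, (hc0.add (hu.mono Set.subset_union_left)).add (hv.mono Set.subset_union_right), ?_⟩
  have h8 : z - bd (k + 2) (c0 + u + v) = (z - z' - bd (k + 2) c0) + (a - e - bd (k + 2) u) +
      (b + e - bd (k + 2) v) := by
    rw [map_add, map_add, ← hab]; abel
  rw [h8]
  exact Submodule.add_mem _ (Submodule.add_mem _ hc0' hu') hv'

end grp

end SV
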