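import Pool.Agent.Helper43.NH.Slice
import Pool.Agent.Helper43.NH.MVG
import Pool.Agent.Helper43.NH.LocalG

/-! Project NH, module CI5: vanishing of the top degree homology modulo a properly discontinuous cocompact group. -/

namespace SV

open Filter Topology

namespace OrbV

theorem exg_empty {Q Γ : Type*} [TopologicalSpace Q] [Group Γ] [MulAction Γ Q] [ContinuousConstSMul Γ Q] (k : ℕ) :
    ExG Γ k (∅ : Set Q) := by
  intro z hz _
  have : z = 0 := by
    rw [← Finsupp.support_eq_empty]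
    apply Finset.eq_empty_of_forall_notMem
    intro σ hσ
    exact hz σ hσ (vtx 0)
  subst this
  exact ⟨0, SIn.zero, by simp⟩

theorem exg_finite {d : ℕ} (hd : 1 ≤ d) {Q Γ ι : Type*} [TopologicalSpace Q] [Group Γ] [MulAction Γ Q]
    [ContinuousConstSMul Γ Q] (O : ι → Set (Fin d → ℝ)) (j : ∀ i, C(O i, Q))
    (hO : ∀ i, IsOpen (O i)) (hj : ∀ i, IsOpenEmbedding (j i)) (V : ι → Set Q) (hV : ∀ i, IsOpen (V i))
    (hfin : ∀ i, {g : Γ | ((fun y => g • y) '' V i ∩ V i).Nonempty}.Finite)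
    (hstab : ∀ i, ∀ g : Γ, ((fun y => g • y) '' V i ∩ V i).Nonempty → (fun y => g • y) '' V i = V i)
    (hVj : ∀ i, V i ⊆ Set.range (j i)) (F : Finset ι) :
    ∀ (S : Set Q), IsOpen S → (∀ g : Γ, ∀ x ∈ S, g • x ∈ S) → S ⊆ (⋃ i ∈ F, {x | ∃ g : Γ, g • x ∈ V i}) →
      ∀ k, d ≤ k → ExG Γ k S := by
  classical
  have hAo : ∀ i, IsOpen {x : Q | ∃ g : Γ, g • x ∈ V i} := by
    intro i
    have : {x : Q | ∃ g : Γ, g • x ∈ V i} = ⋃ g : Γ, (fun x => g • x) ⁻¹' V i := by
      ext x; simp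
    rw [this]
    exact isOpen_iUnion fun g => (hV i).preimage (continuous_const_smul g)
  have hAi : ∀ i, ∀ g : Γ, ∀ x ∈ {x : Q | ∃ g : Γ, g • x ∈ V i}, g • x ∈ {x : Q | ∃ g : Γ, g • x ∈ V i} := by
    rintro i g x ⟨h, hh⟩
    exact ⟨h * g⁻¹, by rwa [smul_smul, inv_mul_cancel_right]⟩
  induction F using Finset.induction_on with
  | empty =>
    intro S _ _ hS2 k _
    have : S = ∅ := by
      apply Set.eq_empty_of_subset_empty
      simpa using hS2
    rw [this]; exact exg_empty k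
  | insert i F _ ih =>
    intro S hS hSi hS2 k hk
    obtain ⟨k', rfl⟩ : ∃ k', k = k' + 1 := ⟨k - 1, by omega⟩
    have hUo : IsOpen (⋃ i ∈ F, {x : Q | ∃ g : Γ, g • x ∈ V i}) := isOpen_biUnion (fun i _ => hAo i)
    have hUi : ∀ g : Γ, ∀ x ∈ (⋃ i ∈ F, {x : Q | ∃ g : Γ, g • x ∈ V i}),
        g • x ∈ (⋃ i ∈ F, {x : Q | ∃ g : Γ, g • x ∈ V i}) := by
      intro g x hx
      obtain ⟨i, hi, hx⟩ := Set.mem_iUnion₂.1 hx
      exact Set.mem_iUnion₂.2 ⟨i, hi, hAi i g x hx⟩
    have hSe : S = (S ∩ {x : Q | ∃ g : Γ, g • x ∈ V i}) ∪ (S ∩ ⋃ i ∈ F, {x : Q | ∃ g : Γ, g • x ∈ V i}) := by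
      rw [← Set.inter_union_distrib_left]
      refine (Set.inter_eq_left.2 ?_).symm
      refine hS2.trans ?_
      rw [Finset.set_biUnion_insert]
    rw [hSe]
    refine ExG_union (hS.inter (hAo i)) (hS.inter hUo) (fun g x hx => ⟨hSi g x hx.1, hAi i g x hx.2⟩)
      (fun g x hx => ⟨hSi g x hx.1, hUi g x hx.2⟩) k' ?_ ?_ ?_
    · exact ExG_local (V i) (hV i) (hfin i) (hstab i) (O i) (j i) (hO i) (hj i) (hVj i) _ (hS.inter (hAo i))
        (fun g x hx => ⟨hSi g x hx.1, hAi i g x hx.2⟩) (fun x hx => hx.2) (k' + 1) (by omega)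
    · exact ih _ (hS.inter hUo) (fun g x hx => ⟨hSi g x hx.1, hUi g x hx.2⟩) Set.inter_subset_right _ hk
    · exact ExG_local (V i) (hV i) (hfin i) (hstab i) (O i) (j i) (hO i) (hj i) (hVj i) _
        ((hS.inter (hAo i)).inter (hS.inter hUo))
        (fun g x hx => ⟨⟨hSi g x hx.1.1, hAi i g x hx.1.2⟩, hSi g x hx.2.1, hUi g x hx.2.2⟩)
        (fun x hx => hx.1.2) k' (by omega)

/-- dimension zero -/
theorem zero_case {Q : Type*} [TopologicalSpace Q] (hloc : LocEuc 0 Q) (z : SC Q 1) : ∃ w : SC Q 2, z = bd 1 w := by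
  have hdisc : DiscreteTopology Q := by
    rw [discreteTopology_iff_isOpen_singleton]
    intro x
    obtain ⟨O, j, -, hj, y, rfl⟩ := hloc x
    have : Set.range j = {j y} := by
      ext u
      constructor
      · rintro ⟨v, rfl⟩
        have : v = y := Subsingleton.elim _ _
        rw [this]; rfl
      · rintro rfl
        exact ⟨y, rfl⟩
    rw [← this]
    exact hj.isOpen_range
  induction z using Finsupp.induction_linear with
  | zero => exact ⟨0, by simp⟩
  | add a b ha hb =>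
    obtain ⟨w, hw⟩ := ha
    obtain ⟨w', hw'⟩ := hb
    exact ⟨w + w', by rw [map_add, hw, hw']⟩
  | single σ r =>
    have hcst : ∀ t, σ t = σ (vtx 0) := by
      intro t
      have : IsPreconnected (Set.univ : Set (Dl 1)) := by
        have : PreconnectedSpace (Dl 1) := by
          refine isPreconnected_iff_preconnectedSpace.1 ?_
          exact (convex_stdSimplex ℝ (Fin 2)).isPreconnected
        exact isPreconnected_univ
      exact this.constant σ.continuous.continuousOn (Set.mem_univ _) (Set.mem_univ _)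
    refine ⟨Finsupp.single (ContinuousMap.const _ (σ (vtx 0))) r, ?_⟩
    rw [bd_single, Fin.sum_univ_three]
    have h1 : ∀ i, sface Q 1 i (ContinuousMap.const _ (σ (vtx 0))) = σ := by
      intro i
      ext t
      simp only [sface, ContinuousMap.comp_apply, ContinuousMap.const_apply]
      exact (hcst t).symm
    rw [h1, h1, h1]
    simp

end OrbV

theorem orb_vanish {Q Γ : Type*} [TopologicalSpace Q] [T2Space Q] [LocallyCompactSpace Q] [Group Γ] [MulAction Γ Q]
    [ContinuousConstSMul Γ Q] [ProperlyDiscontinuousSMul Γ Q] (d : ℕ) (hloc : LocEuc d Q)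
    (K : Set Q) (hK : IsCompact K) (hcov : ∀ x : Q, ∃ g : Γ, ∃ y ∈ K, x = g • y)
    (z : SC Q (d + 1)) (hz : bd d z ∈ JJ (⊤ : Subgroup Γ) d) :
    ∃ w : SC Q (d + 2), z - bd (d + 1) w ∈ JJ (⊤ : Subgroup Γ) (d + 1) := by
  classical
  rcases Nat.eq_zero_or_pos d with rfl | hd
  · obtain ⟨w, rfl⟩ := OrbV.zero_case hloc z
    exact ⟨w, by simp⟩
  · have h1 := hloc
    choose O j hO hj hx using h1
    have h2 := fun x => ci_slice (Γ := Γ) x (Set.range (j x)) (hj x).isOpen_range (hx x)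
    choose V hV hxV hVj hfin hstab using h2
    obtain ⟨F, hF⟩ := hK.elim_finite_subcover V hV (fun x _ => Set.mem_iUnion.2 ⟨x, hxV x⟩)
    have h3 : ExG Γ d (Set.univ : Set Q) := by
      refine OrbV.exg_finite hd O j hO hj V hV hfin hstab hVj F Set.univ isOpen_univ
        (fun _ _ _ => Set.mem_univ _) ?_ d le_rfl
      intro x _
      obtain ⟨g, y, hy, rfl⟩ := hcov x
      obtain ⟨i, hi, hyi⟩ := Set.mem_iUnion₂.1 (hF hy)
      exact Set.mem_iUnion₂.2 ⟨i, hi, g⁻¹, by rwa [inv_smul_smul]⟩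
    obtain ⟨w, -, hw⟩ := h3 z (SIn.univ z) hz
    exact ⟨w, hw⟩

end SV
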