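import Pool.Agent.Helper43.NH.ExpL

/-! Recurrence for the action of central flows and of the unipotent group: preliminaries. -/

namespace SV

open Filter Topology

section

variable {n : ℕ} {M G A : Type*} [TopologicalSpace M] [T2Space M] [ConnectedSpace M] [Group G] [MulAction G M]
    [ContinuousConstSMul G M] [NormedRing A] [NormedAlgebra ℝ A] [CompleteSpace A] [FiniteDimensional ℝ A]
    {T : A →ₐ[ℝ] (VV n →L[ℝ] VV n)} {eps : A →ₐ[ℝ] ℝ} {gg : G →* A} {dev : M → (Fin n → ℝ)} {K : Set M}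
    {J : Submodule ℝ A} {C : Submodule ℝ A} {Θ : A → A → M → M}

omit [T2Space M] [ContinuousConstSMul G M] [CompleteSpace A] [FiniteDimensional ℝ A] in
theorem recur_eps_gg (D : NHD T eps gg dev K J) (g : G) : eps (gg g) = 1 := by
  obtain ⟨x⟩ : Nonempty M := ConnectedSpace.toNonempty
  have h1 := D.heps (gg g) (dev x, 1)
  rw [D.hgd] at h1
  simpa using h1.symm

omit [T2Space M] [ConnectedSpace M] [ContinuousConstSMul G M] [CompleteSpace A] [FiniteDimensional ℝ A] in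
theorem recur_eps_J (D : NHD T eps gg dev K J) {j : A} (hj : j ∈ J) : eps j = 0 := by
  obtain ⟨m, hm⟩ := (D.hJn j).1 hj
  have h1 := congrArg eps hm
  rw [map_pow, map_zero] at h1
  by_contra hne
  exact pow_ne_zero m hne h1

omit [T2Space M] [ConnectedSpace M] [ContinuousConstSMul G M] [CompleteSpace A] [FiniteDimensional ℝ A] in
theorem recur_inv (D : NHD T eps gg dev K J) {j : A} (hj : j ∈ J) :
    ∃ j' ∈ J, j + j' + j * j' = 0 ∧ j' + j + j' * j = 0 := by
  have hu : IsUnit (1 + j) := ((D.hJn j).1 hj).isUnit_one_add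
  obtain ⟨u, hu⟩ := hu
  refine ⟨(↑u⁻¹ : A) - 1, ?_, ?_, ?_⟩
  · have h1 : (↑u⁻¹ : A) - 1 = (-(↑u⁻¹ : A)) * j := by
      have h2 : (↑u⁻¹ : A) * (1 + j) = 1 := by rw [← hu, Units.inv_mul]
      rw [mul_add, mul_one] at h2
      rw [neg_mul, ← h2]
      abel
    rw [h1]
    exact (D.hJ _ j hj).1
  · have h2 : (1 + j) * (↑u⁻¹ : A) = 1 := by rw [← hu, Units.mul_inv]
    rw [add_mul, one_mul] at h2
    rw [mul_sub, mul_one]
    calc j + ((↑u⁻¹ : A) - 1) + (j * ↑u⁻¹ - j) = (↑u⁻¹ + j * ↑u⁻¹) - 1 := by abel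
      _ = 0 := by rw [h2, sub_self]
  · have h2 : (↑u⁻¹ : A) * (1 + j) = 1 := by rw [← hu, Units.inv_mul]
    rw [mul_add, mul_one] at h2
    rw [sub_mul, one_mul]
    calc ((↑u⁻¹ : A) - 1) + j + (↑u⁻¹ * j - j) = (↑u⁻¹ + ↑u⁻¹ * j) - 1 := by abel
      _ = 0 := by rw [h2, sub_self]

/-- points in the same orbit of the action -/
def RelP (C J : Submodule ℝ A) (Θ : A → A → M → M) (x y : M) : Prop := ∃ Z ∈ C, ∃ j ∈ J, y = Θ Z j x

omit [T2Space M] [ConnectedSpace M] [ContinuousConstSMul G M] [CompleteSpace A] [FiniteDimensional ℝ A] in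
theorem RelP.refl (P : NHT T eps gg dev J C Θ) (x : M) : RelP C J Θ x x :=
  ⟨0, C.zero_mem, 0, J.zero_mem, (P.zero x).symm⟩

omit [T2Space M] [ConnectedSpace M] [ContinuousConstSMul G M] [CompleteSpace A] [FiniteDimensional ℝ A] in
theorem recur_left_inv (P : NHT T eps gg dev J C Θ) {Z j j' : A} (hZ : Z ∈ C) (hj : j ∈ J) (hj' : j' ∈ J)
    (h : j' + j + j' * j = 0) (x : M) : Θ (-Z) j' (Θ Z j x) = x := by
  rw [P.comp _ (C.neg_mem hZ) _ hj' _ hZ _ hj, h, neg_add_cancel, P.zero]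

omit [T2Space M] [ConnectedSpace M] [ContinuousConstSMul G M] [CompleteSpace A] [FiniteDimensional ℝ A] in
theorem RelP.symm (D : NHD T eps gg dev K J) (P : NHT T eps gg dev J C Θ) {x y : M} (h : RelP C J Θ x y) :
    RelP C J Θ y x := by
  obtain ⟨Z, hZ, j, hj, rfl⟩ := h
  obtain ⟨j', hj', h1, h2⟩ := recur_inv D hj
  exact ⟨-Z, C.neg_mem hZ, j', hj', (recur_left_inv P hZ hj hj' h2 x).symm⟩

omit [T2Space M] [ConnectedSpace M] [ContinuousConstSMul G M] [CompleteSpace A] [FiniteDimensional ℝ A] in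
theorem RelP.trans (D : NHD T eps gg dev K J) (P : NHT T eps gg dev J C Θ) {x y z : M} (h : RelP C J Θ x y) (h' : RelP C J Θ y z) :
    RelP C J Θ x z := by
  obtain ⟨Z, hZ, j, hj, rfl⟩ := h
  obtain ⟨Z', hZ', j', hj', rfl⟩ := h'
  exact ⟨Z' + Z, C.add_mem hZ' hZ, _, J.add_mem (J.add_mem hj' hj) (D.hJ _ _ hj).1, P.comp _ hZ' _ hj' _ hZ _ hj x⟩

omit [T2Space M] [ConnectedSpace M] [ContinuousConstSMul G M] [CompleteSpace A] [FiniteDimensional ℝ A] in
theorem recur_conj_mem (D : NHD T eps gg dev K J) (g : G) {j : A} (hj : j ∈ J) : gg g * j * gg g⁻¹ ∈ J :=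
  (D.hJ _ _ (D.hJ _ _ hj).1).2

omit [T2Space M] [ConnectedSpace M] [ContinuousConstSMul G M] [CompleteSpace A] [FiniteDimensional ℝ A] in
theorem RelP.smul (D : NHD T eps gg dev K J) (P : NHT T eps gg dev J C Θ) {x y : M} (g : G) (h : RelP C J Θ x y) :
    RelP C J Θ (g • x) (g • y) := by
  obtain ⟨Z, hZ, j, hj, rfl⟩ := h
  exact ⟨Z, hZ, _, recur_conj_mem D g hj, P.smul g Z hZ j hj x⟩

omit [T2Space M] [ConnectedSpace M] [ContinuousConstSMul G M] [CompleteSpace A] [FiniteDimensional ℝ A] in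
theorem RelP.of_smul (D : NHD T eps gg dev K J) (P : NHT T eps gg dev J C Θ) {x y : M} (g : G) (h : RelP C J Θ (g • x) (g • y)) :
    RelP C J Θ x y := by
  have := RelP.smul D P g⁻¹ h
  rwa [inv_smul_smul, inv_smul_smul] at this

/-- one-parameter groups -/
theorem recur_path (D : NHD T eps gg dev K J) (P : NHT T eps gg dev J C Θ) {s m : A} (hs : s ∈ C) (hm : m ∈ J) (x : M) :
    Continuous (fun t : ℝ => Θ (t • s) (NormedSpace.exp (t • m) - 1) x) ∧
      Θ ((0 : ℝ) • s) (NormedSpace.exp ((0 : ℝ) • m) - 1) x = x ∧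
      ∀ t : ℝ, ((dev (Θ (t • s) (NormedSpace.exp (t • m) - 1) x), (1 : ℝ)) : VV n) =
        T (NormedSpace.exp (t • (s + m))) (dev x, 1) := by
  refine ⟨?_, ?_, fun t => ?_⟩
  · have h1 : Continuous (fun t : ℝ => ((⟨t • s, C.smul_mem t hs⟩ : C),
        ((⟨NormedSpace.exp (t • m) - 1, nx_sub_one_mem J D.hJ (J.smul_mem t hm)⟩ : J), x))) := by
      refine Continuous.prodMk ?_ (Continuous.prodMk ?_ continuous_const)
      · exact Continuous.subtype_mk (continuous_id.smul continuous_const) _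
      · exact Continuous.subtype_mk ((nx_continuous.comp (continuous_id.smul continuous_const)).sub continuous_const) _
    exact P.cont.comp h1
  · rw [zero_smul, zero_smul, NormedSpace.exp_zero, sub_self, P.zero]
  · rw [P.dv _ (C.smul_mem t hs) _ (nx_sub_one_mem J D.hJ (J.smul_mem t hm)), add_sub_cancel, ← nx_add, smul_add]
    exact ((show Commute s m from ((P.hC s).1 hs).1 m).smul_left t).smul_right t

end

end SV
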