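import Pool.Agent.Helper43.NH.RecurA

/-! Recurrence: logarithms and growth in commutative subalgebras. -/

namespace SV

open Filter Topology

section

variable {A V : Type*} [NormedRing A] [NormedAlgebra ℝ A] [CompleteSpace A] [FiniteDimensional ℝ A]
  [NormedAddCommGroup V] [NormedSpace ℝ V]

theorem recur_adjoin_comm (X : A) (a b : Algebra.adjoin ℝ ({X} : Set A)) : a * b = b * a := by
  have := Algebra.isMulCommutative_adjoin ℝ (s := ({X} : Set A)) (by
    rintro _ rfl _ rfl
    rfl)
  exact this.is_comm.comm a b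

theorem recur_e (T : A →ₐ[ℝ] (V →L[ℝ] V)) (eps : A →ₐ[ℝ] ℝ) (X : A) (hX : eps X = 0) (v : V) (hXv : T X v ≠ 0) :
    ∃ e : A, eps e = 0 ∧ Tendsto (fun k : ℕ => ‖T (NormedSpace.exp ((k : ℝ) • e)) v‖) atTop atTop := by
  let B : Subalgebra ℝ A := Algebra.adjoin ℝ {X}
  let iA : NormedCommRing B := { (inferInstance : NormedRing B) with mul_comm := recur_adjoin_comm X }
  let iB : NormedAlgebra ℝ B := (inferInstance : NormedAlgebra ℝ B)
  have iF : FiniteDimensional ℝ B := inferInstance
  have iC : CompleteSpace B := FiniteDimensional.complete ℝ B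
  let X' : B := ⟨X, Algebra.subset_adjoin rfl⟩
  obtain ⟨e, he0, hev, hee⟩ := expv_exists_e (A := B) (T.comp B.val) (eps.comp B.val) v X' hX hXv
  have hg := expv_growth (A := B) (T.comp B.val) e v hev hee
  refine ⟨(e : A), he0, ?_⟩
  have h1 : ∀ k : ℕ, (T.comp B.val) (NormedSpace.exp ((k : ℝ) • e)) = T (NormedSpace.exp ((k : ℝ) • (e : A))) := by
    intro k
    show T ((NormedSpace.exp ((k : ℝ) • e) : B) : A) = _
    rw [nx_coe]
    rfl
  simp only [h1] at hg
  exact hg

theorem recur_pow_log (u : A) (hu : IsUnit u) :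
    ∃ N : ℕ, 0 < N ∧ ∃ q ∈ Algebra.adjoin ℝ ({u} : Set A), NormedSpace.exp ((u ^ N - 1) * q) = u ^ N := by
  let B : Subalgebra ℝ A := Algebra.adjoin ℝ {u}
  let iA : NormedCommRing B := { (inferInstance : NormedRing B) with mul_comm := recur_adjoin_comm u }
  let iB : NormedAlgebra ℝ B := (inferInstance : NormedAlgebra ℝ B)
  have iF : FiniteDimensional ℝ B := inferInstance
  have iC : CompleteSpace B := FiniteDimensional.complete ℝ B
  let u' : B := ⟨u, Algebra.subset_adjoin rfl⟩
  have hu' : IsUnit u' := by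
    have hinj : Function.Injective (LinearMap.mulLeft ℝ u') := by
      intro a b hab
      apply Subtype.ext
      have h1 : u * (a : A) = u * (b : A) := congrArg Subtype.val hab
      exact hu.mul_left_cancel h1
    have hsur := LinearMap.injective_iff_surjective.1 hinj
    obtain ⟨b, hb⟩ := hsur 1
    exact IsUnit.of_mul_eq_one b hb
  obtain ⟨N, hN, q, hq⟩ := exists_pow_log (A := B) u' hu'
  refine ⟨N, hN, q, q.2, ?_⟩
  have h1 := congrArg Subtype.val hq
  rw [nx_coe] at h1
  exact h1

theorem recur_log_small (ε : ℝ) (hε : 0 < ε) : ∃ δ > 0, ∀ s : A, (∀ b, s * b = b * s) → ‖s‖ < δ →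
    ∃ q : A, (∀ b, q * b = b * q) ∧ NormedSpace.exp (s * q) = 1 + s ∧ ‖s * q‖ < ε := by
  let B : Subalgebra ℝ A := Subalgebra.center ℝ A
  have hB : ∀ b : B, ∀ a : A, (b : A) * a = a * b := by
    intro b a
    exact ((Subalgebra.mem_center_iff.1 b.2) a).symm
  let iA : NormedCommRing B := { (inferInstance : NormedRing B) with mul_comm := fun a b => Subtype.ext (hB a b) }
  let iB : NormedAlgebra ℝ B := (inferInstance : NormedAlgebra ℝ B)
  have iF : FiniteDimensional ℝ B := inferInstance
  have iC : CompleteSpace B := FiniteDimensional.complete ℝ B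
  obtain ⟨δ, hδ, h⟩ := exists_log_small (A := B) ε hε
  refine ⟨δ, hδ, fun s hs hsn => ?_⟩
  let s' : B := ⟨s, Subalgebra.mem_center_iff.2 (fun b => (hs b).symm)⟩
  obtain ⟨q, hq, hqn⟩ := h (1 + s') (by rw [add_sub_cancel_left]; exact hsn)
  rw [add_sub_cancel_left] at hq hqn
  refine ⟨q, hB q, ?_, hqn⟩
  have h1 := congrArg Subtype.val hq
  rw [nx_coe] at h1
  exact h1

end

end SV
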