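import Pool.Agent.Helper43.NH.RecurB

/-! Recurrence: a deck transformation whose power acts through central flows and the unipotent group. -/

namespace SV

open Filter Topology

section

variable {n : ℕ} {M G A : Type*} [TopologicalSpace M] [T2Space M] [ConnectedSpace M] [Group G] [MulAction G M]
    [ContinuousConstSMul G M] [NormedRing A] [NormedAlgebra ℝ A] [CompleteSpace A] [FiniteDimensional ℝ A]
    {T : A →ₐ[ℝ] (VV n →L[ℝ] VV n)} {eps : A →ₐ[ℝ] ℝ} {gg : G →* A} {dev : M → (Fin n → ℝ)} {K : Set M}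
    {J : Submodule ℝ A} {C : Submodule ℝ A} {Θ : A → A → M → M}

omit [CompleteSpace A] [FiniteDimensional ℝ A] in
theorem recur_T_mul (a b : A) (v : VV n) : T (a * b) v = T a (T b v) := by
  rw [map_mul]; rfl

/-- decomposition of elements with eps = 0 -/
theorem recur_dec (D : NHD T eps gg dev K J) (P : NHT T eps gg dev J C Θ)
    (hjd : ∀ a : A, ∃ s m : A, a = s + m ∧ IsNilpotent m ∧ ∀ b, s * b = b * s) {a : A} (ha : eps a = 0) :
    ∃ s ∈ C, ∃ m ∈ J, a = s + m := by
  obtain ⟨s, m, h1, h2, h3⟩ := hjd a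
  have hm : m ∈ J := (D.hJn m).2 h2
  refine ⟨s, (P.hC s).2 ⟨h3, ?_⟩, m, hm, h1⟩
  have h4 := congrArg eps h1
  rw [map_add, recur_eps_J D hm, add_zero, ha] at h4
  exact h4.symm

/-- continuous decomposition -/
theorem recur_dec_cont (D : NHD T eps gg dev K J) (P : NHT T eps gg dev J C Θ)
    (hjd : ∀ a : A, ∃ s m : A, a = s + m ∧ IsNilpotent m ∧ ∀ b, s * b = b * s) :
    ∃ (p : LinearMap.ker eps.toLinearMap →L[ℝ] C) (q : LinearMap.ker eps.toLinearMap →L[ℝ] J),
      ∀ a : LinearMap.ker eps.toLinearMap, (a : A) = (p a : A) + (q a : A) := by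
  let E0 := LinearMap.ker eps.toLinearMap
  let S : (C × J) →ₗ[ℝ] E0 :=
    { toFun := fun z => ⟨(z.1 : A) + (z.2 : A), by
        rw [LinearMap.mem_ker]
        show eps ((z.1 : A) + (z.2 : A)) = 0
        rw [map_add, ((P.hC _).1 z.1.2).2, recur_eps_J D z.2.2, add_zero]⟩
      map_add' := by
        intro a b
        apply Subtype.ext
        show ((a.1 + b.1 : C) : A) + ((a.2 + b.2 : J) : A) = ((a.1 : A) + (a.2 : A)) + ((b.1 : A) + (b.2 : A))
        rw [Submodule.coe_add, Submodule.coe_add]; abel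
      map_smul' := by
        intro r a
        apply Subtype.ext
        show ((r • a.1 : C) : A) + ((r • a.2 : J) : A) = r • ((a.1 : A) + (a.2 : A))
        rw [Submodule.coe_smul, Submodule.coe_smul, smul_add] }
  have hS : Function.Surjective S := by
    rintro ⟨a, ha⟩
    obtain ⟨s, hs, m, hm, h⟩ := recur_dec D P hjd (a := a) ha
    refine ⟨(⟨s, hs⟩, ⟨m, hm⟩), Subtype.ext ?_⟩
    exact h.symm
  obtain ⟨ρ, hρ⟩ := S.exists_rightInverse_of_surjective (LinearMap.range_eq_top.2 hS)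
  refine ⟨⟨(LinearMap.fst ℝ C J).comp ρ, LinearMap.continuous_of_finiteDimensional _⟩,
    ⟨(LinearMap.snd ℝ C J).comp ρ, LinearMap.continuous_of_finiteDimensional _⟩, fun a => ?_⟩
  have h1 := LinearMap.congr_fun hρ a
  exact (congrArg Subtype.val h1).symm

/-- correction operator -/
theorem recur_corr (v w : VV n) (b : A) (hw : w = T b v)
    (hdim : Module.finrank ℝ (LinearMap.range ((LinearMap.applyₗ' ℝ v).comp ((ContinuousLinearMap.coeLM ℝ).comp T.toLinearMap) : A →ₗ[ℝ] VV n)) ≤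
      Module.finrank ℝ (LinearMap.range ((LinearMap.applyₗ' ℝ w).comp ((ContinuousLinearMap.coeLM ℝ).comp T.toLinearMap) : A →ₗ[ℝ] VV n))) :
    ∃ R : VV n →L[ℝ] A, ∀ a, T (R (T a v)) w = T a v := by
  let q : VV n → (A →ₗ[ℝ] VV n) := fun v => (LinearMap.applyₗ' ℝ v).comp ((ContinuousLinearMap.coeLM ℝ).comp T.toLinearMap)
  have hq : ∀ v a, q v a = T a v := fun _ _ => rfl
  have h1 : LinearMap.range (q w) ≤ LinearMap.range (q v) := by
    rintro _ ⟨a, rfl⟩
    refine ⟨a * b, ?_⟩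
    rw [hq, hq, hw, recur_T_mul]
  have h3 : LinearMap.range (q w) = LinearMap.range (q v) := Submodule.eq_of_le_of_finrank_le h1 hdim
  obtain ⟨g, hg⟩ := (q w).rangeRestrict.exists_rightInverse_of_surjective (LinearMap.range_rangeRestrict _)
  obtain ⟨g', hg'⟩ := g.exists_extend
  refine ⟨⟨g', LinearMap.continuous_of_finiteDimensional _⟩, fun a => ?_⟩
  have h4 : T a v ∈ LinearMap.range (q w) := by
    rw [h3]; exact ⟨a, rfl⟩
  have h5 : g' (T a v) = g ⟨T a v, h4⟩ := by
    have := LinearMap.congr_fun hg' ⟨T a v, h4⟩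
    exact this
  show T (g' (T a v)) w = T a v
  rw [h5, ← hq w]
  have h6 := LinearMap.congr_fun hg ⟨T a v, h4⟩
  exact congrArg Subtype.val h6

/-- near a point, small elements move y to any point of the same linear orbit -/
theorem recur_near (D : NHD T eps gg dev K J) (P : NHT T eps gg dev J C Θ)
    (hjd : ∀ a : A, ∃ s m : A, a = s + m ∧ IsNilpotent m ∧ ∀ b, s * b = b * s) (y : M) :
    ∃ U ∈ 𝓝 y, ∃ η > 0, ∀ x ∈ U, ∀ c : A, eps c = 0 → ‖c‖ < η →
      T (1 + c) (dev y, 1) = (dev x, 1) → RelP C J Θ y x := by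
  obtain ⟨p, q, hpq⟩ := recur_dec_cont D P hjd
  obtain ⟨ch, hych, hdevch⟩ := D.hdev y
  have hUopen : IsOpen ch.source := ch.open_source
  have hUinj : Set.InjOn dev ch.source := by
    rw [hdevch]; exact ch.injOn
  -- small elements do not leave the chart
  let Fm : C × J → M := fun z => Θ z.1 (NormedSpace.exp (-(z.1 : A)) * (z.2 : A)) y
  have hFc : Continuous Fm := by
    have h1 : Continuous (fun z : C × J => ((z.1 : C),
        ((⟨NormedSpace.exp (-(z.1 : A)) * (z.2 : A), (D.hJ _ _ z.2.2).1⟩ : J), y))) := by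
      refine continuous_fst.prodMk (Continuous.prodMk ?_ continuous_const)
      refine Continuous.subtype_mk ?_ _
      exact (nx_continuous.comp (continuous_subtype_val.comp continuous_fst).neg).mul
        (continuous_subtype_val.comp continuous_snd)
    exact P.cont.comp h1
  have hF0 : Fm 0 = y := by
    show Θ ((0 : C) : A) (NormedSpace.exp (-((0 : C) : A)) * ((0 : J) : A)) y = y
    rw [Submodule.coe_zero, Submodule.coe_zero, mul_zero, P.zero]
  have hnb : ∀ᶠ z in 𝓝 (0 : C × J), Fm z ∈ ch.source := by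
    have h2 := hFc.tendsto 0
    rw [hF0] at h2
    exact h2.eventually (hUopen.mem_nhds hych)
  obtain ⟨ε, hε, hεF⟩ := Metric.eventually_nhds_iff.1 hnb
  obtain ⟨δ, hδ, hδl⟩ := recur_log_small (A := A) ε hε
  have hpc : ∀ᶠ c in 𝓝 (0 : LinearMap.ker eps.toLinearMap), ‖p c‖ < δ ∧ ‖q c‖ < ε := by
    have h1 := (p.continuous.norm.tendsto 0).eventually_lt_const (show ‖p 0‖ < δ by rw [map_zero, norm_zero]; exact hδ)
    have h2 := (q.continuous.norm.tendsto 0).eventually_lt_const (show ‖q 0‖ < ε by rw [map_zero, norm_zero]; exact hε)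
    exact h1.and h2
  obtain ⟨η, hη, hηc⟩ := Metric.eventually_nhds_iff.1 hpc
  refine ⟨ch.source, hUopen.mem_nhds hych, η, hη, fun x hx c hc hcn hT => ?_⟩
  let c' : LinearMap.ker eps.toLinearMap := ⟨c, hc⟩
  have hc' := hηc (y := c') (by rw [dist_zero_right]; exact hcn)
  have hdec := hpq c'
  have hsC := (P.hC _).1 (p c').2
  obtain ⟨l, hl1, hl2, hl3⟩ := hδl (p c' : A) hsC.1 hc'.1
  set Z : A := (p c' : A) * l with hZ
  have hZC : Z ∈ C := by
    rw [P.hC]
    refine ⟨fun b => ?_, ?_⟩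
    · rw [hZ, mul_assoc, hl1, ← mul_assoc, hsC.1, mul_assoc]
    · rw [hZ, map_mul, hsC.2, zero_mul]
  set j : A := NormedSpace.exp (-Z) * (q c' : A) with hj
  have hjJ : j ∈ J := (D.hJ _ _ (q c').2).1
  have hmem : Θ Z j y ∈ ch.source := by
    have := hεF (y := ((⟨Z, hZC⟩ : C), q c')) (by
      rw [dist_zero_right, Prod.norm_mk]
      exact max_lt hl3 hc'.2)
    exact this
  have hdv : ((dev (Θ Z j y), (1 : ℝ)) : VV n) = (dev x, 1) := by
    rw [P.dv Z hZC j hjJ, ← hT]
    congr 2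
    rw [mul_add, mul_one, hj, ← mul_assoc, nx_mul_neg, one_mul, hl2]
    have : c = (p c' : A) + (q c' : A) := hdec
    rw [this, add_assoc]
  have : x = Θ Z j y := (hUinj hmem hx (congrArg Prod.fst hdv)).symm
  exact ⟨Z, hZC, j, hjJ, this⟩

end

end SV
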