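import Pool.Agent.Helper43.NH.Defs

/-! Project NH, module CI2: invariant neighbourhoods for properly discontinuous actions. -/

namespace SV

open Filter Topology

theorem ci_slice {Q Γ : Type*} [TopologicalSpace Q] [T2Space Q] [LocallyCompactSpace Q] [Group Γ] [MulAction Γ Q]
    [ContinuousConstSMul Γ Q] [ProperlyDiscontinuousSMul Γ Q] (x : Q) (U : Set Q) (hU : IsOpen U) (hx : x ∈ U) :
    ∃ V : Set Q, IsOpen V ∧ x ∈ V ∧ V ⊆ U ∧ {g : Γ | ((fun y => g • y) '' V ∩ V).Nonempty}.Finite ∧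
      ∀ g : Γ, ((fun y => g • y) '' V ∩ V).Nonempty → (fun y => g • y) '' V = V := by
  classical
  obtain ⟨C, hC, hCU, hCc⟩ := local_compact_nhds (hU.mem_nhds hx)
  have hfin := ProperlyDiscontinuousSMul.finite_disjoint_inter_image (Γ := Γ) hCc hCc
  -- separating neighbourhoods
  have h1 : ∀ g : Γ, g • x ≠ x → ∃ W : Set Q, IsOpen W ∧ x ∈ W ∧ Disjoint ((fun y => g • y) '' W) W := by
    intro g hg
    obtain ⟨A, B, hA, hB, hgA, hxB, hAB⟩ := t2_separation hg
    refine ⟨(fun y => g • y) ⁻¹' A ∩ B, (hA.preimage (continuous_const_smul g)).inter hB, ⟨hgA, hxB⟩, ?_⟩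
    rw [Set.disjoint_left]
    rintro _ ⟨y, hy, rfl⟩ hy2
    exact Set.disjoint_left.1 hAB hy.1 hy2.2
  choose! W hWo hxW hWd using h1
  set W0 : Set Q := interior C ∩ ⋂ g ∈ hfin.toFinset, (if g • x ≠ x then W g else Set.univ) with hW0
  have hW0o : IsOpen W0 := by
    refine isOpen_interior.inter (isOpen_biInter_finset fun g _ => ?_)
    split_ifs with h
    · exact hWo g h
    · exact isOpen_univ
  have hxW0 : x ∈ W0 := by
    refine ⟨mem_interior_iff_mem_nhds.2 hC, Set.mem_iInter₂.2 fun g _ => ?_⟩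
    split_ifs with h
    · exact hxW g h
    · exact Set.mem_univ _
  have hW0C : W0 ⊆ C := fun y hy => interior_subset hy.1
  have hkey : ∀ g : Γ, ((fun y => g • y) '' W0 ∩ W0).Nonempty → g • x = x := by
    intro g hg
    by_contra hne
    have hgF : g ∈ hfin.toFinset := by
      rw [Set.Finite.mem_toFinset]
      exact hg.mono (Set.inter_subset_inter (Set.image_mono hW0C) hW0C)
    obtain ⟨_, ⟨y, hy, rfl⟩, hy2⟩ := hg
    have hy' := Set.mem_iInter₂.1 hy.2 g hgF
    have hy2' := Set.mem_iInter₂.1 hy2.2 g hgF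
    rw [if_pos hne] at hy' hy2'
    exact Set.disjoint_left.1 (hWd g hne) ⟨y, hy', rfl⟩ hy2'
  have hstabfin : {g : Γ | g • x = x}.Finite := by
    refine hfin.subset ?_
    intro g hg
    exact ⟨x, ⟨x, mem_of_mem_nhds hC, hg⟩, mem_of_mem_nhds hC⟩
  set V : Set Q := ⋂ h ∈ hstabfin.toFinset, (fun y => h • y) '' W0 with hV
  have hVo : IsOpen V := by
    refine isOpen_biInter_finset fun h _ => ?_
    exact isOpenMap_smul h _ hW0o
  have hxV : x ∈ V := by
    refine Set.mem_iInter₂.2 fun h hh => ?_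
    rw [Set.Finite.mem_toFinset] at hh
    exact ⟨x, hxW0, hh⟩
  have hVW : V ⊆ W0 := by
    intro y hy
    have h1 : (1 : Γ) ∈ hstabfin.toFinset := by
      rw [Set.Finite.mem_toFinset]
      exact one_smul _ x
    obtain ⟨z, hz, hzy⟩ := Set.mem_iInter₂.1 hy 1 h1
    simp only [one_smul] at hzy
    rwa [← hzy]
  have hVinv : ∀ g : Γ, g • x = x → (fun y => g • y) '' V ⊆ V := by
    rintro g hg _ ⟨y, hy, rfl⟩
    refine Set.mem_iInter₂.2 fun h hh => ?_
    rw [Set.Finite.mem_toFinset] at hh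
    have h2 : g⁻¹ * h ∈ hstabfin.toFinset := by
      rw [Set.Finite.mem_toFinset]
      change (g⁻¹ * h) • x = x
      rw [mul_smul, hh, inv_smul_eq_iff, hg]
    obtain ⟨z, hz, hzy⟩ := Set.mem_iInter₂.1 hy _ h2
    refine ⟨z, hz, ?_⟩
    simp only at hzy ⊢
    rw [← hzy, smul_smul, mul_inv_cancel_left]
  have hsub : ∀ g : Γ, ((fun y => g • y) '' V ∩ V).Nonempty → g • x = x := fun g hg =>
    hkey g (hg.mono (Set.inter_subset_inter (Set.image_mono hVW) hVW))
  refine ⟨V, hVo, hxV, (hVW.trans hW0C).trans hCU, hstabfin.subset hsub, fun g hg => ?_⟩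
  have hgx := hsub g hg
  refine Set.Subset.antisymm (hVinv g hgx) ?_
  intro y hy
  have h3 : g⁻¹ • y ∈ V := by
    apply hVinv g⁻¹ (by rw [inv_smul_eq_iff, hgx])
    exact ⟨y, hy, rfl⟩
  exact ⟨g⁻¹ • y, h3, smul_inv_smul g y⟩

end SV
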